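import Pool.Agent.Work.MP_92f640_nt.HT.Defs
import Pool.Agent.Work.MP_92f640_nt.HL.TauFour
import Pool.Agent.Work.MP_aac176_nt.Div

/-! # Module Coef: sizes of the coefficients

`|(f * g) n| ≤ ∑_{d ∣ n} |f d| |g (n/d)|`, `τ d ≤ τ n`, `log d ≤ log n` for `d ∣ n`.
`TauFour_T`, `TauFour_R` (HL/TauFour) for the moments, `divisor_bound` (MP_aac176_nt/Div). -/

namespace Pool.Agent.HT

open Finset Pool.Agent.BV Pool.Agent.HL

/-- size of order `(c, i, j)`: `|f n| ≤ c τ(n)^i (1 + log n)^j` -/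
private def Sz (c : ℝ) (i j : ℕ) (f : ArithmeticFunction ℝ) : Prop :=
  ∀ n : ℕ, |f n| ≤ c * (n.divisors.card : ℝ) ^ i * (1 + Real.log n) ^ j

private lemma coef_log_nonneg (n : ℕ) : 0 ≤ Real.log n := Real.log_natCast_nonneg n

private lemma Sz_mul {c c' : ℝ} {i j i' j' : ℕ} {f g : ArithmeticFunction ℝ} (hc : 0 ≤ c)
    (hc' : 0 ≤ c') (hf : Sz c i j f) (hg : Sz c' i' j' g) :
    Sz (c * c') (i + i' + 1) (j + j') (f * g) := by
  intro n
  rcases Nat.eq_zero_or_pos n with rfl | hn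
  · simp
  rw [ArithmeticFunction.mul_apply]
  have h1 : ∀ p ∈ n.divisorsAntidiagonal, |f p.1 * g p.2| ≤
      (c * (n.divisors.card : ℝ) ^ i * (1 + Real.log n) ^ j) *
        (c' * (n.divisors.card : ℝ) ^ i' * (1 + Real.log n) ^ j') := by
    intro p hp
    have hp' := Nat.mem_divisorsAntidiagonal.mp hp
    have d1 : p.1 ∣ n := ⟨p.2, hp'.1.symm⟩
    have d2 : p.2 ∣ n := ⟨p.1, by rw [mul_comm]; exact hp'.1.symm⟩
    have key : ∀ d : ℕ, d ∣ n → (d.divisors.card : ℝ) ≤ n.divisors.card ∧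
        1 + Real.log d ≤ 1 + Real.log n := by
      intro d hd
      constructor
      · exact_mod_cast card_le_card (Nat.divisors_subset_of_dvd hn.ne' hd)
      · have hd0 : 0 < d := Nat.pos_of_dvd_of_pos hd hn
        have := Real.log_le_log (by exact_mod_cast hd0 : (0 : ℝ) < d)
          (by exact_mod_cast Nat.le_of_dvd hn hd : (d : ℝ) ≤ n)
        linarith
    rw [abs_mul]
    have a1 := key p.1 d1
    have a2 := key p.2 d2
    have l1 := coef_log_nonneg p.1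
    have l2 := coef_log_nonneg p.2
    have l3 := coef_log_nonneg n
    refine mul_le_mul ((hf p.1).trans ?_) ((hg p.2).trans ?_) (abs_nonneg _) (by positivity)
    · have b1 := pow_le_pow_left₀ (by positivity) a1.1 i
      have b2 := pow_le_pow_left₀ (by positivity) a1.2 j
      exact mul_le_mul (mul_le_mul_of_nonneg_left b1 hc) b2 (by positivity) (by positivity)
    · have b1 := pow_le_pow_left₀ (by positivity) a2.1 i'
      have b2 := pow_le_pow_left₀ (by positivity) a2.2 j'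
      exact mul_le_mul (mul_le_mul_of_nonneg_left b1 hc') b2 (by positivity) (by positivity)
  calc |∑ p ∈ n.divisorsAntidiagonal, f p.1 * g p.2|
      ≤ ∑ p ∈ n.divisorsAntidiagonal, |f p.1 * g p.2| := abs_sum_le_sum_abs _ _
    _ ≤ ∑ _p ∈ n.divisorsAntidiagonal, (c * (n.divisors.card : ℝ) ^ i * (1 + Real.log n) ^ j) *
        (c' * (n.divisors.card : ℝ) ^ i' * (1 + Real.log n) ^ j') := sum_le_sum h1
    _ = (n.divisors.card : ℝ) * ((c * (n.divisors.card : ℝ) ^ i * (1 + Real.log n) ^ j) *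
        (c' * (n.divisors.card : ℝ) ^ i' * (1 + Real.log n) ^ j')) := by
        rw [DivSum_tau, sum_mul]
        simp
    _ = _ := by ring

private lemma Sz_add {c c' : ℝ} {i j : ℕ} {f g : ArithmeticFunction ℝ} (hf : Sz c i j f)
    (hg : Sz c' i j g) : Sz (c + c') i j (f + g) := by
  intro n
  rw [ArithmeticFunction.add_apply]
  refine (abs_add_le _ _).trans ?_
  have h1 := hf n
  have h2 := hg n
  calc |f n| + |g n| ≤ c * (n.divisors.card : ℝ) ^ i * (1 + Real.log n) ^ j +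
      c' * (n.divisors.card : ℝ) ^ i * (1 + Real.log n) ^ j := add_le_add h1 h2
    _ = _ := by ring

private lemma Sz_mono {c : ℝ} {i j i' j' : ℕ} {f : ArithmeticFunction ℝ} (hc : 0 ≤ c) (hi : i ≤ i')
    (hj : j ≤ j') (hf : Sz c i j f) : Sz c i' j' f := by
  intro n
  rcases Nat.eq_zero_or_pos n with rfl | hn
  · simp only [ArithmeticFunction.map_zero, abs_zero]
    have := coef_log_nonneg 0
    positivity
  refine (hf n).trans ?_
  have h1 : (1 : ℝ) ≤ n.divisors.card := by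
    exact_mod_cast card_pos.2 ⟨1, Nat.one_mem_divisors.2 hn.ne'⟩
  have h2 : (1 : ℝ) ≤ 1 + Real.log n := by
    have := coef_log_nonneg n
    linarith
  have b1 := pow_le_pow_right₀ h1 hi
  have b2 := pow_le_pow_right₀ h2 hj
  exact mul_le_mul (mul_le_mul_of_nonneg_left b1 hc) b2 (by positivity) (by positivity)

private lemma Sz_Bd {f : ArithmeticFunction ℝ} (hf : Bd f) : Sz 12 5 1 f := by
  intro n
  rw [pow_one]
  exact hf n

private lemma Sz_one' : Sz 1 0 0 one' := by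
  intro n
  simp only [one', pow_zero, mul_one]
  rcases Nat.eq_zero_or_pos n with rfl | hn
  · simp
  · simp [hn.ne']

private lemma Sz_mob : Sz 1 0 0 mob := by
  intro n
  simp only [mob, pow_zero, mul_one]
  rw [ArithmeticFunction.intCoe_apply, ← Int.cast_abs]
  exact_mod_cast ArithmeticFunction.abs_moebius_le_one

private lemma Sz_lg : Sz 1 0 1 lg := by
  intro n
  simp only [lg, pow_zero, mul_one, pow_one, one_mul]
  rw [ArithmeticFunction.log_apply, abs_of_nonneg (coef_log_nonneg n)]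
  linarith

private lemma Sz_cutA {c : ℝ} {i j : ℕ} {f : ArithmeticFunction ℝ} (A B : ℕ)
    (hf : Sz c i j f) : Sz c i j (cutA f A B) := by
  intro n
  show |if A < n ∧ n ≤ B then f n else 0| ≤ _
  split_ifs
  · exact hf n
  · rw [abs_zero]
    exact (abs_nonneg _).trans (hf n)

private lemma Sz_cutI {c : ℝ} {i j : ℕ} {f : ArithmeticFunction ℝ} (A : ℕ)
    (hf : Sz c i j f) : Sz c i j (cutI f A) := by
  intro n
  show |if A < n then f n else 0| ≤ _
  split_ifs
  · exact hf n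
  · rw [abs_zero]
    exact (abs_nonneg _).trans (hf n)

theorem sm_bd {w T : ℕ} {S : ArithmeticFunction ℝ} (h : IsSm w T S) (n : ℕ) :
    |S n| ≤ 60 * (n.divisors.card : ℝ) ^ 7 * (1 + Real.log n) ^ 2 := by
  obtain ⟨β₀, β₁, β₂, γ₁, γ₂, h0, h1, h2, h3, h4, rfl⟩ := h
  have e0 : Sz 12 7 2 β₀ := Sz_mono (by norm_num) (by norm_num) (by norm_num) (Sz_Bd h0.bd)
  have e1 : Sz 12 7 2 (β₁ * cutI one' w) := by
    have := Sz_mul (by norm_num) (by norm_num) (Sz_Bd h1.bd) (Sz_cutI w Sz_one')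
    rw [mul_one] at this
    exact Sz_mono (by norm_num) (by norm_num) (by norm_num) this
  have e2 : Sz 12 7 2 (β₂ * cutI lg w) := by
    have := Sz_mul (by norm_num) (by norm_num) (Sz_Bd h2.bd) (Sz_cutI w Sz_lg)
    rw [mul_one] at this
    exact Sz_mono (by norm_num) (by norm_num) (by norm_num) this
  have e3 : Sz 12 7 2 (γ₁ * (cutI one' w * cutI one' w)) := by
    have a := Sz_mul (by norm_num) (by norm_num) (Sz_cutI w Sz_one') (Sz_cutI w Sz_one')
    have := Sz_mul (by norm_num) (by norm_num) (Sz_Bd h3.bd) a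
    rw [mul_one, mul_one] at this
    exact Sz_mono (by norm_num) (by norm_num) (by norm_num) this
  have e4 : Sz 12 7 2 (γ₂ * (cutI one' w * cutI lg w)) := by
    have a := Sz_mul (by norm_num) (by norm_num) (Sz_cutI w Sz_one') (Sz_cutI w Sz_lg)
    have := Sz_mul (by norm_num) (by norm_num) (Sz_Bd h4.bd) a
    rw [mul_one, mul_one] at this
    exact Sz_mono (by norm_num) (by norm_num) (by norm_num) this
  have := Sz_add (Sz_add (Sz_add (Sz_add e0 e1) e2) e3) e4 n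
  refine this.trans (le_of_eq ?_)
  norm_num

theorem ii_bd {U w : ℕ} {F : ArithmeticFunction ℝ} (h : IsII U w F) (n : ℕ) :
    |F n| ≤ 36 * (n.divisors.card : ℝ) ^ 6 * (1 + Real.log n) ^ 2 := by
  obtain ⟨b₁, b₂, b₃, h1, h2, h3, rfl⟩ := h
  have e1 : Sz 12 6 2 (cutA mob U w * b₁) := by
    have := Sz_mul (by norm_num) (by norm_num) (Sz_cutA U w Sz_mob) (Sz_Bd h1)
    rw [one_mul] at this
    exact Sz_mono (by norm_num) (by norm_num) (by norm_num) this
  have e2 : Sz 12 6 2 (cutA one' U w * b₂) := by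
    have := Sz_mul (by norm_num) (by norm_num) (Sz_cutA U w Sz_one') (Sz_Bd h2)
    rw [one_mul] at this
    exact Sz_mono (by norm_num) (by norm_num) (by norm_num) this
  have e3 : Sz 12 6 2 (cutA lg U w * b₃) := by
    have := Sz_mul (by norm_num) (by norm_num) (Sz_cutA U w Sz_lg) (Sz_Bd h3)
    rw [one_mul] at this
    exact Sz_mono (by norm_num) (by norm_num) (by norm_num) this
  have := Sz_add (Sz_add e1 e2) e3 n
  refine this.trans (le_of_eq ?_)
  norm_num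

private lemma coef_H (x N : ℕ) (hx : 3 ≤ x) (hN : N ≤ x) :
    ∑ i ∈ Icc 1 N, ((i : ℝ))⁻¹ ≤ 2 * Real.log x := by
  have h1 : ∑ i ∈ Icc 1 N, ((i : ℝ))⁻¹ ≤ ∑ i ∈ Icc 1 x, ((i : ℝ))⁻¹ :=
    sum_le_sum_of_subset_of_nonneg (Icc_subset_Icc_right hN) (fun _ _ _ => by positivity)
  have h2 := DivSum_H x
  have h3 := DivSum_log x hx
  linarith

theorem tau_sum (j : ℕ) : ∃ C : ℝ, 0 < C ∧ ∀ x N : ℕ, 3 ≤ x → N ≤ x →
    ∑ n ∈ Icc 1 N, (n.divisors.card : ℝ) ^ j ≤ C * N * (Real.log x) ^ (2 ^ j) := by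
  refine ⟨2 ^ (2 ^ j), by positivity, ?_⟩
  intro x N hx hN
  have hl := DivSum_log x hx
  refine (TauFour_T j N x hN).trans ?_
  have h1 := pow_le_pow_left₀ (by positivity) (coef_H x x hx le_rfl) (2 ^ j - 1)
  have h2 : (2 * Real.log x) ^ (2 ^ j - 1) ≤ (2 * Real.log x) ^ (2 ^ j) :=
    pow_le_pow_right₀ (by linarith) (Nat.sub_le _ _)
  calc (N : ℝ) * (∑ i ∈ Icc 1 x, ((i : ℝ))⁻¹) ^ (2 ^ j - 1) ≤ N * (2 * Real.log x) ^ (2 ^ j) :=
        mul_le_mul_of_nonneg_left (h1.trans h2) (by positivity)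
    _ = _ := by rw [mul_pow]; ring

theorem tau_inv (j : ℕ) : ∃ C : ℝ, 0 < C ∧ ∀ x N : ℕ, 3 ≤ x → N ≤ x →
    ∑ n ∈ Icc 1 N, (n.divisors.card : ℝ) ^ j / n ≤ C * (Real.log x) ^ (2 ^ j) := by
  refine ⟨2 ^ (2 ^ j), by positivity, ?_⟩
  intro x N hx hN
  have h0 := TauFour_R j N
  have h1 := pow_le_pow_left₀ (by positivity) (coef_H x N hx hN) (2 ^ j)
  simp_rw [div_eq_mul_inv]
  refine h0.trans (h1.trans (le_of_eq ?_))
  rw [mul_pow]

/-- moments of the divisor function, over an interval of length `H` by Cauchy -/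
theorem tau_short (j : ℕ) : ∃ C : ℝ, 0 < C ∧ ∀ x a b : ℕ, 3 ≤ x → a ≤ b → b ≤ x →
    ∑ n ∈ Ioc a b, (n.divisors.card : ℝ) ^ j ≤
      C * Real.sqrt ((b : ℝ) - a) * Real.sqrt x * (Real.log x) ^ (2 ^ (2 * j)) := by
  obtain ⟨C, hC, h⟩ := tau_sum (2 * j)
  refine ⟨Real.sqrt C, Real.sqrt_pos.2 hC, ?_⟩
  intro x a b hx hab hb
  have hl := DivSum_log x hx
  have hab' : (a : ℝ) ≤ b := by exact_mod_cast hab
  have h1 : (∑ n ∈ Ioc a b, (n.divisors.card : ℝ) ^ j) ^ 2 ≤
      ((b : ℝ) - a) * ∑ n ∈ Ioc a b, (n.divisors.card : ℝ) ^ (2 * j) := by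
    have h2 := sum_mul_sq_le_sq_mul_sq (Ioc a b) (fun _ => (1 : ℝ))
      (fun n : ℕ => (n.divisors.card : ℝ) ^ j)
    simp only [one_mul, one_pow, sum_const, Nat.card_Ioc, nsmul_eq_mul, mul_one] at h2
    rw [Nat.cast_sub hab] at h2
    refine h2.trans (le_of_eq ?_)
    congr 1
    apply sum_congr rfl
    intro n _
    rw [← pow_mul, mul_comm j 2]
  have h3 : ∑ n ∈ Ioc a b, (n.divisors.card : ℝ) ^ (2 * j) ≤
      ∑ n ∈ Icc 1 x, (n.divisors.card : ℝ) ^ (2 * j) := by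
    apply sum_le_sum_of_subset_of_nonneg
    · intro n hn
      rw [mem_Ioc] at hn
      rw [mem_Icc]
      omega
    · intros; positivity
  have h4 := h x x hx le_rfl
  have h5 : (∑ n ∈ Ioc a b, (n.divisors.card : ℝ) ^ j) ^ 2 ≤
      (Real.sqrt C * Real.sqrt ((b : ℝ) - a) * Real.sqrt x * (Real.log x) ^ (2 ^ (2 * j))) ^ 2 := by
    have e : (Real.sqrt C * Real.sqrt ((b : ℝ) - a) * Real.sqrt x *
        (Real.log x) ^ (2 ^ (2 * j))) ^ 2 =
        ((b : ℝ) - a) * (C * x * ((Real.log x) ^ (2 ^ (2 * j))) ^ 2) := by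
      rw [mul_pow, mul_pow, mul_pow, Real.sq_sqrt hC.le, Real.sq_sqrt (by linarith),
        Real.sq_sqrt (by positivity)]
      ring
    rw [e]
    refine h1.trans (mul_le_mul_of_nonneg_left (h3.trans (h4.trans ?_)) (by linarith))
    apply mul_le_mul_of_nonneg_left _ (by positivity)
    have h6 : (1 : ℝ) ≤ (Real.log x) ^ (2 ^ (2 * j)) := one_le_pow₀ hl
    nlinarith
  exact (pow_le_pow_iff_left₀ (by positivity) (by positivity) two_ne_zero).1 h5

/-- pointwise bound for tiny coefficients -/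
theorem bd_pow (δ : ℝ) (hδ : 0 < δ) (j : ℕ) : ∃ C : ℝ, 0 < C ∧ ∀ x n : ℕ, 3 ≤ x → 1 ≤ n → n ≤ x →
    (n.divisors.card : ℝ) ^ j * (1 + Real.log n) ^ 2 ≤ C * (x : ℝ) ^ δ := by
  obtain ⟨C, hC, h⟩ := Pool.Agent.Work.MP_aac176_nt.divisor_bound (δ / (2 * (j + 1))) (by positivity)
  refine ⟨C ^ j * (1 + 4 / δ) ^ 2, by positivity, ?_⟩
  intro x n hx hn hnx
  have hx0 : (1 : ℝ) ≤ x := by exact_mod_cast (by omega : 1 ≤ x)
  have hn0 : (1 : ℝ) ≤ n := by exact_mod_cast hn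
  have hnx' : (n : ℝ) ≤ x := by exact_mod_cast hnx
  have hC0 : 0 < C := by linarith
  have h1 : (n.divisors.card : ℝ) ^ j ≤ C ^ j * (x : ℝ) ^ (δ / 2) := by
    have h2 := pow_le_pow_left₀ (by positivity) (h n (by omega)) j
    refine h2.trans ?_
    rw [mul_pow]
    apply mul_le_mul_of_nonneg_left _ (by positivity)
    rw [← Real.rpow_natCast, ← Real.rpow_mul (by positivity)]
    calc (n : ℝ) ^ (δ / (2 * (j + 1)) * j) ≤ (n : ℝ) ^ (δ / 2) := by
          apply Real.rpow_le_rpow_of_exponent_le hn0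
          have : δ / (2 * (j + 1)) * j = δ / 2 * (j / (j + 1)) := by field_simp
          rw [this]
          have h3 : (j : ℝ) / (j + 1) ≤ 1 := by
            rw [div_le_one (by positivity)]
            linarith
          nlinarith
      _ ≤ (x : ℝ) ^ (δ / 2) := Real.rpow_le_rpow (by positivity) hnx' (by positivity)
  have h4 : 1 + Real.log n ≤ (1 + 4 / δ) * (x : ℝ) ^ (δ / 4) := by
    have h5 := Real.log_le_rpow_div (by positivity : (0 : ℝ) ≤ n) (by positivity : 0 < δ / 4)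
    have h6 : (n : ℝ) ^ (δ / 4) ≤ (x : ℝ) ^ (δ / 4) :=
      Real.rpow_le_rpow (by positivity) hnx' (by positivity)
    have h7 : (1 : ℝ) ≤ (x : ℝ) ^ (δ / 4) := Real.one_le_rpow hx0 (by positivity)
    have h8 : (n : ℝ) ^ (δ / 4) / (δ / 4) = 4 / δ * (n : ℝ) ^ (δ / 4) := by field_simp
    rw [h8] at h5
    have h9 : 4 / δ * (n : ℝ) ^ (δ / 4) ≤ 4 / δ * (x : ℝ) ^ (δ / 4) :=
      mul_le_mul_of_nonneg_left h6 (by positivity)
    linarith
  have h5 : 0 ≤ Real.log n := Real.log_nonneg hn0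
  have h6 := pow_le_pow_left₀ (by positivity) h4 2
  calc (n.divisors.card : ℝ) ^ j * (1 + Real.log n) ^ 2
      ≤ (C ^ j * (x : ℝ) ^ (δ / 2)) * ((1 + 4 / δ) * (x : ℝ) ^ (δ / 4)) ^ 2 :=
        mul_le_mul h1 h6 (by positivity) (by positivity)
    _ = C ^ j * (1 + 4 / δ) ^ 2 * ((x : ℝ) ^ (δ / 2) * ((x : ℝ) ^ (δ / 4)) ^ 2) := by ring
    _ = _ := by
        congr 1
        rw [← Real.rpow_natCast ((x : ℝ) ^ (δ / 4)), ← Real.rpow_mul (by positivity),
          ← Real.rpow_add (by positivity)]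
        congr 1
        push_cast
        ring

end Pool.Agent.HT
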