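import Pool.Agent.Work.MP_92f640_nt.HT.Coef
import Pool.Agent.Work.MP_92f640_nt.HL.TypeII

/-! # Module IIMinor: the type II part on the minor arcs

For each of the three products `a * b`, `a` supported in `(U, w]`: all coefficients restricted to the integers
coprime to `m`. `∑_{n ≤ x} (a*b)(n) G(n) = ∑_{c, k, ck ≤ x} a(c) b(k) G(ck)`. `k = 1`: trivial, `≤ 12 w (1+log x)²`.
`k ≥ 2`: dyadic blocks `k ∈ (2^j, 2^(j+1)]`, `j ≥ 0`, `c ∈ (2^i U, 2^(i+1) U]`, `2^i U ≤ w`, `2^(i+j) U ≤ x`,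
at most `C L²` blocks; `typeII` (HL) with the roles `k` (there `k`, `a k := b k`) and `c` (there `c`, `g c := a c`):
`X₁ X₂ ((X₂/s + 1)(X₁/q + 1 + s (1 + log s))) ≤ C L (x²/q)(1/s + 1/U + q w/x + q s/x)` since `X₁ X₂ ≤ x`,
`X₂ ≤ w`, `X₁ ≤ x/U`; coefficient sums by `tau_sum 10`. -/

namespace Pool.Agent.HT

open Finset Pool.Agent.BV Pool.Agent.HL

namespace IIMinor

/-- one term of the double sum -/
noncomputable def tm (x : ℕ) (φ : ℕ → ℂ) (α : ℝ) (a g : ℕ → ℂ) (k c : ℕ) : ℂ :=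
  if c * k ≤ x then a k * g c * (φ (c * k) * e ((c * k : ℕ) * α)) else 0

/-- restriction to the integers coprime to `m` -/
noncomputable def cm (m : ℕ) (f : ArithmeticFunction ℝ) (n : ℕ) : ℂ :=
  if n.Coprime m then ((f n : ℝ) : ℂ) else 0

lemma norm_cm (m : ℕ) (f : ArithmeticFunction ℝ) (n : ℕ) : ‖cm m f n‖ ≤ |f n| := by
  unfold cm
  split_ifs
  · rw [Complex.norm_real, Real.norm_eq_abs]
  · rw [norm_zero]
    exact abs_nonneg _

lemma expand (x m : ℕ) (φ : ℕ → ℂ) (α : ℝ) (a b : ArithmeticFunction ℝ) :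
    ∑ n ∈ (Icc 1 x).filter (fun n => n.Coprime m), (((a * b) n : ℝ) : ℂ) * φ n * e (n * α) =
      ∑ k ∈ Icc 1 x, ∑ c ∈ Icc 1 x, tm x φ α (cm m b) (cm m a) k c := by
  have h1 : ∀ n ∈ Icc 1 x,
      (if n.Coprime m then (((a * b) n : ℝ) : ℂ) * φ n * e (n * α) else 0) =
      ∑ p ∈ (Icc 1 x ×ˢ Icc 1 x).filter (fun p : ℕ × ℕ => p.1 * p.2 = n),
        tm x φ α (cm m b) (cm m a) p.2 p.1 := by
    intro n hn
    obtain ⟨hn1, hn2⟩ := mem_Icc.mp hn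
    have hset : (Icc 1 x ×ˢ Icc 1 x).filter (fun p : ℕ × ℕ => p.1 * p.2 = n) =
        n.divisorsAntidiagonal := by
      ext p
      simp only [mem_filter, mem_product, mem_Icc, Nat.mem_divisorsAntidiagonal]
      constructor
      · rintro ⟨_, h⟩
        exact ⟨h, by omega⟩
      · rintro ⟨h, _⟩
        have h1 : p.1 ≠ 0 := by
          intro h0
          rw [h0, zero_mul] at h
          omega
        have h2 : p.2 ≠ 0 := by
          intro h0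
          rw [h0, mul_zero] at h
          omega
        refine ⟨⟨⟨by omega, ?_⟩, ⟨by omega, ?_⟩⟩, h⟩
        · exact le_trans (Nat.le_mul_of_pos_right _ (by omega)) (h.le.trans hn2)
        · exact le_trans (Nat.le_mul_of_pos_left _ (by omega)) (h.le.trans hn2)
    rw [hset]
    by_cases hm : n.Coprime m
    · rw [if_pos hm, ArithmeticFunction.mul_apply]
      push_cast
      rw [sum_mul, sum_mul]
      refine sum_congr rfl fun p hp => ?_
      have h2 := (Nat.mem_divisorsAntidiagonal.mp hp).1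
      have h3 : p.1.Coprime m ∧ p.2.Coprime m := by
        rw [← h2] at hm
        exact Nat.coprime_mul_iff_left.mp hm
      unfold tm cm
      rw [if_pos (by rw [h2]; exact hn2), if_pos h3.1, if_pos h3.2, h2]
      ring
    · rw [if_neg hm]
      symm
      apply sum_eq_zero
      intro p hp
      have h2 := (Nat.mem_divisorsAntidiagonal.mp hp).1
      rw [← h2, Nat.coprime_mul_iff_left, not_and_or] at hm
      unfold tm cm
      rcases hm with hm | hm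
      · rw [if_neg hm]
        simp
      · rw [if_neg hm]
        simp
  rw [sum_filter, sum_congr rfl h1]
  simp only [sum_filter]
  rw [sum_comm]
  have h2 : ∀ p ∈ Icc 1 x ×ˢ Icc 1 x, ∑ n ∈ Icc 1 x,
      (if p.1 * p.2 = n then tm x φ α (cm m b) (cm m a) p.2 p.1 else 0) =
      tm x φ α (cm m b) (cm m a) p.2 p.1 := by
    intro p hp
    rw [sum_ite_eq]
    obtain ⟨hp1, hp2⟩ := mem_product.mp hp
    rw [mem_Icc] at hp1 hp2
    by_cases h : p.1 * p.2 ≤ x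
    · rw [if_pos]
      exact mem_Icc.mpr ⟨Nat.mul_pos hp1.1 hp2.1, h⟩
    · rw [if_neg]
      · unfold tm
        rw [if_neg h]
      · intro h3
        exact h (mem_Icc.mp h3).2
  rw [sum_congr rfl h2, sum_product_right]

lemma dyad (N J : ℕ) (f : ℕ → ℂ) : ∑ k ∈ Ioc N (2 ^ J * N), f k =
    ∑ j ∈ range J, ∑ k ∈ Ioc (2 ^ j * N) (2 * (2 ^ j * N)), f k := by
  induction J with
  | zero => simp
  | succ J ih =>
    have h1 : 2 * (2 ^ J * N) = 2 ^ (J + 1) * N := by ring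
    rw [sum_range_succ, ← ih, h1]
    refine (sum_Ioc_consecutive f ?_ ?_).symm
    · exact Nat.le_mul_of_pos_left _ (by positivity)
    · rw [← h1]
      omega

lemma decomp {x U J : ℕ} (hx : 1 ≤ x) (hU : 1 ≤ U) (hJ : x ≤ 2 ^ J) (T : ℕ → ℕ → ℂ)
    (h1 : ∀ k c, x < c * k → T k c = 0) (h2 : ∀ k c, c ≤ U → T k c = 0) :
    ∑ k ∈ Icc 1 x, ∑ c ∈ Icc 1 x, T k c = ∑ c ∈ Icc 1 x, T 1 c +
      ∑ j ∈ range J, ∑ i ∈ range J, ∑ k ∈ Ioc (2 ^ j) (2 * 2 ^ j),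
        ∑ c ∈ Ioc (2 ^ i * U) (2 * (2 ^ i * U)), T k c := by
  rw [Finset.Icc_eq_cons_Ioc hx, Finset.sum_cons]
  rw [← Finset.Icc_eq_cons_Ioc hx]
  congr 1
  have h3 : ∀ k, 1 ≤ k → ∑ c ∈ Icc 1 x, T k c = ∑ i ∈ range J,
      ∑ c ∈ Ioc (2 ^ i * U) (2 * (2 ^ i * U)), T k c := by
    intro k hk
    rw [← dyad]
    refine Finset.sum_congr_of_eq_on_inter ?_ ?_ ?_
    · intro c hc hc'
      rw [mem_Icc] at hc
      rw [mem_Ioc, not_and_or, not_lt, not_le] at hc'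
      rcases hc' with h | h
      · exact h2 k c h
      · exfalso
        have : 2 ^ J ≤ 2 ^ J * U := Nat.le_mul_of_pos_right _ hU
        omega
    · intro c hc hc'
      rw [mem_Ioc] at hc
      rw [mem_Icc, not_and_or, not_le, not_le] at hc'
      rcases hc' with h | h
      · exfalso
        omega
      · apply h1
        exact lt_of_lt_of_le h (Nat.le_mul_of_pos_right _ hk)
    · intro c _ _
      rfl
  have h4 : ∑ k ∈ Ioc 1 x, ∑ c ∈ Icc 1 x, T k c =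
      ∑ k ∈ Ioc 1 (2 ^ J * 1), ∑ c ∈ Icc 1 x, T k c := by
    apply sum_subset
    · apply Ioc_subset_Ioc_right
      omega
    · intro k hk hk'
      rw [mem_Ioc] at hk hk'
      apply sum_eq_zero
      intro c hc
      rw [mem_Icc] at hc
      apply h1
      have h5 : x < k := by omega
      exact lt_of_lt_of_le h5 (Nat.le_mul_of_pos_left _ hc.1)
  rw [h4, dyad]
  refine sum_congr rfl fun j _ => ?_
  rw [mul_one]
  refine Eq.trans ?_ sum_comm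
  refine sum_congr rfl fun k hk => ?_
  rw [mem_Ioc] at hk
  exact h3 k (by omega)

/-- the target -/
noncomputable def tgt (x q s w U : ℕ) : ℝ :=
  ((x : ℝ) ^ 2 / q) * (1 / s + 1 / U + (q : ℝ) * w / x + (q : ℝ) * s / x)

lemma tgt_nonneg (x q s w U : ℕ) : 0 ≤ tgt x q s w U := by
  unfold tgt
  positivity

lemma tgt_eq {x q s w U : ℕ} (hx : 3 ≤ x) (hq : 1 ≤ q) (hs : 1 ≤ s) (hU : 1 ≤ U) :
    tgt x q s w U = (x : ℝ) ^ 2 / (s * q) + (x : ℝ) ^ 2 / (U * q) + x * w + x * s := by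
  unfold tgt
  have h1 : (0 : ℝ) < x := by exact_mod_cast (by omega : 0 < x)
  have h2 : (0 : ℝ) < q := by exact_mod_cast hq
  have h3 : (0 : ℝ) < s := by exact_mod_cast hs
  have h4 : (0 : ℝ) < U := by exact_mod_cast hU
  field_simp

/-- the inequality for a block -/
lemma calc_block {x q s w U : ℕ} {X₁ X₂ L Λ : ℝ} (hx : 3 ≤ x) (hq : 1 ≤ q) (hs : 1 ≤ s)
    (hU : 1 ≤ U) (hw : 1 ≤ w) (hX₁ : 1 ≤ X₁) (hUX : U ≤ X₂) (hXw : X₂ ≤ w) (hXX : X₁ * X₂ ≤ x)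
    (hL : 1 ≤ L) (hΛ : Λ ≤ 2 * L) :
    X₁ * X₂ * ((X₂ / s + 1) * (X₁ / q + 1 + s * Λ)) ≤ 4 * L * tgt x q s w U := by
  rw [tgt_eq hx hq hs hU]
  have h1 : (3 : ℝ) ≤ x := by exact_mod_cast hx
  have h2 : (1 : ℝ) ≤ q := by exact_mod_cast hq
  have h3 : (1 : ℝ) ≤ s := by exact_mod_cast hs
  have h4 : (1 : ℝ) ≤ U := by exact_mod_cast hU
  have h5 : (1 : ℝ) ≤ w := by exact_mod_cast hw
  have hX₂ : 1 ≤ X₂ := h4.trans hUX
  set P := X₁ * X₂ with hP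
  have hP0 : 0 < P := by positivity
  have hX₁U : X₁ ≤ x / U := by
    rw [le_div_iff₀ (by linarith)]
    calc X₁ * U ≤ X₁ * X₂ := mul_le_mul_of_nonneg_left hUX (by linarith)
      _ ≤ x := hXX
  have e1 : P * ((X₂ / s + 1) * (X₁ / q + 1 + s * Λ)) =
      P * P / (s * q) + P * (X₂ / s) + P * X₂ * Λ + P * X₁ / q + P + P * s * Λ := by
    rw [hP]
    field_simp
    ring
  have f1 : P * P / (s * q) ≤ (x : ℝ) ^ 2 / (s * q) := by
    apply div_le_div_of_nonneg_right _ (by positivity)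
    rw [sq]
    exact mul_le_mul hXX hXX hP0.le (by linarith)
  have f2 : P * (X₂ / s) ≤ x * w := by
    apply mul_le_mul hXX _ (by positivity) (by linarith)
    exact (div_le_self (by linarith) h3).trans hXw
  have f3 : P * X₂ * Λ ≤ x * w * (2 * L) := by
    have : P * X₂ ≤ x * w := mul_le_mul hXX hXw (by linarith) (by linarith)
    calc P * X₂ * Λ ≤ P * X₂ * (2 * L) := mul_le_mul_of_nonneg_left hΛ (by positivity)
      _ ≤ x * w * (2 * L) := mul_le_mul_of_nonneg_right this (by linarith)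
  have f4 : P * X₁ / q ≤ (x : ℝ) ^ 2 / (U * q) := by
    have : P * X₁ ≤ x * (x / U) := mul_le_mul hXX hX₁U (by linarith) (by linarith)
    calc P * X₁ / q ≤ x * (x / U) / q := div_le_div_of_nonneg_right this (by linarith)
      _ = _ := by field_simp
  have f5 : P ≤ x * w := hXX.trans (le_mul_of_one_le_right (by linarith) h5)
  have f6 : P * s * Λ ≤ x * s * (2 * L) := by
    have : P * s ≤ x * s := mul_le_mul_of_nonneg_right hXX (by linarith)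
    calc P * s * Λ ≤ P * s * (2 * L) := mul_le_mul_of_nonneg_left hΛ (by positivity)
      _ ≤ x * s * (2 * L) := mul_le_mul_of_nonneg_right this (by linarith)
  rw [e1]
  have g1 : (x : ℝ) ^ 2 / (s * q) ≤ 4 * L * ((x : ℝ) ^ 2 / (s * q)) := by
    have : (0 : ℝ) ≤ (x : ℝ) ^ 2 / (s * q) := by positivity
    nlinarith
  have g2 : (x : ℝ) ^ 2 / (U * q) ≤ 4 * L * ((x : ℝ) ^ 2 / (U * q)) := by
    have : (0 : ℝ) ≤ (x : ℝ) ^ 2 / (U * q) := by positivity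
    nlinarith
  have g3 : x * w + x * w * (2 * L) + x * w ≤ 4 * L * ((x : ℝ) * w) := by
    have : (0 : ℝ) ≤ (x : ℝ) * w := by positivity
    nlinarith
  have g4 : x * s * (2 * L) ≤ 4 * L * ((x : ℝ) * s) := by
    have : (0 : ℝ) ≤ (x : ℝ) * s := by positivity
    nlinarith
  have e2 : 4 * L * ((x : ℝ) ^ 2 / (s * q) + (x : ℝ) ^ 2 / (U * q) + x * w + x * s) =
      4 * L * ((x : ℝ) ^ 2 / (s * q)) + 4 * L * ((x : ℝ) ^ 2 / (U * q)) +
        4 * L * ((x : ℝ) * w) + 4 * L * ((x : ℝ) * s) := by ring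
  rw [e2]
  linarith

lemma one_le_log {x : ℕ} (hx : 3 ≤ x) : 1 ≤ Real.log x := by
  have h1 : (3 : ℝ) ≤ x := by exact_mod_cast hx
  rw [Real.le_log_iff_exp_le (by linarith)]
  have := Real.exp_one_lt_d9
  linarith

lemma log_le' {x n : ℕ} (hn : 1 ≤ n) (hnx : n ≤ x) : Real.log n ≤ Real.log x :=
  Real.log_le_log (by exact_mod_cast hn) (by exact_mod_cast hnx)

lemma cut_le {a : ArithmeticFunction ℝ} (ha : ∀ n : ℕ, 1 ≤ n → |a n| ≤ 1 + Real.log n)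
    {x U w : ℕ} (hx : 3 ≤ x) (hwx : w ≤ x) (m n : ℕ) :
    ‖cm m (cutA a U w) n‖ ≤ if U < n ∧ n ≤ w then 2 * Real.log x else 0 := by
  refine (norm_cm _ _ _).trans ?_
  show |if U < n ∧ n ≤ w then a n else 0| ≤ _
  split_ifs with h
  · have h1 := ha n (by omega)
    have h2 : Real.log n ≤ Real.log x := log_le' (by omega) (by omega)
    have h3 := one_le_log hx
    linarith
  · rw [abs_zero]

lemma sum_cut {a : ArithmeticFunction ℝ} (ha : ∀ n : ℕ, 1 ≤ n → |a n| ≤ 1 + Real.log n)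
    {x U w : ℕ} (hx : 3 ≤ x) (hwx : w ≤ x) (m X₂ : ℕ) :
    ∑ c ∈ Ioc X₂ (2 * X₂), ‖cm m (cutA a U w) c‖ ^ 2 ≤ X₂ * (4 * Real.log x ^ 2) := by
  have hL := one_le_log hx
  have h1 : ∀ c ∈ Ioc X₂ (2 * X₂), ‖cm m (cutA a U w) c‖ ^ 2 ≤ 4 * Real.log x ^ 2 := by
    intro c _
    have h2 := cut_le ha hx hwx m c (U := U)
    have h3 : ‖cm m (cutA a U w) c‖ ≤ 2 * Real.log x := by
      refine h2.trans ?_
      split_ifs
      · exact le_rfl
      · linarith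
    calc _ ≤ (2 * Real.log x) ^ 2 := pow_le_pow_left₀ (norm_nonneg _) h3 2
      _ = _ := by ring
  refine (sum_le_sum h1).trans (le_of_eq ?_)
  rw [sum_const, Nat.card_Ioc, nsmul_eq_mul]
  have : 2 * X₂ - X₂ = X₂ := by omega
  rw [this]

lemma sum_bd {C₀ : ℝ} (hτ : ∀ x N : ℕ, 3 ≤ x → N ≤ x →
      ∑ n ∈ Icc 1 N, (n.divisors.card : ℝ) ^ 10 ≤ C₀ * N * (Real.log x) ^ (2 ^ 10))
    {f : ArithmeticFunction ℝ} (hf : Bd f) {x : ℕ} (hx : 3 ≤ x) (m X₁ : ℕ) (hX : 2 * X₁ ≤ x) :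
    ∑ k ∈ Ioc X₁ (2 * X₁), ‖cm m f k‖ ^ 2 ≤ 1152 * C₀ * X₁ * (Real.log x) ^ 1026 := by
  have hL := one_le_log hx
  have h1 : ∀ k ∈ Ioc X₁ (2 * X₁), ‖cm m f k‖ ^ 2 ≤
      576 * Real.log x ^ 2 * (k.divisors.card : ℝ) ^ 10 := by
    intro k hk
    rw [mem_Ioc] at hk
    have h2 : ‖cm m f k‖ ≤ 12 * (k.divisors.card : ℝ) ^ 5 * (2 * Real.log x) := by
      refine (norm_cm m f k).trans ((hf k).trans ?_)
      apply mul_le_mul_of_nonneg_left _ (by positivity)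
      have := log_le' (n := k) (x := x) (by omega) (by omega)
      linarith
    calc _ ≤ (12 * (k.divisors.card : ℝ) ^ 5 * (2 * Real.log x)) ^ 2 :=
          pow_le_pow_left₀ (norm_nonneg _) h2 2
      _ = _ := by ring
  refine (sum_le_sum h1).trans ?_
  rw [← mul_sum]
  have h3 : ∑ k ∈ Ioc X₁ (2 * X₁), (k.divisors.card : ℝ) ^ 10 ≤
      C₀ * ((2 * X₁ : ℕ) : ℝ) * (Real.log x) ^ (2 ^ 10) := by
    refine le_trans ?_ (hτ x (2 * X₁) hx hX)
    apply sum_le_sum_of_subset_of_nonneg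
    · intro k hk
      rw [mem_Ioc] at hk
      rw [mem_Icc]
      omega
    · intro k _ _
      positivity
  calc _ ≤ 576 * Real.log x ^ 2 * (C₀ * ((2 * X₁ : ℕ) : ℝ) * (Real.log x) ^ (2 ^ 10)) :=
        mul_le_mul_of_nonneg_left h3 (by positivity)
    _ = 1152 * C₀ * X₁ * ((Real.log x) ^ 2 * (Real.log x) ^ (2 ^ 10)) := by
        push_cast
        ring
    _ = _ := by
        rw [← pow_add]
        norm_num

lemma block_le {C₀ : ℝ} (hC₀ : 0 < C₀) (hτ : ∀ x N : ℕ, 3 ≤ x → N ≤ x →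
      ∑ n ∈ Icc 1 N, (n.divisors.card : ℝ) ^ 10 ≤ C₀ * N * (Real.log x) ^ (2 ^ 10))
    {a f : ArithmeticFunction ℝ} (ha : ∀ n : ℕ, 1 ≤ n → |a n| ≤ 1 + Real.log n) (hf : Bd f)
    {x q s w U : ℕ} (m : ℕ) {φ : ℕ → ℂ} {α : ℝ} {b : ℤ} (hx : 3 ≤ x) (hq : 1 ≤ q) (hU : 1 ≤ U)
    (_hUw : U ≤ w) (hwx : w ≤ x) (hqs : q * s ≤ x) (hφ : Tw q φ) (hs : 1 ≤ s)
    (hbs : IsCoprime b (s : ℤ)) (hα : |q * α - b / s| ≤ 1 / (s : ℝ) ^ 2) (i j : ℕ) :
    ‖∑ k ∈ Ioc (2 ^ j) (2 * 2 ^ j), ∑ c ∈ Ioc (2 ^ i * U) (2 * (2 ^ i * U)),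
      tm x φ α (cm m f) (cm m (cutA a U w)) k c‖ ^ 2 ≤
      147456 * C₀ * (Real.log x) ^ 1029 * tgt x q s w U := by
  have hL := one_le_log hx
  have ht := tgt_nonneg x q s w U
  set X₁ : ℕ := 2 ^ j with hX₁
  set X₂ : ℕ := 2 ^ i * U with hX₂
  have hX₁1 : 1 ≤ X₁ := Nat.one_le_two_pow
  have hUX : U ≤ X₂ := Nat.le_mul_of_pos_left _ (by positivity)
  have hpos : 0 ≤ 147456 * C₀ * (Real.log x) ^ 1029 * tgt x q s w U := by positivity
  by_cases h1 : w ≤ X₂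
  · rw [sum_eq_zero]
    · rw [norm_zero, zero_pow two_ne_zero]
      exact hpos
    · intro k _
      apply sum_eq_zero
      intro c hc
      rw [mem_Ioc] at hc
      have h2 := cut_le ha hx hwx m c (U := U)
      rw [if_neg (by omega), norm_le_zero_iff] at h2
      unfold tm
      rw [h2]
      simp
  by_cases h2 : x < (X₂ + 1) * (X₁ + 1)
  · rw [sum_eq_zero]
    · rw [norm_zero, zero_pow two_ne_zero]
      exact hpos
    · intro k hk
      apply sum_eq_zero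
      intro c hc
      rw [mem_Ioc] at hc hk
      unfold tm
      rw [if_neg]
      have : (X₂ + 1) * (X₁ + 1) ≤ c * k := Nat.mul_le_mul (by omega) (by omega)
      omega
  push Not at h1 h2
  have h3 : 2 * X₁ ≤ x := by nlinarith
  have h4 : X₁ * X₂ ≤ x := by nlinarith
  have h5 := typeII x q X₁ X₂ s φ α b (cm m f) (cm m (cutA a U w)) hq hφ hs hbs hα
  refine h5.trans ?_
  have h6 := sum_cut ha hx hwx m X₂ (U := U)
  have h7 := sum_bd hτ hf hx m X₁ h3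
  have hs1 : (1 : ℝ) ≤ s := by exact_mod_cast hs
  have hsx : s ≤ x := le_trans (Nat.le_mul_of_pos_left _ hq) hqs
  have hlog : 0 ≤ Real.log s := Real.log_nonneg hs1
  have hΛ : 1 + Real.log s ≤ 2 * Real.log x := by
    have := log_le' hs hsx
    linarith
  have h8 : 0 ≤ ((X₂ : ℝ) / s + 1) * ((X₁ : ℝ) / q + 1 + s * (1 + Real.log s)) := by positivity
  have h9 : (X₁ : ℝ) * X₂ * (((X₂ : ℝ) / s + 1) * ((X₁ : ℝ) / q + 1 + s * (1 + Real.log s))) ≤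
      4 * Real.log x * tgt x q s w U := by
    refine calc_block hx hq hs hU (by omega) ?_ ?_ ?_ ?_ hL hΛ
    · exact_mod_cast hX₁1
    · exact_mod_cast hUX
    · exact_mod_cast h1.le
    · exact_mod_cast h4
  calc 8 * (∑ k ∈ Ioc X₁ (2 * X₁), ‖cm m f k‖ ^ 2) *
        (∑ c ∈ Ioc X₂ (2 * X₂), ‖cm m (cutA a U w) c‖ ^ 2) *
        (((X₂ : ℝ) / s + 1) * ((X₁ : ℝ) / q + 1 + s * (1 + Real.log s)))
      ≤ 8 * (1152 * C₀ * X₁ * (Real.log x) ^ 1026) * (X₂ * (4 * Real.log x ^ 2)) *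
        (((X₂ : ℝ) / s + 1) * ((X₁ : ℝ) / q + 1 + s * (1 + Real.log s))) := by
        apply mul_le_mul_of_nonneg_right _ h8
        apply mul_le_mul _ h6 (sum_nonneg fun _ _ => by positivity) (by positivity)
        exact mul_le_mul_of_nonneg_left h7 (by norm_num)
    _ = 36864 * C₀ * ((Real.log x) ^ 1026 * Real.log x ^ 2) * ((X₁ : ℝ) * X₂ *
        (((X₂ : ℝ) / s + 1) * ((X₁ : ℝ) / q + 1 + s * (1 + Real.log s)))) := by ring
    _ ≤ 36864 * C₀ * ((Real.log x) ^ 1026 * Real.log x ^ 2) *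
        (4 * Real.log x * tgt x q s w U) := mul_le_mul_of_nonneg_left h9 (by positivity)
    _ = 147456 * C₀ * ((Real.log x) ^ 1026 * Real.log x ^ 2 * Real.log x) * tgt x q s w U := by
        ring
    _ = _ := by rw [← pow_add, ← pow_succ]

lemma norm_tw {q : ℕ} (hq : 1 ≤ q) {φ : ℕ → ℂ} (hφ : Tw q φ) (n : ℕ) : ‖φ n‖ ≤ 1 := by
  rw [hφ.per n]
  have h1 : ‖φ (n % q)‖ ^ 2 ≤ ∑ a ∈ range q, ‖φ a‖ ^ 2 :=
    single_le_sum (f := fun a => ‖φ a‖ ^ 2) (fun _ _ => by positivity)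
      (mem_range.mpr (Nat.mod_lt _ hq))
  have h2 := h1.trans hφ.l2
  nlinarith [norm_nonneg (φ (n % q))]

lemma first_le {a f : ArithmeticFunction ℝ} (ha : ∀ n : ℕ, 1 ≤ n → |a n| ≤ 1 + Real.log n)
    (hf : Bd f) {x q s w U : ℕ} (m : ℕ) {φ : ℕ → ℂ} {α : ℝ} (hx : 3 ≤ x) (hq : 1 ≤ q)
    (hU : 1 ≤ U) (hwx : w ≤ x) (hφ : Tw q φ) (hs : 1 ≤ s) :
    ‖∑ c ∈ Icc 1 x, tm x φ α (cm m f) (cm m (cutA a U w)) 1 c‖ ^ 2 ≤
      576 * (Real.log x) ^ 2 * tgt x q s w U := by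
  have hL := one_le_log hx
  have h1 : ∀ c ∈ Icc 1 x, ‖tm x φ α (cm m f) (cm m (cutA a U w)) 1 c‖ ≤
      if U < c ∧ c ≤ w then 24 * Real.log x else 0 := by
    intro c _
    have h2 := cut_le ha hx hwx m c (U := U)
    have h3 : ‖cm m f 1‖ ≤ 12 := by
      refine (norm_cm m f 1).trans ((hf 1).trans (le_of_eq ?_))
      simp
    have h4 : ‖tm x φ α (cm m f) (cm m (cutA a U w)) 1 c‖ ≤ 12 * ‖cm m (cutA a U w) c‖ := by
      unfold tm
      split_ifs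
      · rw [norm_mul, norm_mul, norm_mul, add_norm_e, mul_one]
        calc ‖cm m f 1‖ * ‖cm m (cutA a U w) c‖ * ‖φ (c * 1)‖ ≤
              12 * ‖cm m (cutA a U w) c‖ * 1 := by
              apply mul_le_mul _ (norm_tw hq hφ _) (norm_nonneg _) (by positivity)
              exact mul_le_mul_of_nonneg_right h3 (norm_nonneg _)
          _ = _ := mul_one _
      · rw [norm_zero]
        positivity
    refine h4.trans ?_
    split_ifs with h
    · rw [if_pos h] at h2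
      linarith
    · rw [if_neg h] at h2
      linarith
  have h5 : ‖∑ c ∈ Icc 1 x, tm x φ α (cm m f) (cm m (cutA a U w)) 1 c‖ ≤
      w * (24 * Real.log x) := by
    refine (norm_sum_le _ _).trans ((sum_le_sum h1).trans ?_)
    rw [← sum_filter, sum_const, nsmul_eq_mul]
    apply mul_le_mul_of_nonneg_right _ (by positivity)
    have : ((Icc 1 x).filter (fun c => U < c ∧ c ≤ w)).card ≤ w := by
      calc _ ≤ (Icc 1 w).card := by
            apply card_le_card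
            intro c hc
            rw [mem_filter, mem_Icc] at hc
            rw [mem_Icc]
            exact ⟨hc.1.1, hc.2.2⟩
        _ = w := by simp
    exact_mod_cast this
  have h6 : (x : ℝ) * w ≤ tgt x q s w U := by
    rw [tgt_eq hx hq hs hU]
    have h7 : (0 : ℝ) ≤ (x : ℝ) ^ 2 / (s * q) := by positivity
    have h8 : (0 : ℝ) ≤ (x : ℝ) ^ 2 / (U * q) := by positivity
    have h9 : (0 : ℝ) ≤ (x : ℝ) * s := by positivity
    linarith
  have h7 : (w : ℝ) * w ≤ x * w := by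
    apply mul_le_mul_of_nonneg_right _ (Nat.cast_nonneg w)
    exact_mod_cast hwx
  calc _ ≤ ((w : ℝ) * (24 * Real.log x)) ^ 2 := pow_le_pow_left₀ (norm_nonneg _) h5 2
    _ = 576 * (Real.log x) ^ 2 * ((w : ℝ) * w) := by ring
    _ ≤ 576 * (Real.log x) ^ 2 * tgt x q s w U :=
      mul_le_mul_of_nonneg_left (h7.trans h6) (by positivity)

lemma sq_sum_le (s : Finset ℕ) (f : ℕ → ℂ) : ‖∑ i ∈ s, f i‖ ^ 2 ≤
    s.card * ∑ i ∈ s, ‖f i‖ ^ 2 :=
  le_trans (pow_le_pow_left₀ (norm_nonneg _) (norm_sum_le _ _) 2) sq_sum_le_card_mul_sum_sq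

lemma log2_le {x : ℕ} (hx : 3 ≤ x) : ((Nat.log 2 x + 1 : ℕ) : ℝ) ≤ 3 * Real.log x := by
  have hL := one_le_log hx
  have h1 : (2 : ℝ) ^ Nat.log 2 x ≤ x := by
    exact_mod_cast Nat.pow_log_le_self 2 (by omega)
  have h2 := Real.log_le_log (by positivity) h1
  rw [Real.log_pow] at h2
  have h3 := Real.log_two_gt_d9
  have h4 : (0 : ℝ) ≤ (Nat.log 2 x : ℝ) := Nat.cast_nonneg _
  push_cast
  nlinarith

lemma prod_le {C₀ : ℝ} (hC₀ : 0 < C₀) (hτ : ∀ x N : ℕ, 3 ≤ x → N ≤ x →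
      ∑ n ∈ Icc 1 N, (n.divisors.card : ℝ) ^ 10 ≤ C₀ * N * (Real.log x) ^ (2 ^ 10))
    {a f : ArithmeticFunction ℝ} (ha : ∀ n : ℕ, 1 ≤ n → |a n| ≤ 1 + Real.log n) (hf : Bd f)
    {x q s w U : ℕ} (m : ℕ) {φ : ℕ → ℂ} {α : ℝ} {b : ℤ} (hx : 3 ≤ x) (hq : 1 ≤ q) (hU : 1 ≤ U)
    (hUw : U ≤ w) (hwx : w ≤ x) (hqs : q * s ≤ x) (hφ : Tw q φ) (hs : 1 ≤ s)
    (hbs : IsCoprime b (s : ℤ)) (hα : |q * α - b / s| ≤ 1 / (s : ℝ) ^ 2) :
    ‖∑ n ∈ (Icc 1 x).filter (fun n => n.Coprime m),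
      (((cutA a U w * f) n : ℝ) : ℂ) * φ n * e (n * α)‖ ^ 2 ≤
      (1152 + 23887872 * C₀) * (Real.log x) ^ 1033 * tgt x q s w U := by
  have hL := one_le_log hx
  have ht := tgt_nonneg x q s w U
  set J := Nat.log 2 x + 1 with hJ
  have hJx : x ≤ 2 ^ J := (Nat.lt_pow_succ_log_self (by norm_num) x).le
  have hJL : (J : ℝ) ≤ 3 * Real.log x := log2_le hx
  rw [expand, decomp (x := x) (U := U) (J := J) (by omega) hU hJx]
  · set B := 147456 * C₀ * (Real.log x) ^ 1029 * tgt x q s w U with hB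
    have hB0 : 0 ≤ B := by positivity
    have h1 := first_le ha hf m hx hq hU hwx hφ hs (α := α) (U := U)
    set S₁ := ∑ c ∈ Icc 1 x, tm x φ α (cm m f) (cm m (cutA a U w)) 1 c with hS₁
    have h2 : ‖∑ j ∈ range J, ∑ i ∈ range J, ∑ k ∈ Ioc (2 ^ j) (2 * 2 ^ j),
        ∑ c ∈ Ioc (2 ^ i * U) (2 * (2 ^ i * U)),
          tm x φ α (cm m f) (cm m (cutA a U w)) k c‖ ^ 2 ≤ (J : ℝ) ^ 4 * B := by
      refine (sq_sum_le _ _).trans ?_
      rw [card_range]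
      have h3 : ∀ j ∈ range J, ‖∑ i ∈ range J, ∑ k ∈ Ioc (2 ^ j) (2 * 2 ^ j),
          ∑ c ∈ Ioc (2 ^ i * U) (2 * (2 ^ i * U)),
            tm x φ α (cm m f) (cm m (cutA a U w)) k c‖ ^ 2 ≤ (J : ℝ) ^ 2 * B := by
        intro j _
        refine (sq_sum_le _ _).trans ?_
        rw [card_range]
        calc (J : ℝ) * ∑ i ∈ range J, ‖∑ k ∈ Ioc (2 ^ j) (2 * 2 ^ j),
              ∑ c ∈ Ioc (2 ^ i * U) (2 * (2 ^ i * U)),
                tm x φ α (cm m f) (cm m (cutA a U w)) k c‖ ^ 2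
            ≤ J * ∑ _i ∈ range J, B := by
              apply mul_le_mul_of_nonneg_left _ (Nat.cast_nonneg _)
              exact sum_le_sum fun i _ =>
                block_le hC₀ hτ ha hf m hx hq hU hUw hwx hqs hφ hs hbs hα i j
          _ = _ := by
              rw [sum_const, card_range, nsmul_eq_mul]
              ring
      calc (J : ℝ) * ∑ j ∈ range J, ‖∑ i ∈ range J, ∑ k ∈ Ioc (2 ^ j) (2 * 2 ^ j),
            ∑ c ∈ Ioc (2 ^ i * U) (2 * (2 ^ i * U)),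
              tm x φ α (cm m f) (cm m (cutA a U w)) k c‖ ^ 2
          ≤ J * ∑ _j ∈ range J, (J : ℝ) ^ 2 * B :=
            mul_le_mul_of_nonneg_left (sum_le_sum h3) (Nat.cast_nonneg _)
        _ = _ := by
            rw [sum_const, card_range, nsmul_eq_mul]
            ring
    set S₂ := ∑ j ∈ range J, ∑ i ∈ range J, ∑ k ∈ Ioc (2 ^ j) (2 * 2 ^ j),
        ∑ c ∈ Ioc (2 ^ i * U) (2 * (2 ^ i * U)),
          tm x φ α (cm m f) (cm m (cutA a U w)) k c with hS₂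
    have h3 : ‖S₁ + S₂‖ ^ 2 ≤ 2 * ‖S₁‖ ^ 2 + 2 * ‖S₂‖ ^ 2 := by
      have h4 := norm_add_le S₁ S₂
      have h5 : ‖S₁ + S₂‖ ^ 2 ≤ (‖S₁‖ + ‖S₂‖) ^ 2 := pow_le_pow_left₀ (norm_nonneg _) h4 2
      nlinarith [sq_nonneg (‖S₁‖ - ‖S₂‖)]
    have h4 : (J : ℝ) ^ 4 ≤ (3 * Real.log x) ^ 4 := pow_le_pow_left₀ (Nat.cast_nonneg _) hJL 4
    have h5 : (J : ℝ) ^ 4 * B ≤ 11943936 * C₀ * (Real.log x) ^ 1033 * tgt x q s w U := by
      calc (J : ℝ) ^ 4 * B ≤ (3 * Real.log x) ^ 4 * B := mul_le_mul_of_nonneg_right h4 hB0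
        _ = 11943936 * C₀ * ((Real.log x) ^ 1029 * Real.log x ^ 4) * tgt x q s w U := by
            rw [hB]
            ring
        _ = _ := by rw [← pow_add]
    have h6 : 576 * (Real.log x) ^ 2 * tgt x q s w U ≤
        576 * (Real.log x) ^ 1033 * tgt x q s w U := by
      apply mul_le_mul_of_nonneg_right _ ht
      apply mul_le_mul_of_nonneg_left _ (by norm_num)
      exact pow_le_pow_right₀ hL (by norm_num)
    calc ‖S₁ + S₂‖ ^ 2 ≤ 2 * ‖S₁‖ ^ 2 + 2 * ‖S₂‖ ^ 2 := h3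
      _ ≤ 2 * (576 * (Real.log x) ^ 1033 * tgt x q s w U) +
          2 * (11943936 * C₀ * (Real.log x) ^ 1033 * tgt x q s w U) := by
          have := h1.trans h6
          have := h2.trans h5
          linarith
      _ = _ := by ring
  · intro k c h
    unfold tm
    rw [if_neg (by omega)]
  · intro k c h
    have h2 := cut_le ha hx hwx m c (U := U)
    rw [if_neg (by omega), norm_le_zero_iff] at h2
    unfold tm
    rw [h2]
    simp

lemma mob_le (n : ℕ) (_hn : 1 ≤ n) : |mob n| ≤ 1 + Real.log n := by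
  have h1 : |mob n| ≤ 1 := by
    show |(((ArithmeticFunction.moebius n : ℤ)) : ℝ)| ≤ 1
    exact_mod_cast ArithmeticFunction.abs_moebius_le_one
  have h2 : 0 ≤ Real.log n := Real.log_natCast_nonneg n
  linarith

lemma one_le (n : ℕ) (hn : 1 ≤ n) : |one' n| ≤ 1 + Real.log n := by
  have h1 : one' n = 1 := by
    unfold one'
    rw [ArithmeticFunction.natCoe_apply, ArithmeticFunction.zeta_apply, if_neg (by omega)]
    norm_num
  rw [h1, abs_one]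
  have h2 : 0 ≤ Real.log n := Real.log_natCast_nonneg n
  linarith

lemma lg_le (n : ℕ) (_hn : 1 ≤ n) : |lg n| ≤ 1 + Real.log n := by
  have h1 : lg n = Real.log n := by
    unfold lg
    rw [ArithmeticFunction.log_apply]
  have h2 : 0 ≤ Real.log n := Real.log_natCast_nonneg n
  rw [h1, abs_of_nonneg h2]
  linarith

end IIMinor

theorem ii_minor : ∃ (C : ℝ) (c : ℕ), 0 < C ∧ ∀ (x q s m w U : ℕ) (φ : ℕ → ℂ) (α : ℝ) (b : ℤ)
    (F : ArithmeticFunction ℝ), IsII U w F → 3 ≤ x → 1 ≤ q → 1 ≤ U → U ≤ w → w ≤ x → q * s ≤ x →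
    q * w ≤ x → Tw q φ → 1 ≤ s → IsCoprime b (s : ℤ) → |q * α - b / s| ≤ 1 / (s : ℝ) ^ 2 →
    ‖∑ n ∈ (Icc 1 x).filter (fun n => n.Coprime m), ((F n : ℝ) : ℂ) * φ n * e (n * α)‖ ^ 2 ≤
      C * (Real.log x) ^ c * ((x : ℝ) ^ 2 / q) *
        (1 / s + 1 / U + (q : ℝ) * w / x + (q : ℝ) * s / x) := by
  obtain ⟨C₀, hC₀, hτ⟩ := tau_sum 10
  refine ⟨9 * (1152 + 23887872 * C₀), 1033, by positivity, ?_⟩
  rintro x q s m w U φ α b F ⟨b₁, b₂, b₃, h₁, h₂, h₃, rfl⟩ hx hq hU hUw hwx hqs _ hφ hs hbs hα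
  have e1 := IIMinor.prod_le hC₀ hτ IIMinor.mob_le h₁ m hx hq hU hUw hwx hqs hφ hs hbs hα
  have e2 := IIMinor.prod_le hC₀ hτ IIMinor.one_le h₂ m hx hq hU hUw hwx hqs hφ hs hbs hα
  have e3 := IIMinor.prod_le hC₀ hτ IIMinor.lg_le h₃ m hx hq hU hUw hwx hqs hφ hs hbs hα
  set S₁ := ∑ n ∈ (Icc 1 x).filter (fun n => n.Coprime m),
    (((cutA mob U w * b₁) n : ℝ) : ℂ) * φ n * e (n * α)
  set S₂ := ∑ n ∈ (Icc 1 x).filter (fun n => n.Coprime m),
    (((cutA one' U w * b₂) n : ℝ) : ℂ) * φ n * e (n * α)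
  set S₃ := ∑ n ∈ (Icc 1 x).filter (fun n => n.Coprime m),
    (((cutA lg U w * b₃) n : ℝ) : ℂ) * φ n * e (n * α)
  have h4 : ∑ n ∈ (Icc 1 x).filter (fun n => n.Coprime m),
      (((cutA mob U w * b₁ + cutA one' U w * b₂ + cutA lg U w * b₃) n : ℝ) : ℂ) * φ n *
        e (n * α) = S₁ + S₂ + S₃ := by
    rw [← sum_add_distrib, ← sum_add_distrib]
    refine sum_congr rfl fun n _ => ?_
    rw [ArithmeticFunction.add_apply, ArithmeticFunction.add_apply]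
    push_cast
    ring
  rw [h4]
  have h5 : ‖S₁ + S₂ + S₃‖ ^ 2 ≤ 3 * (‖S₁‖ ^ 2 + ‖S₂‖ ^ 2 + ‖S₃‖ ^ 2) := by
    have h6 : ‖S₁ + S₂ + S₃‖ ≤ ‖S₁‖ + ‖S₂‖ + ‖S₃‖ := norm_add₃_le
    have h7 : ‖S₁ + S₂ + S₃‖ ^ 2 ≤ (‖S₁‖ + ‖S₂‖ + ‖S₃‖) ^ 2 :=
      pow_le_pow_left₀ (norm_nonneg _) h6 2
    nlinarith [sq_nonneg (‖S₁‖ - ‖S₂‖), sq_nonneg (‖S₁‖ - ‖S₃‖), sq_nonneg (‖S₂‖ - ‖S₃‖)]
  calc _ ≤ 3 * (‖S₁‖ ^ 2 + ‖S₂‖ ^ 2 + ‖S₃‖ ^ 2) := h5
    _ ≤ 9 * ((1152 + 23887872 * C₀) * (Real.log x) ^ 1033 * IIMinor.tgt x q s w U) := by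
        linarith
    _ = _ := by
        unfold IIMinor.tgt
        ring

end Pool.Agent.HT
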