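import Pool.Agent.Work.MP_92f640_nt.HT.Coef
import Pool.Agent.Work.MP_92f640_nt.HL.BadCount
import Pool.Agent.Work.MP_92f640_nt.HL.MassA

/-! # Module BadCount2: number of bad primitive characters

As `HL/BadCount` (`powCoef`), for coefficients `|f n| ≤ 1` (`f = one'` or `mob`): the `J`-th power of `∑_{n ≤ v} f(n) χ(n)`
has coefficients `≤ τ_J(n) ≤ τ(n)^J` supported on `n ≤ v^J`; large sieve (`R² ≤ lo^J ≤ v^J`), `tau_sum (2J)`:
at most `C L^c T^(2J)` primitive characters of conductor `≤ R` have `‖∑‖ > v/T`. If `χ` is bad at `u` take the grid point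
`v = gr η i ≤ u < gr η (i+1)`, `η = 1/(4 L^B)` or smaller (`exists_gr`, `gr_succ_le`; `lo ≥ L^(B+2)`):
`‖cs f χ v‖ ≥ u/L^B - (u - v) ≥ v/(2 L^B)`; number of grid points `≤ x`: `gr_count`. -/

namespace Pool.Agent.HT

open Finset Pool.Agent.BV Pool.Agent.HL

open Classical in
theorem badcount2 (J B : ℕ) (hJ : 1 ≤ J) : ∃ C : ℕ, ∃ x₀ : ℕ, ∀ x : ℕ, x₀ ≤ x → ∀ (lo R : ℕ),
    (Real.log x) ^ (B + 2) ≤ lo → 1 ≤ R → R ^ 2 ≤ lo ^ J →
    ∑ r ∈ Icc 1 R, (((prim r).filter (fun χ => BadT x lo x B χ)).card : ℝ) ≤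
      (Real.log x) ^ C := by
  sorry

end Pool.Agent.HT
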