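import Pool.Agent.Work.MP_92f640_nt.HT.BadCount2
import Pool.Agent.Work.MP_92f640_nt.HL.Bset

/-! # Module Bset2: the exceptional set

As `HL/Bset`, with `R = ⌊x^(2/3)⌋₊`, `lo = ⌊x^κ⌋₊` (or `⌈⌉`), `J ≥ 2/κ`:
`B = { r/g : r > L^(A+B₁+1) conductor of a bad primitive character, g ∣ r, g ≤ L^B₁ }`. If `r ∣ q s`, `s ≤ L^B₁`, then
`g = r/gcd(r,q)` divides `s`; `r ≤ q s ≤ x^(2/3)`. -/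

namespace Pool.Agent.HT

open Finset Pool.Agent.BV Pool.Agent.HL

theorem bset2 (ε κ : ℝ) (hε : 0 < ε) (hκ : 0 < κ) (hκ1 : κ ≤ 1) (B₁ B₉ : ℕ) : ∃ C : ℕ, ∀ A : ℕ,
    ∃ x₀ : ℕ, ∀ x : ℕ, x₀ ≤ x →
    ∃ B : Finset ℕ, (B.card : ℝ) ≤ (Real.log x) ^ C ∧ (∀ b ∈ B, (Real.log x) ^ A < (b : ℝ)) ∧
      ∀ q : ℕ, 1 ≤ q → (q : ℝ) ≤ (x : ℝ) ^ (2 / 3 - ε) → (∀ b ∈ B, ¬ b ∣ q) →
        GoodT x ((x : ℝ) ^ κ) ((x : ℝ) ^ (1 / 3 : ℝ)) ((Real.log x) ^ (A + B₁ + 1))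
          ((Real.log x) ^ B₁) B₉ q := by
  sorry

end Pool.Agent.HT
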