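import Pool.Agent.Work.MP_92f640_nt.HT.Fourth
import Pool.Agent.Work.MP_92f640_nt.HL.MassA

/-! # Module D2: mean square of sums over products of two smooth variables

`η = 1/P`, grid `gr η i` (lemmas in HL/MassA: `gr_mono`, `gr_succ_le`, `exists_gr`, `gr_count`); only the cells
`(gr i, gr (i+1)]` meeting `(w, y/w]`, at most `C P log x` of them. Cell `i`: replace `n₂ ≤ y/n₁` by
`n₂ ≤ y/gr (i+1)`: a product `D₁ D₂` of sums as in `fourth_cut` with `N₁ = gr (i+1)`, `N₂ = y/gr (i+1)`: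
`∑_χ ‖D₁ D₂‖² ≤ (∑ ‖D₁‖⁴)^(1/2) (∑ ‖D₂‖⁴)^(1/2) ≤ C k^(1+δ) N₁ N₂ L⁴`; Cauchy over the cells: `I² C k^(1+δ) y L⁴`.
Boundary: `n = n₁ n₂ ∈ (y (1 - 3/P), y]` (`gr (i+1) ≤ (1+2η) gr i` for `gr i ≥ w ≥ P`), coefficients `≤ τ(n) L`:
`mean_value`: `(3y/P + 1 + k) ∑ τ² L² ≤ x^δ (y/P + 1 + k)(y/P + 1)`. -/

namespace Pool.Agent.HT

open Finset Pool.Agent.BV Pool.Agent.HL

theorem d2_mean (δ : ℝ) (hδ : 0 < δ) : ∃ C : ℝ, 0 < C ∧ ∀ (x w k P y : ℕ) [NeZero k]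
    (f : ArithmeticFunction ℝ), f = one' ∨ f = lg → 3 ≤ x → y ≤ x → k ≤ x → 1 ≤ P → P ≤ w → w ≤ x →
    ∑ χ ∈ (univ : Finset (DirichletCharacter ℂ k)).erase 1,
        ‖cs (cutI one' w * cutI f w) χ y‖ ^ 2 ≤
      C * (x : ℝ) ^ δ * ((P : ℝ) ^ 2 * k * x + (x : ℝ) ^ 2 / (P : ℝ) ^ 2) := by
  sorry

end Pool.Agent.HT
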