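import Pool.Agent.Work.MP_92f640_nt.HL.Defs

/-! # Two thirds: definitions

Plan note TwoThirds on MP_92f640_nt. `L = log x`, `w = wx x = ⌊x^(1/3)⌋₊`, `κ = kap ε`. -/

namespace Pool.Agent.HT

open Finset Pool.Agent.BV Pool.Agent.HL
open scoped ArithmeticFunction.vonMangoldt ArithmeticFunction.Moebius ArithmeticFunction.zeta

noncomputable section

/-- the constant function `1` on the positive integers -/
def one' : ArithmeticFunction ℝ := (ζ : ArithmeticFunction ℝ)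

/-- the Möbius function -/
def mob : ArithmeticFunction ℝ := ((μ : ArithmeticFunction ℤ) : ArithmeticFunction ℝ)

/-- the logarithm -/
def lg : ArithmeticFunction ℝ := ArithmeticFunction.log

/-- `f` cut to the interval `(A, B]` -/
def cutA (f : ArithmeticFunction ℝ) (A B : ℕ) : ArithmeticFunction ℝ :=
  ⟨fun n => if A < n ∧ n ≤ B then f n else 0, by simp⟩

/-- `f` cut to the integers `> A` -/
def cutI (f : ArithmeticFunction ℝ) (A : ℕ) : ArithmeticFunction ℝ :=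
  ⟨fun n => if A < n then f n else 0, by simp⟩

/-- coefficients bounded by a power of the divisor function -/
def Bd (f : ArithmeticFunction ℝ) : Prop :=
  ∀ n : ℕ, |f n| ≤ 12 * (n.divisors.card : ℝ) ^ 5 * (1 + Real.log n)

/-- coefficients on a short interval `[1, T]` -/
structure Tiny (T : ℕ) (f : ArithmeticFunction ℝ) : Prop where
  bd : Bd f
  supp : ∀ n, T < n → f n = 0

/-- smooth part of the von Mangoldt function: at most two smooth variables `> w` and a tiny one -/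
def IsSm (w T : ℕ) (S : ArithmeticFunction ℝ) : Prop :=
  ∃ β₀ β₁ β₂ γ₁ γ₂ : ArithmeticFunction ℝ, Tiny T β₀ ∧ Tiny T β₁ ∧ Tiny T β₂ ∧ Tiny T γ₁ ∧
    Tiny T γ₂ ∧ S = β₀ + β₁ * cutI one' w + β₂ * cutI lg w + γ₁ * (cutI one' w * cutI one' w) +
      γ₂ * (cutI one' w * cutI lg w)

/-- type II part of the von Mangoldt function: a variable in `(U, w]` -/
def IsII (U w : ℕ) (F : ArithmeticFunction ℝ) : Prop :=
  ∃ b₁ b₂ b₃ : ArithmeticFunction ℝ, Bd b₁ ∧ Bd b₂ ∧ Bd b₃ ∧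
    F = cutA mob U w * b₁ + cutA one' U w * b₂ + cutA lg U w * b₃

/-- `∑_{n ≤ u} f(n) χ(n)` -/
def cs {k : ℕ} (f : ArithmeticFunction ℝ) (χ : DirichletCharacter ℂ k) (u : ℕ) : ℂ :=
  ∑ n ∈ Icc 1 u, ((f n : ℝ) : ℂ) * χ (n : ZMod k)

/-- `⌊x^(1/3)⌋` -/
def wx (x : ℕ) : ℕ := ⌊(x : ℝ) ^ (1 / 3 : ℝ)⌋₊

/-- the small exponent -/
def kap (ε : ℝ) : ℝ := min ε 1 / 10000

/-- `⌊x^κ⌋` -/
def Ux (κ : ℝ) (x : ℕ) : ℕ := ⌊(x : ℝ) ^ κ⌋₊

/-- a character is bad if one of the sums of `χ` or `μ χ` up to an integer of `[lo, hi]` is large -/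
def BadT (x : ℕ) (lo hi : ℝ) (B9 : ℕ) {r : ℕ} (χ : DirichletCharacter ℂ r) : Prop :=
  ∃ u : ℕ, lo ≤ u ∧ (u : ℝ) ≤ hi ∧ ((u : ℝ) / (Real.log x) ^ B9 < ‖cs one' χ u‖ ∨
    (u : ℝ) / (Real.log x) ^ B9 < ‖cs mob χ u‖)

/-- `q` is good: no bad primitive character of conductor `> R0` dividing `q s`, `s ≤ S1` -/
def GoodT (x : ℕ) (lo hi R0 S1 : ℝ) (B9 q : ℕ) : Prop :=
  ∀ s : ℕ, 1 ≤ s → (s : ℝ) ≤ S1 → ∀ r : ℕ, r ∣ q * s → R0 < r → ∀ χ ∈ prim r, ¬ BadT x lo hi B9 χ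

/-- `α` is not on the major arcs -/
def NotMajor (x q B₁ B₂ : ℕ) (α : ℝ) : Prop :=
  ∀ (s : ℕ) (b : ℤ), 1 ≤ s → (s : ℝ) ≤ (Real.log x) ^ B₁ → IsCoprime b (s : ℤ) →
    q * (Real.log x) ^ B₂ / x < |q * α - b / s|

end

end Pool.Agent.HT
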