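import Pool.Agent.Work.MP_92f640_nt.HT.SupVV2
import Pool.Agent.Work.MP_92f640_nt.HT.Bset2
import Pool.Agent.Work.MP_92f640_nt.HL.Final

/-! # Module Final2: as `HL/Final` -/

namespace Pool.Agent.HT

open Finset Pool.Agent.BV Pool.Agent.HL

open Classical in
theorem main_nat2 (ε : ℝ) (hε : 0 < ε) (K : ℕ) : ∃ C : ℕ, ∀ A : ℕ, ∃ x₀ : ℕ, ∀ x : ℕ, x₀ ≤ x →
    ∃ B : Finset ℕ, (B.card : ℝ) ≤ (Real.log x) ^ C ∧ (∀ b ∈ B, (Real.log x) ^ A < (b : ℝ)) ∧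
      ∀ q : ℕ, 1 ≤ q → (q : ℝ) ≤ (x : ℝ) ^ (2 / 3 - ε) → (∀ b ∈ B, ¬ b ∣ q) →
        (((Icc 1 x).filter (fun n => x < 2 * n ∧ Even n ∧ q ∣ n ∧
          Pool.Agent.Work.MP_92f640_nt.Bad (1 / 2) n)).card : ℝ) ≤
          (x : ℝ) / (q * (Real.log x) ^ K) := by
  sorry

open Pool.Agent.Work.MP_92f640_nt in
theorem two_thirds (ε : ℝ) (hε : 0 < ε) (K : ℕ) : ∃ C : ℕ, ∀ A : ℕ, ∃ x₀ : ℝ, ∀ x : ℝ, x₀ ≤ x →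
    ∃ B : Finset ℕ, (B.card : ℝ) ≤ (Real.log x) ^ C ∧ (∀ b ∈ B, (Real.log x) ^ A < (b : ℝ)) ∧
      ∀ q : ℕ, 1 ≤ q → (q : ℝ) ≤ x ^ (2 / 3 - ε) → (∀ b ∈ B, ¬ b ∣ q) →
        ((exceptions (1 / 2) x q).card : ℝ) ≤ x / (q * (Real.log x) ^ K) := by
  sorry

end Pool.Agent.HT
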