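import Pool.Agent.Work.MP_92f640_nt.HL.MeanV
import Pool.Agent.Work.MP_92f640_nt.HL.MinSumA
import Pool.Agent.Work.MP_92f640_nt.HL.Ram
import Pool.Agent.Work.MP_aac176_nt.Div
import Pool.Agent.Work.BV.Reduce

/-! # The fourth moment of character sums

`∑_{χ ≠ 1 mod k} |∑_{n ≤ N} χ(n)|⁴ ≤ C k^{1+δ} N²` for all `N`.

Primitive characters mod `r`, `N² ≤ r`: square and `mean_value`.  `N² > r`, `N ≤ r`: `χ(n)` is
`τ(χ̄)⁻¹ ∑_h χ̄(h) e(nh/r)`, the sum over `n` is at most `min (N, r/h)`; square, fold modulo `r`,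
`mean_value`.  Then periodicity, then Möbius inversion for imprimitive characters. -/

namespace Pool.Agent.HT

open Finset Pool.Agent.BV Pool.Agent.HL
open scoped ArithmeticFunction.Moebius

/-- the coefficients of the square -/
private noncomputable def cc (f : ℕ → ℂ) (H m : ℕ) : ℂ :=
  ∑ p ∈ (Icc 1 H ×ˢ Icc 1 H).filter (fun p => p.1 * p.2 = m), f p.1 * f p.2

private lemma sq_expand {r : ℕ} (χ : DirichletCharacter ℂ r) (f : ℕ → ℂ) (H : ℕ) :
    (∑ h ∈ Icc 1 H, f h * χ (h : ZMod r)) ^ 2 =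
      ∑ m ∈ Icc 1 (H * H), cc f H m * χ (m : ZMod r) := by
  rw [sq, sum_mul_sum, ← sum_product',
    ← Finset.sum_fiberwise_of_maps_to (s := Icc 1 H ×ˢ Icc 1 H) (t := Icc 1 (H * H))
      (g := fun p => p.1 * p.2)]
  · refine sum_congr rfl fun m _ => ?_
    unfold cc
    rw [sum_mul]
    refine sum_congr rfl fun p hp => ?_
    rw [← (mem_filter.1 hp).2]
    push_cast
    rw [map_mul]
    ring
  · intro p hp
    rw [mem_product, mem_Icc, mem_Icc] at hp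
    rw [mem_Icc]
    exact ⟨Nat.mul_pos hp.1.1 hp.2.1, Nat.mul_le_mul hp.1.2 hp.2.2⟩

private lemma norm_cc_le (f : ℕ → ℂ) (H m : ℕ) (hm : m ≠ 0) (B : ℝ)
    (hB : ∀ a ∈ Icc 1 H, ∀ b ∈ Icc 1 H, a * b = m → ‖f a‖ * ‖f b‖ ≤ B) (hB0 : 0 ≤ B) :
    ‖cc f H m‖ ≤ m.divisors.card * B := by
  unfold cc
  calc ‖∑ p ∈ (Icc 1 H ×ˢ Icc 1 H).filter (fun p => p.1 * p.2 = m), f p.1 * f p.2‖
      ≤ ∑ p ∈ (Icc 1 H ×ˢ Icc 1 H).filter (fun p => p.1 * p.2 = m), B := by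
        refine (norm_sum_le _ _).trans (sum_le_sum fun p hp => ?_)
        rw [mem_filter, mem_product] at hp
        rw [norm_mul]
        exact hB _ hp.1.1 _ hp.1.2 hp.2
    _ = (((Icc 1 H ×ˢ Icc 1 H).filter (fun p => p.1 * p.2 = m)).card : ℝ) * B := by
        rw [sum_const, nsmul_eq_mul]
    _ ≤ m.divisors.card * B := by
        refine mul_le_mul_of_nonneg_right ?_ hB0
        have : ((Icc 1 H ×ˢ Icc 1 H).filter (fun p => p.1 * p.2 = m)).card ≤ m.divisors.card := by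
          refine card_le_card_of_injOn (fun p => p.1) ?_ ?_
          · intro p hp
            have hp' := mem_filter.1 (mem_coe.1 hp)
            exact mem_coe.2 (Nat.mem_divisors.2 ⟨⟨p.2, hp'.2.symm⟩, hm⟩)
          · intro p hp q hq h
            have hp' := mem_filter.1 (mem_coe.1 hp)
            have hq' := mem_filter.1 (mem_coe.1 hq)
            have h1 : p.1 = q.1 := h
            have h2 : 0 < p.1 := (mem_Icc.1 (mem_product.1 hp'.1).1).1
            have h3 : p.1 * p.2 = p.1 * q.2 := by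
              rw [hp'.2, h1, hq'.2]
            exact Prod.ext h1 (Nat.eq_of_mul_eq_mul_left h2 h3)
        exact_mod_cast this

private lemma fold {r : ℕ} (χ : DirichletCharacter ℂ r) (c : ℕ → ℂ) (J : ℕ) :
    ∑ m ∈ Icc 1 (r * J), c m * χ (m : ZMod r) =
      ∑ u ∈ Ioc 0 (0 + r), (∑ j ∈ range J, c (u + r * j)) * χ (u : ZMod r) := by
  induction J with
  | zero => simp
  | succ J ih =>
    have h1 : Icc 1 (r * (J + 1)) = Icc 1 (r * J) ∪ Ioc (r * J) (r * J + r) := by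
      ext n
      simp only [mem_Icc, mem_Ioc, mem_union, Nat.mul_succ]
      omega
    have h2 : Disjoint (Icc 1 (r * J)) (Ioc (r * J) (r * J + r)) := by
      rw [disjoint_left]
      intro n hn hn'
      rw [mem_Icc] at hn
      rw [mem_Ioc] at hn'
      omega
    rw [h1, sum_union h2, ih]
    have h3 : ∑ m ∈ Ioc (r * J) (r * J + r), c m * χ (m : ZMod r) =
        ∑ u ∈ Ioc 0 (0 + r), c (u + r * J) * χ (u : ZMod r) := by
      symm
      refine sum_nbij' (fun u => u + r * J) (fun n => n - r * J) ?_ ?_ ?_ ?_ ?_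
      · intro u hu
        rw [mem_Ioc] at hu ⊢
        omega
      · intro u hu
        rw [mem_Ioc] at hu ⊢
        omega
      · intro u _
        simp
      · intro u hu
        rw [mem_Ioc] at hu
        omega
      · intro u _
        push_cast
        rw [ZMod.natCast_self, zero_mul, add_zero]
    rw [h3, ← sum_add_distrib]
    refine sum_congr rfl fun u _ => ?_
    rw [sum_range_succ, add_mul]

/-- the dual sum -/
private lemma four_dual (r : ℕ) [NeZero r] (N T : ℝ) (hN : 0 ≤ N)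
    (hT : ∀ m ∈ Icc 1 (r * r), (m.divisors.card : ℝ) ≤ T) (f : ℕ → ℂ)
    (h1 : ∀ h ∈ Icc 1 r, ‖f h‖ ≤ N) (h2 : ∀ h ∈ Icc 1 r, ‖f h‖ ≤ r / h) :
    ∑ χ : DirichletCharacter ℂ r, ‖∑ h ∈ Icc 1 r, f h * χ (h : ZMod r)‖ ^ 4 ≤
      4 * T ^ 2 * (1 + Real.log r) ^ 2 * ((r : ℝ) ^ 3 * N ^ 2 + (r : ℝ) ^ 4) := by
  have hr : 0 < r := Nat.pos_of_ne_zero (NeZero.ne r)
  have hrR : (0 : ℝ) < r := by exact_mod_cast hr
  have hlog : 0 ≤ Real.log r := Real.log_natCast_nonneg r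
  have hT0 : 0 ≤ T := le_trans (by positivity) (hT 1 (mem_Icc.2 ⟨le_rfl, Nat.mul_pos hr hr⟩))
  set C : ℕ → ℂ := fun u => ∑ j ∈ range r, cc f r (u + r * j) with hC
  -- the coefficients
  have b1 : ∀ m ∈ Icc 1 (r * r), ‖cc f r m‖ ≤ T * N ^ 2 := by
    intro m hm
    have hm0 : m ≠ 0 := by
      have := (mem_Icc.1 hm).1
      omega
    refine (norm_cc_le f r m hm0 (N ^ 2) ?_ (by positivity)).trans
      (mul_le_mul_of_nonneg_right (hT m hm) (by positivity))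
    intro a ha b hb _
    rw [sq]
    exact mul_le_mul (h1 a ha) (h1 b hb) (norm_nonneg _) hN
  have b2 : ∀ m ∈ Icc 1 (r * r), ‖cc f r m‖ ≤ T * ((r : ℝ) ^ 2 / m) := by
    intro m hm
    have hm0 : m ≠ 0 := by
      have := (mem_Icc.1 hm).1
      omega
    refine (norm_cc_le f r m hm0 ((r : ℝ) ^ 2 / m) ?_ (by positivity)).trans
      (mul_le_mul_of_nonneg_right (hT m hm) (by positivity))
    intro a ha b hb hab
    have ha1 : (0 : ℝ) < a := by exact_mod_cast (mem_Icc.1 ha).1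
    have hb1 : (0 : ℝ) < b := by exact_mod_cast (mem_Icc.1 hb).1
    calc ‖f a‖ * ‖f b‖ ≤ (r / a) * (r / b) :=
          mul_le_mul (h2 a ha) (h2 b hb) (norm_nonneg _) (by positivity)
      _ = (r : ℝ) ^ 2 / m := by
          rw [← hab]
          push_cast
          field_simp
  have b3 : ∀ u ∈ Ioc 0 (0 + r), ‖C u‖ ^ 2 ≤ 2 * (T ^ 2 * N ^ 2 * (r : ℝ) ^ 2 * (1 / (u : ℝ))) +
      2 * (T * (r * (1 + Real.log r))) ^ 2 := by
    intro u hu
    rw [mem_Ioc, zero_add] at hu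
    have hu0 : (0 : ℝ) < u := by exact_mod_cast hu.1
    have e1 : C u = cc f r u + ∑ j ∈ Ico 1 r, cc f r (u + r * j) := by
      rw [hC]
      simp only
      rw [range_eq_Ico, sum_eq_sum_Ico_succ_bot hr]
      simp
    have hmem : ∀ j, j < r → u + r * j ∈ Icc 1 (r * r) := by
      intro j hj
      rw [mem_Icc]
      have : r * (j + 1) ≤ r * r := Nat.mul_le_mul_left r hj
      rw [Nat.mul_succ] at this
      omega
    have m0 : u ∈ Icc 1 (r * r) := by simpa using hmem 0 hr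
    have e2 : ‖cc f r u‖ ^ 2 ≤ T ^ 2 * N ^ 2 * (r : ℝ) ^ 2 * (1 / (u : ℝ)) := by
      have g1 := b1 u m0
      have g2 := b2 u m0
      calc ‖cc f r u‖ ^ 2 = ‖cc f r u‖ * ‖cc f r u‖ := sq _
        _ ≤ (T * N ^ 2) * (T * ((r : ℝ) ^ 2 / u)) :=
            mul_le_mul g1 g2 (norm_nonneg _) (by positivity)
        _ = _ := by ring
    have e3 : ‖∑ j ∈ Ico 1 r, cc f r (u + r * j)‖ ≤ T * (r * (1 + Real.log r)) := by
      calc ‖∑ j ∈ Ico 1 r, cc f r (u + r * j)‖ ≤ ∑ j ∈ Ico 1 r, T * (r * ((j : ℝ))⁻¹) := by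
            refine (norm_sum_le _ _).trans (sum_le_sum fun j hj => ?_)
            rw [mem_Ico] at hj
            have hj0 : (0 : ℝ) < j := by exact_mod_cast hj.1
            refine (b2 _ (hmem j hj.2)).trans (mul_le_mul_of_nonneg_left ?_ hT0)
            have : (r : ℝ) * j ≤ ((u + r * j : ℕ) : ℝ) := by
              push_cast
              linarith
            calc (r : ℝ) ^ 2 / ((u + r * j : ℕ) : ℝ) ≤ (r : ℝ) ^ 2 / (r * j) :=
                  div_le_div_of_nonneg_left (by positivity) (by positivity) this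
              _ = r * ((j : ℝ))⁻¹ := by
                  field_simp
        _ = T * (r * ∑ j ∈ Ico 1 r, ((j : ℝ))⁻¹) := by
            rw [mul_sum, mul_sum]
        _ ≤ T * (r * (1 + Real.log r)) := by
            refine mul_le_mul_of_nonneg_left (mul_le_mul_of_nonneg_left ?_ hrR.le) hT0
            refine le_trans ?_ (DivSum_H r)
            refine sum_le_sum_of_subset_of_nonneg ?_ (fun _ _ _ => by positivity)
            intro j hj
            rw [mem_Ico] at hj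
            rw [mem_Icc]
            omega
    have e4 : ‖C u‖ ^ 2 ≤ 2 * ‖cc f r u‖ ^ 2 + 2 * ‖∑ j ∈ Ico 1 r, cc f r (u + r * j)‖ ^ 2 := by
      rw [e1]
      have g1 := norm_add_le (cc f r u) (∑ j ∈ Ico 1 r, cc f r (u + r * j))
      have g2 := pow_le_pow_left₀ (norm_nonneg _) g1 2
      nlinarith [sq_nonneg (‖cc f r u‖ - ‖∑ j ∈ Ico 1 r, cc f r (u + r * j)‖)]
    have e5 := pow_le_pow_left₀ (norm_nonneg _) e3 2
    linarith
  have b4 : ∑ u ∈ Ioc 0 (0 + r), ‖C u‖ ^ 2 ≤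
      2 * (T ^ 2 * N ^ 2 * (r : ℝ) ^ 2 * (1 + Real.log r)) +
        r * (2 * (T * (r * (1 + Real.log r))) ^ 2) := by
    refine (sum_le_sum b3).trans ?_
    rw [sum_add_distrib, ← mul_sum, ← mul_sum, sum_const, Nat.card_Ioc, nsmul_eq_mul,
      Nat.sub_zero, zero_add]
    refine add_le_add ?_ le_rfl
    refine mul_le_mul_of_nonneg_left (mul_le_mul_of_nonneg_left ?_ (by positivity)) (by norm_num)
    have hI : Ioc 0 r = Icc 1 r := by
      ext n
      simp only [mem_Icc, mem_Ioc]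
      omega
    rw [hI]
    simp only [one_div]
    exact DivSum_H r
  have hsq : ∀ χ : DirichletCharacter ℂ r, ‖∑ h ∈ Icc 1 r, f h * χ (h : ZMod r)‖ ^ 4 =
      ‖∑ u ∈ Ioc 0 (0 + r), C u * χ (u : ZMod r)‖ ^ 2 := by
    intro χ
    rw [hC, ← fold χ (cc f r) r, ← sq_expand, norm_pow]
    ring
  rw [sum_congr rfl fun χ _ => hsq χ]
  refine (mean_value r 0 r C).trans ?_
  calc ((r : ℝ) + r) * ∑ u ∈ Ioc 0 (0 + r), ‖C u‖ ^ 2
      ≤ ((r : ℝ) + r) * (2 * (T ^ 2 * N ^ 2 * (r : ℝ) ^ 2 * (1 + Real.log r)) +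
        r * (2 * (T * (r * (1 + Real.log r))) ^ 2)) :=
        mul_le_mul_of_nonneg_left b4 (by positivity)
    _ = 4 * T ^ 2 * ((r : ℝ) ^ 3 * N ^ 2 * (1 + Real.log r) + (r : ℝ) ^ 4 * (1 + Real.log r) ^ 2) := by
        ring
    _ ≤ 4 * T ^ 2 * ((r : ℝ) ^ 3 * N ^ 2 * (1 + Real.log r) ^ 2 +
          (r : ℝ) ^ 4 * (1 + Real.log r) ^ 2) := by
        refine mul_le_mul_of_nonneg_left (add_le_add ?_ le_rfl) (by positivity)
        refine mul_le_mul_of_nonneg_left ?_ (by positivity)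
        nlinarith
    _ = _ := by ring

/-- the short sum -/
private lemma four_short (r N : ℕ) [NeZero r] (hN : N * N ≤ r) (T : ℝ)
    (hT : ∀ m ∈ Icc 1 (r * r), (m.divisors.card : ℝ) ≤ T) :
    ∑ χ : DirichletCharacter ℂ r, ‖∑ n ∈ Icc 1 N, χ (n : ZMod r)‖ ^ 4 ≤
      2 * T ^ 2 * r * (N : ℝ) ^ 2 := by
  have hr : 0 < r := Nat.pos_of_ne_zero (NeZero.ne r)
  have hT0 : 0 ≤ T := le_trans (by positivity) (hT 1 (mem_Icc.2 ⟨le_rfl, Nat.mul_pos hr hr⟩))
  have hI : Icc 1 (N * N) = Ioc 0 (0 + N * N) := by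
    ext n
    simp only [mem_Icc, mem_Ioc]
    omega
  have hsq : ∀ χ : DirichletCharacter ℂ r, ‖∑ n ∈ Icc 1 N, χ (n : ZMod r)‖ ^ 4 =
      ‖∑ m ∈ Ioc 0 (0 + N * N), cc (fun _ => 1) N m * χ (m : ZMod r)‖ ^ 2 := by
    intro χ
    rw [← hI, ← sq_expand, norm_pow]
    simp only [one_mul]
    ring
  rw [sum_congr rfl fun χ _ => hsq χ]
  refine (mean_value r 0 (N * N) _).trans ?_
  have hb : ∀ m ∈ Ioc 0 (0 + N * N), ‖cc (fun _ => 1) N m‖ ^ 2 ≤ T ^ 2 := by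
    intro m hm
    rw [mem_Ioc, zero_add] at hm
    have h1 := norm_cc_le (fun _ => 1) N m (by omega) 1 (fun a _ b _ _ => by simp) (by norm_num)
    rw [mul_one] at h1
    refine pow_le_pow_left₀ (norm_nonneg _) (h1.trans (hT m ?_)) 2
    rw [mem_Icc]
    refine ⟨hm.1, hm.2.trans (hN.trans ?_)⟩
    exact Nat.le_mul_of_pos_left r hr
  calc (((N * N : ℕ) : ℝ) + r) * ∑ m ∈ Ioc 0 (0 + N * N), ‖cc (fun _ => 1) N m‖ ^ 2
      ≤ (((N * N : ℕ) : ℝ) + r) * ∑ m ∈ Ioc 0 (0 + N * N), T ^ 2 :=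
        mul_le_mul_of_nonneg_left (sum_le_sum hb) (by positivity)
    _ = (((N * N : ℕ) : ℝ) + r) * ((N : ℝ) ^ 2 * T ^ 2) := by
        rw [sum_const, Nat.card_Ioc, nsmul_eq_mul, Nat.sub_zero, zero_add]
        push_cast
        ring
    _ ≤ (r + r) * ((N : ℝ) ^ 2 * T ^ 2) := by
        refine mul_le_mul_of_nonneg_right ?_ (by positivity)
        have : ((N * N : ℕ) : ℝ) ≤ r := by exact_mod_cast hN
        linarith
    _ = _ := by ring

/-- the sum over residue classes, split into small positive and negative representatives -/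
private lemma sum_split (r : ℕ) [NeZero r] (F : ZMod r → ℂ) (h0 : F 0 = 0) :
    ∑ b, F b = ∑ h ∈ Icc 1 r, (if h ≤ r / 2 then F (h : ZMod r) else 0) +
      ∑ h ∈ Icc 1 r, (if h ≤ (r - 1) / 2 then F (-(h : ZMod r)) else 0) := by
  have hr : 0 < r := Nat.pos_of_ne_zero (NeZero.ne r)
  have e0 : ∑ b, F b = ∑ j ∈ range r, F (j : ZMod r) := by
    symm
    refine Finset.sum_nbij' (fun j => (j : ZMod r)) (fun n => n.val) ?_ ?_ ?_ ?_ ?_
    · intro j _; simp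
    · intro n _; simpa using ZMod.val_lt n
    · intro j hj; simpa using ZMod.val_cast_of_lt (mem_range.1 hj)
    · intro n _; simp
    · intro j _; rfl
  have e1 : range r = insert 0 (Icc 1 (r / 2) ∪ Icc (r / 2 + 1) (r - 1)) := by
    ext n
    simp only [mem_range, mem_insert, mem_union, mem_Icc]
    omega
  have e2 : (0 : ℕ) ∉ Icc 1 (r / 2) ∪ Icc (r / 2 + 1) (r - 1) := by
    simp only [mem_union, mem_Icc]
    omega
  have e3 : Disjoint (Icc 1 (r / 2)) (Icc (r / 2 + 1) (r - 1)) := by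
    rw [disjoint_left]
    intro n hn hn'
    rw [mem_Icc] at hn hn'
    omega
  rw [e0, e1, sum_insert e2, sum_union e3, Nat.cast_zero, h0, zero_add]
  congr 1
  · rw [← sum_filter]
    refine sum_congr ?_ fun _ _ => rfl
    ext n
    simp only [mem_Icc, mem_filter]
    omega
  · rw [← sum_filter]
    refine sum_nbij' (fun n => r - n) (fun n => r - n) ?_ ?_ ?_ ?_ ?_
    · intro n hn
      simp only [mem_Icc, mem_filter] at hn ⊢
      omega
    · intro n hn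
      simp only [mem_Icc, mem_filter] at hn ⊢
      omega
    · intro n hn
      simp only [mem_Icc] at hn
      omega
    · intro n hn
      simp only [mem_Icc, mem_filter] at hn
      omega
    · intro n hn
      rw [mem_Icc] at hn
      congr 1
      rw [Nat.cast_sub (by omega), ZMod.natCast_self, zero_sub, neg_neg]

private lemma dsum_le (r N h : ℕ) [NeZero r] (h1 : 1 ≤ h) (h2 : h ≤ r / 2) :
    ‖∑ n ∈ Icc 1 N, ZMod.stdAddChar ((n : ZMod r) * (h : ZMod r))‖ ≤ N ∧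
    ‖∑ n ∈ Icc 1 N, ZMod.stdAddChar ((n : ZMod r) * (h : ZMod r))‖ ≤ r / h := by
  have hr : 0 < r := Nat.pos_of_ne_zero (NeZero.ne r)
  have hrR : (0 : ℝ) < r := by exact_mod_cast hr
  have hhR : (0 : ℝ) < h := by exact_mod_cast h1
  have e1 : ∑ n ∈ Icc 1 N, ZMod.stdAddChar ((n : ZMod r) * (h : ZMod r)) =
      e ((h : ℝ) / r) * ∑ k ∈ range N, e (k * ((h : ℝ) / r)) := by
    have h3 : ∑ n ∈ Icc 1 N, ZMod.stdAddChar ((n : ZMod r) * (h : ZMod r)) =
        ∑ k ∈ range N, ZMod.stdAddChar (((k + 1 : ℕ) : ZMod r) * (h : ZMod r)) := by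
      symm
      refine sum_nbij' (fun k => k + 1) (fun n => n - 1) ?_ ?_ ?_ ?_ ?_
      · intro k hk
        rw [mem_range] at hk
        rw [mem_Icc]
        omega
      · intro k hk
        rw [mem_Icc] at hk
        rw [mem_range]
        omega
      · intro k _
        simp
      · intro k hk
        rw [mem_Icc] at hk
        omega
      · intro k _
        rfl
    rw [h3, mul_sum]
    refine sum_congr rfl fun k _ => ?_
    rw [← gaussLS_e, ← add_e_add]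
    congr 1
    push_cast
    ring
  have e2 : ‖∑ n ∈ Icc 1 N, ZMod.stdAddChar ((n : ZMod r) * (h : ZMod r))‖ ≤
      gm N ((h : ℝ) / r) := by
    rw [e1, norm_mul, add_norm_e, one_mul]
    exact geom_le N _
  refine ⟨e2.trans (gm_le (by positivity) _), e2.trans ?_⟩
  have hβ : (h : ℝ) / r ≤ 1 / 2 := by
    rw [div_le_div_iff₀ hrR (by norm_num)]
    have : h * 2 ≤ 1 * r := by omega
    exact_mod_cast this
  have hβ0 : 0 < (h : ℝ) / r := by positivity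
  have h3 : (h : ℝ) / r ≤ |(h : ℝ) / r - round ((h : ℝ) / r)| := by
    rcases lt_or_ge ((round ((h : ℝ) / r) : ℤ)) 1 with h4 | h4
    · have h5 : ((round ((h : ℝ) / r) : ℤ) : ℝ) ≤ 0 := by
        exact_mod_cast (by omega : (round ((h : ℝ) / r) : ℤ) ≤ 0)
      rw [le_abs]
      left
      linarith
    · have h5 : (1 : ℝ) ≤ ((round ((h : ℝ) / r) : ℤ) : ℝ) := by exact_mod_cast h4
      rw [le_abs]
      right
      linarith
  refine (gm_le_of_dist (by positivity) hβ0 h3).trans ?_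
  rw [div_le_div_iff₀ (by positivity) hhR]
  rw [one_mul]
  have : (r : ℝ) * (2 * (h / r)) = 2 * h := by
    field_simp
  rw [this]
  linarith

private lemma four_primitive (r N : ℕ) [NeZero r] (hr2 : 2 ≤ r) (hN : r < N * N) (hNr : N ≤ r)
    (T : ℝ) (hT : ∀ m ∈ Icc 1 (r * r), (m.divisors.card : ℝ) ≤ T) :
    ∑ χ ∈ prim r, ‖∑ n ∈ Icc 1 N, χ (n : ZMod r)‖ ^ 4 ≤
      128 * T ^ 2 * (1 + Real.log r) ^ 2 * (r * (N : ℝ) ^ 2) := by
  have hr : 0 < r := Nat.pos_of_ne_zero (NeZero.ne r)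
  have hrR : (0 : ℝ) < r := by exact_mod_cast hr
  have hT0 : 0 ≤ T := le_trans (by positivity) (hT 1 (mem_Icc.2 ⟨le_rfl, Nat.mul_pos hr hr⟩))
  have hlog : 0 ≤ Real.log r := Real.log_natCast_nonneg r
  set D : ZMod r → ℂ := fun b => ∑ n ∈ Icc 1 N, ZMod.stdAddChar ((n : ZMod r) * b) with hD
  set f1 : ℕ → ℂ := fun h => if h ≤ r / 2 then D (h : ZMod r) else 0 with hf1
  set f2 : ℕ → ℂ := fun h => if h ≤ (r - 1) / 2 then D (-(h : ZMod r)) else 0 with hf2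
  have hDneg : ∀ b : ZMod r, ‖D (-b)‖ = ‖D b‖ := by
    intro b
    have : D (-b) = (starRingEnd ℂ) (D b) := by
      rw [hD]
      simp only
      rw [map_sum]
      refine sum_congr rfl fun n _ => ?_
      rw [gaussLS_conj]
      congr 1
      ring
    rw [this, RCLike.norm_conj]
  have n1 : ∀ h ∈ Icc 1 r, ‖f1 h‖ ≤ N ∧ ‖f1 h‖ ≤ r / h := by
    intro h hh
    rw [mem_Icc] at hh
    rw [hf1]
    simp only
    split_ifs with h3
    · exact dsum_le r N h hh.1 h3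
    · rw [norm_zero]
      exact ⟨by positivity, by positivity⟩
  have n2 : ∀ h ∈ Icc 1 r, ‖f2 h‖ ≤ N ∧ ‖f2 h‖ ≤ r / h := by
    intro h hh
    rw [mem_Icc] at hh
    rw [hf2]
    simp only
    split_ifs with h3
    · rw [hDneg]
      exact dsum_le r N h hh.1 (by omega)
    · rw [norm_zero]
      exact ⟨by positivity, by positivity⟩
  have key : ∀ χ ∈ prim r, (r : ℝ) ^ 2 * ‖∑ n ∈ Icc 1 N, χ (n : ZMod r)‖ ^ 4 ≤
      8 * ‖∑ h ∈ Icc 1 r, f1 h * χ⁻¹ (h : ZMod r)‖ ^ 4 +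
        8 * ‖∑ h ∈ Icc 1 r, f2 h * χ⁻¹ (h : ZMod r)‖ ^ 4 := by
    intro χ hχ
    have hp : χ.IsPrimitive := by
      simpa [prim] using hχ
    have hp' : (χ⁻¹).IsPrimitive := by
      rw [DirichletCharacter.isPrimitive_def, DirichletCharacter.conductor_inv]
      exact hp
    have e1 : ∀ n : ZMod r, ∑ b, χ⁻¹ b * ZMod.stdAddChar (n * b) =
        χ n * gaussSum χ⁻¹ (ZMod.stdAddChar (N := r)) := by
      intro n
      have h := gaussSum_mulShift_of_isPrimitive (ZMod.stdAddChar (N := r)) hp' n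
      rw [inv_inv] at h
      rw [← h]
      simp [gaussSum, AddChar.mulShift_apply]
    have e2 : (∑ n ∈ Icc 1 N, χ (n : ZMod r)) * gaussSum χ⁻¹ (ZMod.stdAddChar (N := r)) =
        ∑ b, χ⁻¹ b * D b := by
      have e2' : ∀ n ∈ Icc 1 N, χ (n : ZMod r) * gaussSum χ⁻¹ (ZMod.stdAddChar (N := r)) =
          ∑ b, χ⁻¹ b * ZMod.stdAddChar ((n : ZMod r) * b) := fun n _ => (e1 (n : ZMod r)).symm
      rw [sum_mul, sum_congr rfl e2', sum_comm]
      refine sum_congr rfl fun b _ => ?_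
      rw [hD, mul_sum]
    have hz : χ⁻¹ (0 : ZMod r) = 0 := by
      apply MulChar.map_nonunit
      intro hu
      have : Fact (1 < r) := ⟨by omega⟩
      exact not_isUnit_zero hu
    have e3 : ∑ b, χ⁻¹ b * D b = ∑ h ∈ Icc 1 r, f1 h * χ⁻¹ (h : ZMod r) +
        χ⁻¹ (-1) * ∑ h ∈ Icc 1 r, f2 h * χ⁻¹ (h : ZMod r) := by
      rw [sum_split r (fun b => χ⁻¹ b * D b) (by simp only [hz, zero_mul])]
      congr 1
      · refine sum_congr rfl fun h _ => ?_
        rw [hf1]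
        simp only
        split_ifs
        · ring
        · simp
      · rw [mul_sum]
        refine sum_congr rfl fun h _ => ?_
        rw [hf2]
        simp only
        split_ifs
        · rw [show (-(h : ZMod r)) = (-1) * (h : ZMod r) by ring, map_mul]
          ring
        · simp
    have e4 : ‖χ⁻¹ (-1 : ZMod r)‖ ≤ 1 := DirichletCharacter.norm_le_one _ _
    have e5 : ‖(∑ n ∈ Icc 1 N, χ (n : ZMod r)) * gaussSum χ⁻¹ (ZMod.stdAddChar (N := r))‖ ≤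
        ‖∑ h ∈ Icc 1 r, f1 h * χ⁻¹ (h : ZMod r)‖ +
          ‖∑ h ∈ Icc 1 r, f2 h * χ⁻¹ (h : ZMod r)‖ := by
      rw [e2, e3]
      refine (norm_add_le _ _).trans (add_le_add le_rfl ?_)
      rw [norm_mul]
      exact mul_le_of_le_one_left (norm_nonneg _) e4
    have e6 := pow_le_pow_left₀ (norm_nonneg _) e5 4
    have e7 : ‖(∑ n ∈ Icc 1 N, χ (n : ZMod r)) * gaussSum χ⁻¹ (ZMod.stdAddChar (N := r))‖ ^ 4 =
        (r : ℝ) ^ 2 * ‖∑ n ∈ Icc 1 N, χ (n : ZMod r)‖ ^ 4 := by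
      rw [norm_mul, mul_pow]
      have := norm_gaussSum_sq _ hp'
      have h4 : ‖gaussSum χ⁻¹ (ZMod.stdAddChar (N := r))‖ ^ 4 = (r : ℝ) ^ 2 := by
        rw [← this]
        ring
      rw [h4]
      ring
    rw [e7] at e6
    refine e6.trans ?_
    set a := ‖∑ h ∈ Icc 1 r, f1 h * χ⁻¹ (h : ZMod r)‖
    set b := ‖∑ h ∈ Icc 1 r, f2 h * χ⁻¹ (h : ZMod r)‖
    have h8 : (a + b) ^ 2 ≤ 2 * (a ^ 2 + b ^ 2) := by nlinarith [sq_nonneg (a - b)]
    have h9 : ((a + b) ^ 2) ^ 2 ≤ (2 * (a ^ 2 + b ^ 2)) ^ 2 :=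
      pow_le_pow_left₀ (by positivity) h8 2
    have h10 : (a ^ 2 + b ^ 2) ^ 2 ≤ 2 * (a ^ 4 + b ^ 4) := by
      nlinarith [sq_nonneg (a ^ 2 - b ^ 2)]
    nlinarith
  have hinv : ∀ f : ℕ → ℂ, ∑ χ ∈ prim r, ‖∑ h ∈ Icc 1 r, f h * χ⁻¹ (h : ZMod r)‖ ^ 4 ≤
      ∑ χ : DirichletCharacter ℂ r, ‖∑ h ∈ Icc 1 r, f h * χ (h : ZMod r)‖ ^ 4 := by
    intro f
    calc _ ≤ ∑ χ : DirichletCharacter ℂ r, ‖∑ h ∈ Icc 1 r, f h * χ⁻¹ (h : ZMod r)‖ ^ 4 :=
          sum_le_sum_of_subset_of_nonneg (subset_univ _) (fun _ _ _ => by positivity)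
      _ = _ := Equiv.sum_comp (Equiv.inv (DirichletCharacter ℂ r))
          (fun χ => ‖∑ h ∈ Icc 1 r, f h * χ (h : ZMod r)‖ ^ 4)
  have d1 := (hinv f1).trans (four_dual r N T (by positivity) hT f1 (fun h hh => (n1 h hh).1)
    (fun h hh => (n1 h hh).2))
  have d2 := (hinv f2).trans (four_dual r N T (by positivity) hT f2 (fun h hh => (n2 h hh).1)
    (fun h hh => (n2 h hh).2))
  have h3 : (r : ℝ) ^ 2 * ∑ χ ∈ prim r, ‖∑ n ∈ Icc 1 N, χ (n : ZMod r)‖ ^ 4 ≤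
      8 * (4 * T ^ 2 * (1 + Real.log r) ^ 2 * ((r : ℝ) ^ 3 * (N : ℝ) ^ 2 + (r : ℝ) ^ 4)) +
      8 * (4 * T ^ 2 * (1 + Real.log r) ^ 2 * ((r : ℝ) ^ 3 * (N : ℝ) ^ 2 + (r : ℝ) ^ 4)) := by
    rw [mul_sum]
    refine (sum_le_sum key).trans ?_
    rw [sum_add_distrib, ← mul_sum, ← mul_sum]
    linarith
  have h4 : (r : ℝ) ≤ (N : ℝ) ^ 2 := by
    have : r ≤ N ^ 2 := by
      rw [sq]
      exact hN.le
    exact_mod_cast this
  have h5 : (r : ℝ) ^ 4 ≤ (r : ℝ) ^ 3 * (N : ℝ) ^ 2 := by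
    have : (r : ℝ) ^ 4 = (r : ℝ) ^ 3 * r := by ring
    rw [this]
    exact mul_le_mul_of_nonneg_left h4 (by positivity)
  have h6 : (r : ℝ) ^ 2 * ∑ χ ∈ prim r, ‖∑ n ∈ Icc 1 N, χ (n : ZMod r)‖ ^ 4 ≤
      (r : ℝ) ^ 2 * (128 * T ^ 2 * (1 + Real.log r) ^ 2 * (r * (N : ℝ) ^ 2)) := by
    refine h3.trans ?_
    have h7 : 4 * T ^ 2 * (1 + Real.log r) ^ 2 * ((r : ℝ) ^ 3 * (N : ℝ) ^ 2 + (r : ℝ) ^ 4) ≤
        4 * T ^ 2 * (1 + Real.log r) ^ 2 * (2 * ((r : ℝ) ^ 3 * (N : ℝ) ^ 2)) :=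
      mul_le_mul_of_nonneg_left (by linarith) (by positivity)
    refine (add_le_add (mul_le_mul_of_nonneg_left h7 (by norm_num))
      (mul_le_mul_of_nonneg_left h7 (by norm_num))).trans (le_of_eq ?_)
    ring
  exact le_of_mul_le_mul_left h6 (by positivity)

private lemma period {r : ℕ} [NeZero r] (χ : DirichletCharacter ℂ r) (hχ : χ ≠ 1) (N : ℕ) :
    ∑ n ∈ Icc 1 N, χ (n : ZMod r) = ∑ n ∈ Icc 1 (N % r), χ (n : ZMod r) := by
  rw [char_sum_tail χ hχ N]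
  symm
  refine sum_nbij' (fun n => n + r * (N / r)) (fun n => n - r * (N / r)) ?_ ?_ ?_ ?_ ?_
  · intro n hn
    rw [mem_Icc] at hn
    rw [mem_Ioc]
    omega
  · intro n hn
    rw [mem_Ioc] at hn
    rw [mem_Icc]
    omega
  · intro n _
    simp
  · intro n hn
    rw [mem_Ioc] at hn
    omega
  · intro n _
    push_cast
    rw [ZMod.natCast_self, zero_mul, add_zero]

private lemma four_prim_all (r N : ℕ) (hr2 : 2 ≤ r) (T : ℝ) (hT1 : 1 ≤ T)
    (hT : ∀ m ∈ Icc 1 (r * r), (m.divisors.card : ℝ) ≤ T) :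
    ∑ χ ∈ prim r, ‖∑ n ∈ Icc 1 N, χ (n : ZMod r)‖ ^ 4 ≤
      128 * T ^ 2 * (1 + Real.log r) ^ 2 * (r * (N : ℝ) ^ 2) := by
  have : NeZero r := ⟨by omega⟩
  have hr : 0 < r := by omega
  have hlog : 0 ≤ Real.log r := Real.log_natCast_nonneg r
  have hne : ∀ χ ∈ prim r, χ ≠ 1 := by
    intro χ hχ h1
    have hp : χ.IsPrimitive := by
      simpa [prim] using hχ
    rw [DirichletCharacter.isPrimitive_def, h1, DirichletCharacter.conductor_one] at hp
    omega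
  set n₀ := N % r with hn₀
  have hn₀r : n₀ ≤ r := (Nat.mod_lt N hr).le
  have hn₀N : n₀ ≤ N := Nat.mod_le N r
  have e1 : ∑ χ ∈ prim r, ‖∑ n ∈ Icc 1 N, χ (n : ZMod r)‖ ^ 4 =
      ∑ χ ∈ prim r, ‖∑ n ∈ Icc 1 n₀, χ (n : ZMod r)‖ ^ 4 := by
    refine sum_congr rfl fun χ hχ => ?_
    rw [period χ (hne χ hχ) N]
  have e2 : ∑ χ ∈ prim r, ‖∑ n ∈ Icc 1 n₀, χ (n : ZMod r)‖ ^ 4 ≤
      128 * T ^ 2 * (1 + Real.log r) ^ 2 * (r * (n₀ : ℝ) ^ 2) := by
    rcases le_or_gt (n₀ * n₀) r with h | h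
    · calc _ ≤ ∑ χ : DirichletCharacter ℂ r, ‖∑ n ∈ Icc 1 n₀, χ (n : ZMod r)‖ ^ 4 :=
            sum_le_sum_of_subset_of_nonneg (subset_univ _) (fun _ _ _ => by positivity)
        _ ≤ 2 * T ^ 2 * r * (n₀ : ℝ) ^ 2 := four_short r n₀ h T hT
        _ = 2 * T ^ 2 * 1 * (r * (n₀ : ℝ) ^ 2) := by ring
        _ ≤ 128 * T ^ 2 * (1 + Real.log r) ^ 2 * (r * (n₀ : ℝ) ^ 2) := by
            refine mul_le_mul_of_nonneg_right ?_ (by positivity)
            have h1 : (1 : ℝ) ≤ (1 + Real.log r) ^ 2 := one_le_pow₀ (by linarith)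
            have h2 : 2 * T ^ 2 ≤ 128 * T ^ 2 := by nlinarith [sq_nonneg T]
            exact mul_le_mul h2 h1 (by norm_num) (by positivity)
    · exact four_primitive r n₀ hr2 h hn₀r T hT
  rw [e1]
  refine e2.trans ?_
  have h1 : (n₀ : ℝ) ≤ N := by exact_mod_cast hn₀N
  have h2 : (n₀ : ℝ) ^ 2 ≤ (N : ℝ) ^ 2 := pow_le_pow_left₀ (by positivity) h1 2
  refine mul_le_mul_of_nonneg_left ?_ (by positivity)
  exact mul_le_mul_of_nonneg_left h2 (by positivity)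

/-- the primitive characters mod `r`, `r ≥ 2` -/
theorem fourth_prim (δ : ℝ) (hδ : 0 < δ) : ∃ C : ℝ, 0 < C ∧ ∀ r : ℕ, 2 ≤ r → ∀ N : ℕ,
    ∑ χ ∈ prim r, ‖∑ n ∈ Icc 1 N, χ (n : ZMod r)‖ ^ 4 ≤
      C * (r : ℝ) ^ (1 + δ) * (N : ℝ) ^ 2 := by
  obtain ⟨C₁, hC₁, hC₁'⟩ := Pool.Agent.Work.MP_aac176_nt.divisor_bound (δ / 8) (by positivity)
  refine ⟨128 * C₁ ^ 2 * (1 + 4 / δ) ^ 2, by positivity, ?_⟩
  intro r hr N
  have hrR : (1 : ℝ) ≤ r := by exact_mod_cast (by omega : 1 ≤ r)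
  have hr0 : (0 : ℝ) < r := by linarith
  have hlog : 0 ≤ Real.log r := Real.log_natCast_nonneg r
  set T : ℝ := C₁ * (r : ℝ) ^ (δ / 4) with hTdef
  have hrp : (1 : ℝ) ≤ (r : ℝ) ^ (δ / 4) := Real.one_le_rpow hrR (by positivity)
  have hT1 : 1 ≤ T := by
    rw [hTdef]
    nlinarith
  have hT : ∀ m ∈ Icc 1 (r * r), (m.divisors.card : ℝ) ≤ T := by
    intro m hm
    rw [mem_Icc] at hm
    refine (hC₁' m (by omega)).trans ?_
    refine mul_le_mul_of_nonneg_left ?_ (by linarith)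
    have h1 : (m : ℝ) ≤ (r : ℝ) ^ (2 : ℝ) := by
      have : m ≤ r ^ 2 := by
        rw [sq]
        exact hm.2
      have h2 : (m : ℝ) ≤ (r : ℝ) ^ 2 := by exact_mod_cast this
      rwa [← Real.rpow_natCast, Nat.cast_ofNat] at h2
    calc (m : ℝ) ^ (δ / 8) ≤ ((r : ℝ) ^ (2 : ℝ)) ^ (δ / 8) :=
          Real.rpow_le_rpow (by positivity) h1 (by positivity)
      _ = (r : ℝ) ^ (δ / 4) := by
          rw [← Real.rpow_mul hr0.le]
          congr 1
          ring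
  refine (four_prim_all r N hr T hT1 hT).trans ?_
  have h3 : 1 + Real.log r ≤ (1 + 4 / δ) * (r : ℝ) ^ (δ / 4) := by
    have h4 := Real.log_le_rpow_div hr0.le (show 0 < δ / 4 by positivity)
    have h5 : (r : ℝ) ^ (δ / 4) / (δ / 4) = 4 / δ * (r : ℝ) ^ (δ / 4) := by
      field_simp
    rw [h5] at h4
    linarith
  have h6 : (1 + Real.log r) ^ 2 ≤ ((1 + 4 / δ) * (r : ℝ) ^ (δ / 4)) ^ 2 :=
    pow_le_pow_left₀ (by linarith) h3 2
  have h7 : (r : ℝ) ^ (1 + δ) = r * ((r : ℝ) ^ (δ / 4)) ^ 4 := by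
    rw [Real.rpow_add hr0, Real.rpow_one, ← Real.rpow_natCast ((r : ℝ) ^ (δ / 4)) 4,
      ← Real.rpow_mul hr0.le]
    congr 2
    push_cast
    ring
  calc 128 * T ^ 2 * (1 + Real.log r) ^ 2 * (r * (N : ℝ) ^ 2)
      ≤ 128 * T ^ 2 * ((1 + 4 / δ) * (r : ℝ) ^ (δ / 4)) ^ 2 * (r * (N : ℝ) ^ 2) := by
        refine mul_le_mul_of_nonneg_right ?_ (by positivity)
        exact mul_le_mul_of_nonneg_left h6 (by positivity)
    _ = 128 * C₁ ^ 2 * (1 + 4 / δ) ^ 2 * (r : ℝ) ^ (1 + δ) * (N : ℝ) ^ 2 := by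
        rw [h7, hTdef]
        ring

/-! ### imprimitive characters -/

/-- Möbius inversion -/
theorem imprim_sum {k : ℕ} [NeZero k] (χ : DirichletCharacter ℂ k) (N : ℕ) :
    ∑ n ∈ Icc 1 N, χ (n : ZMod k) = ∑ d ∈ k.divisors,
      ((μ d : ℤ) : ℂ) * χ.primitiveCharacter (d : ZMod χ.conductor) *
        ∑ m ∈ Icc 1 (N / d), χ.primitiveCharacter (m : ZMod χ.conductor) := by
  have hk : k ≠ 0 := NeZero.ne k
  have h1 : ∀ n ∈ Icc 1 N, χ (n : ZMod k) = ∑ d ∈ k.divisors,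
      if d ∣ n then ((μ d : ℤ) : ℂ) * χ.primitiveCharacter (n : ZMod χ.conductor) else 0 := by
    intro n hn
    rw [← sum_filter, ← sum_mul]
    have e1 : k.divisors.filter (fun d => d ∣ n) = (n.gcd k).divisors := by
      ext d
      rw [mem_filter, Nat.mem_divisors, Nat.mem_divisors]
      constructor
      · rintro ⟨⟨h2, _⟩, h3⟩
        exact ⟨Nat.dvd_gcd h3 h2, Nat.gcd_ne_zero_right hk⟩
      · rintro ⟨h2, _⟩
        exact ⟨⟨h2.trans (Nat.gcd_dvd_right n k), hk⟩, h2.trans (Nat.gcd_dvd_left n k)⟩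
    rw [e1, Ram.mu_sum]
    by_cases hc : n.Coprime k
    · have h2 : IsCoprime (n : ℤ) (k : ℤ) := Nat.isCoprime_iff_coprime.2 hc
      have h3 := DirichletCharacter.primitiveCharacter_apply_of_isCoprime χ h2
      push_cast at h3
      rw [if_pos hc, one_mul, h3]
    · rw [if_neg hc, zero_mul]
      apply MulChar.map_nonunit
      rwa [ZMod.isUnit_iff_coprime]
  rw [sum_congr rfl h1, sum_comm]
  refine sum_congr rfl fun d hd => ?_
  have hd0 : 0 < d := Nat.pos_of_mem_divisors hd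
  rw [← sum_filter, mul_sum]
  symm
  refine sum_nbij' (fun m => d * m) (fun n => n / d) ?_ ?_ ?_ ?_ ?_
  · intro m hm
    rw [mem_Icc] at hm
    rw [mem_filter, mem_Icc]
    refine ⟨⟨Nat.mul_pos hd0 hm.1, ?_⟩, dvd_mul_right d m⟩
    calc d * m ≤ d * (N / d) := Nat.mul_le_mul_left d hm.2
      _ ≤ N := Nat.mul_div_le N d
  · intro n hn
    rw [mem_filter, mem_Icc] at hn
    rw [mem_Icc]
    exact ⟨Nat.div_pos (Nat.le_of_dvd hn.1.1 hn.2) hd0, Nat.div_le_div_right hn.1.2⟩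
  · intro m _
    exact Nat.mul_div_cancel_left m hd0
  · intro n hn
    rw [mem_filter] at hn
    exact Nat.mul_div_cancel' hn.2
  · intro m _
    push_cast
    rw [map_mul]
    ring

/-- a sum over the characters mod `k`, except the principal one, of a function of the associated
primitive character -/
theorem sum_chars_gen (k : ℕ) [NeZero k] (F : ∀ r : ℕ, DirichletCharacter ℂ r → ℝ)
    (hF : ∀ r χ, 0 ≤ F r χ) :
    ∑ χ ∈ (univ : Finset (DirichletCharacter ℂ k)).erase 1, F χ.conductor χ.primitiveCharacter ≤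
      ∑ r ∈ k.divisors.erase 1, ∑ χ ∈ prim r, F r χ := by
  classical
  rw [← sum_sigma (k.divisors.erase 1) (fun r => prim r)
    (fun p : (Σ r : ℕ, DirichletCharacter ℂ r) => F p.1 p.2)]
  set Φ : DirichletCharacter ℂ k → (Σ r : ℕ, DirichletCharacter ℂ r) :=
    fun χ => ⟨χ.conductor, χ.primitiveCharacter⟩ with hΦ
  have hinj : Function.Injective Φ := by
    have hleft : ∀ χ : DirichletCharacter ℂ k,
        (fun p : (Σ r : ℕ, DirichletCharacter ℂ r) =>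
          if h : p.1 ∣ k then DirichletCharacter.changeLevel h p.2 else 1) (Φ χ) = χ := by
      intro χ
      simp only [hΦ, χ.conductor_dvd_level, dif_pos]
      exact DirichletCharacter.changeLevel_primitiveCharacter χ
    intro a b hab
    rw [← hleft a, ← hleft b, hab]
  calc ∑ χ ∈ (univ : Finset (DirichletCharacter ℂ k)).erase 1,
        F χ.conductor χ.primitiveCharacter
      = ∑ p ∈ ((univ : Finset (DirichletCharacter ℂ k)).erase 1).image Φ, F p.1 p.2 := by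
        rw [sum_image (fun a _ b _ h => hinj h)]
    _ ≤ _ := by
        refine sum_le_sum_of_subset_of_nonneg ?_ (fun _ _ _ => hF _ _)
        intro p hp
        obtain ⟨χ, hχ, rfl⟩ := mem_image.1 hp
        rw [mem_sigma, mem_erase]
        refine ⟨⟨?_, ?_⟩, ?_⟩
        · intro h
          apply ne_of_mem_erase hχ
          exact DirichletCharacter.eq_one_iff_conductor_eq_one.2 h
        · exact Nat.mem_divisors.2 ⟨χ.conductor_dvd_level, NeZero.ne k⟩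
        · unfold prim
          rw [mem_filter]
          exact ⟨mem_univ _, DirichletCharacter.primitiveCharacter_isPrimitive χ⟩

open Classical in
/-- **the fourth moment** -/
theorem fourth (δ : ℝ) (hδ : 0 < δ) : ∃ C : ℝ, 0 < C ∧ ∀ (k : ℕ) [NeZero k] (N : ℕ),
    ∑ χ ∈ (univ : Finset (DirichletCharacter ℂ k)).erase 1,
        ‖∑ n ∈ Icc 1 N, χ (n : ZMod k)‖ ^ 4 ≤ C * (k : ℝ) ^ (1 + δ) * (N : ℝ) ^ 2 := by
  obtain ⟨C₁, hC₁, hC₁'⟩ := Pool.Agent.Work.MP_aac176_nt.divisor_bound (δ / 10) (by positivity)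
  obtain ⟨C₂, hC₂, hC₂'⟩ := fourth_prim (δ / 2) (by positivity)
  refine ⟨C₁ ^ 5 * C₂, by positivity, ?_⟩
  intro k _ N
  have hk : k ≠ 0 := NeZero.ne k
  have hk1 : (1 : ℝ) ≤ k := by exact_mod_cast Nat.pos_of_ne_zero hk
  have hk0 : (0 : ℝ) < k := by linarith
  set D := k.divisors with hD
  have hmu : ∀ d : ℕ, ‖((μ d : ℤ) : ℂ)‖ ≤ 1 := by
    intro b
    rw [Complex.norm_intCast]
    have := ArithmeticFunction.abs_moebius_le_one (n := b)
    exact_mod_cast this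
  have h1 : ∀ χ : DirichletCharacter ℂ k, ‖∑ n ∈ Icc 1 N, χ (n : ZMod k)‖ ^ 4 ≤
      (D.card : ℝ) ^ 3 * ∑ d ∈ D,
        ‖∑ m ∈ Icc 1 (N / d), χ.primitiveCharacter (m : ZMod χ.conductor)‖ ^ 4 := by
    intro χ
    rw [imprim_sum χ N]
    set z : ℕ → ℝ := fun d =>
      ‖∑ m ∈ Icc 1 (N / d), χ.primitiveCharacter (m : ZMod χ.conductor)‖ with hz
    have h2 : ‖∑ d ∈ D, ((μ d : ℤ) : ℂ) * χ.primitiveCharacter (d : ZMod χ.conductor) *
        ∑ m ∈ Icc 1 (N / d), χ.primitiveCharacter (m : ZMod χ.conductor)‖ ≤ ∑ d ∈ D, z d := by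
      refine (norm_sum_le _ _).trans (sum_le_sum fun d _ => ?_)
      rw [norm_mul, norm_mul]
      have h3 : ‖χ.primitiveCharacter (d : ZMod χ.conductor)‖ ≤ 1 :=
        DirichletCharacter.norm_le_one _ _
      calc _ ≤ 1 * 1 * z d := by
            refine mul_le_mul_of_nonneg_right ?_ (norm_nonneg _)
            exact mul_le_mul (hmu d) h3 (norm_nonneg _) (by norm_num)
        _ = z d := by ring
    have h4 := pow_le_pow_left₀ (norm_nonneg _) h2 4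
    refine h4.trans ?_
    have h5 : (∑ d ∈ D, z d) ^ 2 ≤ D.card * ∑ d ∈ D, z d ^ 2 := sq_sum_le_card_mul_sum_sq
    have h6 : (∑ d ∈ D, z d ^ 2) ^ 2 ≤ D.card * ∑ d ∈ D, (z d ^ 2) ^ 2 :=
      sq_sum_le_card_mul_sum_sq
    calc (∑ d ∈ D, z d) ^ 4 = ((∑ d ∈ D, z d) ^ 2) ^ 2 := by ring
      _ ≤ (D.card * ∑ d ∈ D, z d ^ 2) ^ 2 := pow_le_pow_left₀ (by positivity) h5 2
      _ = (D.card : ℝ) ^ 2 * (∑ d ∈ D, z d ^ 2) ^ 2 := by ring
      _ ≤ (D.card : ℝ) ^ 2 * (D.card * ∑ d ∈ D, (z d ^ 2) ^ 2) :=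
          mul_le_mul_of_nonneg_left h6 (by positivity)
      _ = (D.card : ℝ) ^ 3 * ∑ d ∈ D, z d ^ 4 := by
          have : ∀ d, (z d ^ 2) ^ 2 = z d ^ 4 := fun d => by ring
          simp only [this]
          ring
  have h2 : ∀ d ∈ D, ∑ χ ∈ (univ : Finset (DirichletCharacter ℂ k)).erase 1,
      ‖∑ m ∈ Icc 1 (N / d), χ.primitiveCharacter (m : ZMod χ.conductor)‖ ^ 4 ≤
      D.card * (C₂ * (k : ℝ) ^ (1 + δ / 2) * (N : ℝ) ^ 2) := by
    intro d _
    refine (sum_chars_gen k (fun r χ => ‖∑ m ∈ Icc 1 (N / d), χ (m : ZMod r)‖ ^ 4)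
      (fun _ _ => by positivity)).trans ?_
    have h3 : ∀ r ∈ D.erase 1, ∑ χ ∈ prim r, ‖∑ m ∈ Icc 1 (N / d), χ (m : ZMod r)‖ ^ 4 ≤
        C₂ * (k : ℝ) ^ (1 + δ / 2) * (N : ℝ) ^ 2 := by
      intro r hr
      rw [mem_erase, hD, Nat.mem_divisors] at hr
      have hr0 : 0 < r := Nat.pos_of_dvd_of_pos hr.2.1 (Nat.pos_of_ne_zero hk)
      have hrk : (r : ℝ) ≤ k := by exact_mod_cast Nat.le_of_dvd (Nat.pos_of_ne_zero hk) hr.2.1
      have hNd : ((N / d : ℕ) : ℝ) ≤ N := by exact_mod_cast Nat.div_le_self N d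
      refine (hC₂' r (by omega) (N / d)).trans ?_
      have g1 : (r : ℝ) ^ (1 + δ / 2) ≤ (k : ℝ) ^ (1 + δ / 2) :=
        Real.rpow_le_rpow (by positivity) hrk (by positivity)
      have g2 : ((N / d : ℕ) : ℝ) ^ 2 ≤ (N : ℝ) ^ 2 := pow_le_pow_left₀ (by positivity) hNd 2
      exact mul_le_mul (mul_le_mul_of_nonneg_left g1 hC₂.le) g2 (by positivity) (by positivity)
    refine (sum_le_sum h3).trans ?_
    rw [sum_const, nsmul_eq_mul]
    refine mul_le_mul_of_nonneg_right ?_ (by positivity)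
    exact_mod_cast card_le_card (erase_subset _ _)
  have h3 : (D.card : ℝ) ≤ C₁ * (k : ℝ) ^ (δ / 10) := hC₁' k hk
  have h4 : (D.card : ℝ) ^ 5 ≤ (C₁ * (k : ℝ) ^ (δ / 10)) ^ 5 :=
    pow_le_pow_left₀ (by positivity) h3 5
  have h5 : (C₁ * (k : ℝ) ^ (δ / 10)) ^ 5 = C₁ ^ 5 * (k : ℝ) ^ (δ / 2) := by
    rw [mul_pow, ← Real.rpow_natCast ((k : ℝ) ^ (δ / 10)) 5, ← Real.rpow_mul hk0.le]
    congr 2
    push_cast
    ring
  have h6 : (k : ℝ) ^ (1 + δ) = (k : ℝ) ^ (1 + δ / 2) * (k : ℝ) ^ (δ / 2) := by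
    rw [← Real.rpow_add hk0]
    congr 1
    ring
  calc ∑ χ ∈ (univ : Finset (DirichletCharacter ℂ k)).erase 1,
        ‖∑ n ∈ Icc 1 N, χ (n : ZMod k)‖ ^ 4
      ≤ ∑ χ ∈ (univ : Finset (DirichletCharacter ℂ k)).erase 1, (D.card : ℝ) ^ 3 * ∑ d ∈ D,
        ‖∑ m ∈ Icc 1 (N / d), χ.primitiveCharacter (m : ZMod χ.conductor)‖ ^ 4 :=
        sum_le_sum fun χ _ => h1 χ
    _ = (D.card : ℝ) ^ 3 * ∑ d ∈ D, ∑ χ ∈ (univ : Finset (DirichletCharacter ℂ k)).erase 1,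
        ‖∑ m ∈ Icc 1 (N / d), χ.primitiveCharacter (m : ZMod χ.conductor)‖ ^ 4 := by
        rw [← mul_sum, sum_comm]
    _ ≤ (D.card : ℝ) ^ 3 * ∑ d ∈ D, D.card * (C₂ * (k : ℝ) ^ (1 + δ / 2) * (N : ℝ) ^ 2) :=
        mul_le_mul_of_nonneg_left (sum_le_sum h2) (by positivity)
    _ = (D.card : ℝ) ^ 5 * (C₂ * (k : ℝ) ^ (1 + δ / 2) * (N : ℝ) ^ 2) := by
        rw [sum_const, nsmul_eq_mul]
        ring
    _ ≤ (C₁ ^ 5 * (k : ℝ) ^ (δ / 2)) * (C₂ * (k : ℝ) ^ (1 + δ / 2) * (N : ℝ) ^ 2) := by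
        rw [← h5]
        exact mul_le_mul_of_nonneg_right h4 (by positivity)
    _ = _ := by
        rw [h6]
        ring

end Pool.Agent.HT
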