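import Pool.Agent.Work.MP_92f640_nt.HT.Coef
import Pool.Agent.Work.MP_92f640_nt.HL.MeanV
import Pool.Agent.Work.MP_aac176_nt.Div
import Pool.Agent.Work.BV.GaussLS

/-! # Module FourthPrim: fourth moment for primitive characters

`N² ≤ r`: the square is `∑_{m ≤ N²} c_m χ(m)`, `|c_m| ≤ τ(m)`, `mean_value` with length `N² ≤ r`
(`direct_fourth`). `N² > r`: `χ(n) = τ(χ⁻¹)⁻¹ ∑_h χ⁻¹(h) e(n h/r)` (primitive, `|τ(χ⁻¹)| = √r`),
`G(h) = ∑_{n ≤ N} e(n h/r)`, `|G(h)| ≤ min N (r/(2h))` for `1 ≤ h ≤ r/2`, the part `h > r/2` is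
`χ⁻¹(-1) ∑_{h < r/2} χ⁻¹(h) G(-h)` (`prim_dual`). The square of `∑_{h ≤ r/2} χ(h) G(h)` is
`∑_{m ≤ r²} c_m χ(m)`, `|c_m| ≤ τ(m) min (N²) (r²/m)`. Blocks `m ∈ (j r, (j+1) r]`: `mean_value` in
each block, Cauchy over the blocks with the weights `j + 1` (`block_mean`, `fourth_dual`). -/

namespace Pool.Agent.HT

open Finset Pool.Agent.BV Pool.Agent.HL
open scoped ArithmeticFunction.Moebius

namespace FourthPrim

/-- coefficients of the square of a character sum -/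
noncomputable def sqc (M : ℕ) (g : ℕ → ℂ) (m : ℕ) : ℂ :=
  ∑ p ∈ (Icc 1 M ×ˢ Icc 1 M).filter (fun p => p.1 * p.2 = m), g p.1 * g p.2

lemma sq_char {k : ℕ} (χ : DirichletCharacter ℂ k) (M : ℕ) (g : ℕ → ℂ) (K : ℕ) (hK : M * M ≤ K) :
    (∑ h ∈ Icc 1 M, g h * χ (h : ZMod k)) ^ 2 = ∑ m ∈ Ioc 0 K, sqc M g m * χ (m : ZMod k) := by
  rw [sq, sum_mul_sum, ← sum_product']
  rw [← sum_fiberwise_of_maps_to (s := Icc 1 M ×ˢ Icc 1 M) (t := Ioc 0 K)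
    (g := fun p => p.1 * p.2)]
  · refine sum_congr rfl fun m _ => ?_
    rw [sqc, sum_mul]
    refine sum_congr rfl fun p hp => ?_
    rw [← (mem_filter.1 hp).2, Nat.cast_mul, map_mul]
    ring
  · intro p hp
    rw [mem_product, mem_Icc, mem_Icc] at hp
    rw [mem_Ioc]
    exact ⟨Nat.mul_pos hp.1.1 hp.2.1, (Nat.mul_le_mul hp.1.2 hp.2.2).trans hK⟩

lemma sqc_card (M m : ℕ) (hm : m ≠ 0) :
    ((Icc 1 M ×ˢ Icc 1 M).filter (fun p => p.1 * p.2 = m)).card ≤ m.divisors.card := by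
  refine card_le_card_of_injOn (fun p => p.1) ?_ ?_
  · intro p hp
    have h := (mem_filter.1 (mem_coe.1 hp)).2
    exact mem_coe.2 (Nat.mem_divisors.2 ⟨⟨p.2, h.symm⟩, hm⟩)
  · intro p hp p' hp' h
    have h1 := (mem_filter.1 (mem_coe.1 hp)).2
    have h2 := (mem_filter.1 (mem_coe.1 hp')).2
    simp only at h
    have h3 : p.1 ≠ 0 := by
      rintro h0
      rw [h0, zero_mul] at h1
      exact hm h1.symm
    refine Prod.ext h ?_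
    rw [h] at h1 h3
    exact Nat.eq_of_mul_eq_mul_left (Nat.pos_of_ne_zero h3) (h1.trans h2.symm)

lemma sqc_le (M : ℕ) (g : ℕ → ℂ) (m : ℕ) (hm : m ≠ 0) (B : ℝ)
    (h : ∀ a ∈ Icc 1 M, ∀ b ∈ Icc 1 M, a * b = m → ‖g a‖ * ‖g b‖ ≤ B) (hB : 0 ≤ B) :
    ‖sqc M g m‖ ≤ m.divisors.card * B := by
  refine (norm_sum_le _ _).trans ?_
  have h1 : ∀ p ∈ (Icc 1 M ×ˢ Icc 1 M).filter (fun p => p.1 * p.2 = m), ‖g p.1 * g p.2‖ ≤ B := by
    intro p hp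
    rw [norm_mul]
    have h2 := mem_filter.1 hp
    have h3 := mem_product.1 h2.1
    exact h _ h3.1 _ h3.2 h2.2
  refine (sum_le_sum h1).trans ?_
  rw [sum_const, nsmul_eq_mul]
  have h4 := sqc_card M m hm
  exact mul_le_mul_of_nonneg_right (by exact_mod_cast h4) hB

lemma ioc_blocks (k J : ℕ) (f : ℕ → ℂ) :
    ∑ m ∈ Ioc 0 (k * J), f m = ∑ j ∈ range J, ∑ m ∈ Ioc (k * j) (k * j + k), f m := by
  induction J with
  | zero => simp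
  | succ J ih =>
    rw [sum_range_succ, ← ih, Nat.mul_succ, Finset.sum_Ioc_consecutive _ (Nat.zero_le _) (by omega)]

/-- the mean value theorem in blocks of length `k` -/
lemma block_mean (k : ℕ) [NeZero k] (J : ℕ) (c : ℕ → ℂ) :
    ∑ χ : DirichletCharacter ℂ k, ‖∑ m ∈ Ioc 0 (k * J), c m * χ (m : ZMod k)‖ ^ 2 ≤
      (∑ j ∈ range J, ((j : ℝ) + 1)⁻¹) *
        ∑ j ∈ range J, ((j : ℝ) + 1) * (2 * k * ∑ m ∈ Ioc (k * j) (k * j + k), ‖c m‖ ^ 2) := by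
  have h1 : ∀ χ : DirichletCharacter ℂ k, ‖∑ m ∈ Ioc 0 (k * J), c m * χ (m : ZMod k)‖ ^ 2 ≤
      (∑ j ∈ range J, ((j : ℝ) + 1)⁻¹) * ∑ j ∈ range J, ((j : ℝ) + 1) *
        ‖∑ m ∈ Ioc (k * j) (k * j + k), c m * χ (m : ZMod k)‖ ^ 2 := by
    intro χ
    rw [ioc_blocks]
    refine (pow_le_pow_left₀ (norm_nonneg _) (norm_sum_le _ _) 2).trans ?_
    refine sum_sq_le_sum_mul_sum_of_sq_le_mul _ (fun j _ => by positivity)
      (fun j _ => by positivity) (fun j _ => le_of_eq ?_)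
    field_simp
  refine (sum_le_sum fun χ _ => h1 χ).trans ?_
  rw [← mul_sum, sum_comm]
  refine mul_le_mul_of_nonneg_left (sum_le_sum fun j _ => ?_) (by positivity)
  rw [← mul_sum]
  refine mul_le_mul_of_nonneg_left ((mean_value k (k * j) k c).trans (le_of_eq ?_)) (by positivity)
  ring

/-- the fourth moment of a character sum with coefficients like a geometric sum -/
lemma fourth_dual (k : ℕ) [NeZero k] (M : ℕ) (hM : M ≤ k) (g : ℕ → ℂ) (N D H : ℝ) (hN : 0 ≤ N)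
    (h1 : ∀ h ∈ Icc 1 M, ‖g h‖ ≤ N) (h2 : ∀ h ∈ Icc 1 M, ‖g h‖ * h ≤ k)
    (hD : ∀ m : ℕ, 1 ≤ m → m ≤ k * k → (m.divisors.card : ℝ) ≤ D)
    (hH : ∑ j ∈ range k, ((j : ℝ) + 1)⁻¹ ≤ H) :
    ∑ χ : DirichletCharacter ℂ k, ‖∑ h ∈ Icc 1 M, g h * χ (h : ZMod k)‖ ^ 4 ≤
      H ^ 2 * D ^ 2 * (2 * (k : ℝ) ^ 3 * N ^ 2 + 8 * (k : ℝ) ^ 4) := by
  have hk : 0 < k := Nat.pos_of_ne_zero (NeZero.ne k)
  have hkR : (0 : ℝ) < k := by exact_mod_cast hk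
  have hD0 : 0 ≤ D := le_trans (by positivity) (hD 1 le_rfl (Nat.mul_pos hk hk))
  have hS0 : 0 ≤ ∑ j ∈ range k, ((j : ℝ) + 1)⁻¹ := sum_nonneg fun j _ => by positivity
  have hH0 : 0 ≤ H := hS0.trans hH
  have e1 : ∀ χ : DirichletCharacter ℂ k, ‖∑ h ∈ Icc 1 M, g h * χ (h : ZMod k)‖ ^ 4 =
      ‖∑ m ∈ Ioc 0 (k * k), sqc M g m * χ (m : ZMod k)‖ ^ 2 := by
    intro χ
    rw [← sq_char χ M g (k * k) (Nat.mul_le_mul hM hM), norm_pow]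
    ring
  rw [sum_congr rfl fun χ _ => e1 χ]
  refine (block_mean k k (sqc M g)).trans ?_
  -- pointwise bounds
  have c1 : ∀ m : ℕ, 1 ≤ m → m ≤ k * k → ‖sqc M g m‖ ≤ D * (k ^ 2 / m) := by
    intro m hm hmk
    have hmR : (0 : ℝ) < m := by exact_mod_cast hm
    refine (sqc_le M g m (by omega) ((k : ℝ) ^ 2 / m) ?_ (by positivity)).trans
      (mul_le_mul_of_nonneg_right (hD m hm hmk) (by positivity))
    intro a ha b hb hab
    rw [le_div_iff₀ hmR, ← hab]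
    push_cast
    calc ‖g a‖ * ‖g b‖ * (a * b) = (‖g a‖ * a) * (‖g b‖ * b) := by ring
      _ ≤ k * k := mul_le_mul (h2 a ha) (h2 b hb) (by positivity) hkR.le
      _ = _ := by ring
  have c2 : ∀ m : ℕ, 1 ≤ m → m ≤ k * k → ‖sqc M g m‖ ^ 2 ≤ D ^ 2 * N ^ 2 * k ^ 2 * (m : ℝ)⁻¹ := by
    intro m hm hmk
    have hmR : (0 : ℝ) < m := by exact_mod_cast hm
    have c3 : ‖sqc M g m‖ ≤ D * N ^ 2 := by
      refine (sqc_le M g m (by omega) (N ^ 2) ?_ (by positivity)).trans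
        (mul_le_mul_of_nonneg_right (hD m hm hmk) (by positivity))
      intro a ha b hb _
      rw [sq]
      exact mul_le_mul (h1 a ha) (h1 b hb) (norm_nonneg _) hN
    calc ‖sqc M g m‖ ^ 2 = ‖sqc M g m‖ * ‖sqc M g m‖ := sq _
      _ ≤ (D * N ^ 2) * (D * (k ^ 2 / m)) :=
        mul_le_mul c3 (c1 m hm hmk) (norm_nonneg _) (by positivity)
      _ = _ := by rw [div_eq_mul_inv]; ring
  have key : ∀ j ∈ range k, ((j : ℝ) + 1) * (2 * k * ∑ m ∈ Ioc (k * j) (k * j + k), ‖sqc M g m‖ ^ 2)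
      ≤ (if j = 0 then H * D ^ 2 * (2 * (k : ℝ) ^ 3 * N ^ 2) else 0) +
        D ^ 2 * (8 * (k : ℝ) ^ 4) * ((j : ℝ) + 1)⁻¹ := by
    intro j hj
    have hjk : j < k := mem_range.1 hj
    have hblk : k * j + k ≤ k * k := by
      calc k * j + k = k * (j + 1) := by ring
        _ ≤ k * k := Nat.mul_le_mul_left k hjk
    by_cases hj0 : j = 0
    · subst hj0
      rw [if_pos rfl]
      have d1 : ∑ m ∈ Ioc (k * 0) (k * 0 + k), ‖sqc M g m‖ ^ 2 ≤ D ^ 2 * N ^ 2 * k ^ 2 * H := by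
        calc ∑ m ∈ Ioc (k * 0) (k * 0 + k), ‖sqc M g m‖ ^ 2
            ≤ ∑ m ∈ Ioc (k * 0) (k * 0 + k), D ^ 2 * N ^ 2 * k ^ 2 * (m : ℝ)⁻¹ := by
              refine sum_le_sum fun m hm => ?_
              rw [mem_Ioc] at hm
              exact c2 m (by omega) (by omega)
          _ = D ^ 2 * N ^ 2 * k ^ 2 * ∑ m ∈ Ioc (k * 0) (k * 0 + k), (m : ℝ)⁻¹ := by rw [mul_sum]
          _ ≤ _ := by
              refine mul_le_mul_of_nonneg_left ?_ (by positivity)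
              refine le_trans (le_of_eq ?_) hH
              rw [mul_zero, zero_add, range_eq_Ico]
              have := Finset.sum_Ico_add' (fun m : ℕ => ((m : ℝ))⁻¹) 0 k 1
              rw [zero_add] at this
              have e2 : Ioc 0 k = Ico 1 (k + 1) := by
                ext n; simp only [mem_Ioc, mem_Ico]; omega
              rw [e2, ← this]
              refine sum_congr rfl fun n _ => ?_
              push_cast
              rfl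
      have d2 : (((0 : ℕ) : ℝ) + 1) * (2 * k * ∑ m ∈ Ioc (k * 0) (k * 0 + k), ‖sqc M g m‖ ^ 2) ≤
          1 * (2 * k * (D ^ 2 * N ^ 2 * k ^ 2 * H)) := by
        rw [Nat.cast_zero, zero_add]
        exact mul_le_mul_of_nonneg_left (mul_le_mul_of_nonneg_left d1 (by positivity)) zero_le_one
      have d3 : 0 ≤ D ^ 2 * (8 * (k : ℝ) ^ 4) * (((0 : ℕ) : ℝ) + 1)⁻¹ := by positivity
      nlinarith [d2, d3]
    · rw [if_neg hj0, zero_add]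
      have hj1 : 1 ≤ j := Nat.one_le_iff_ne_zero.2 hj0
      have hjR : (1 : ℝ) ≤ j := by exact_mod_cast hj1
      have d1 : ∀ m ∈ Ioc (k * j) (k * j + k), ‖sqc M g m‖ ^ 2 ≤
          D ^ 2 * (2 * k / ((j : ℝ) + 1)) ^ 2 := by
        intro m hm
        rw [mem_Ioc] at hm
        have hm1 : 1 ≤ m := by omega
        have hmR : (k : ℝ) * j ≤ m := by exact_mod_cast hm.1.le
        have hm0 : (0 : ℝ) < m := by exact_mod_cast hm1
        have d4 : (k : ℝ) ^ 2 / m ≤ 2 * k / ((j : ℝ) + 1) := by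
          rw [div_le_div_iff₀ hm0 (by positivity)]
          nlinarith
        rw [← mul_pow]
        exact pow_le_pow_left₀ (norm_nonneg _)
          ((c1 m hm1 (by omega)).trans (mul_le_mul_of_nonneg_left d4 hD0)) 2
      have d2 : ∑ m ∈ Ioc (k * j) (k * j + k), ‖sqc M g m‖ ^ 2 ≤
          k * (D ^ 2 * (2 * k / ((j : ℝ) + 1)) ^ 2) := by
        refine (sum_le_sum d1).trans (le_of_eq ?_)
        rw [sum_const, Nat.card_Ioc, nsmul_eq_mul]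
        congr 2
        omega
      calc ((j : ℝ) + 1) * (2 * k * ∑ m ∈ Ioc (k * j) (k * j + k), ‖sqc M g m‖ ^ 2)
          ≤ ((j : ℝ) + 1) * (2 * k * (k * (D ^ 2 * (2 * k / ((j : ℝ) + 1)) ^ 2))) := by gcongr
        _ = _ := by
            field_simp
            ring
  have key2 : ∑ j ∈ range k, ((j : ℝ) + 1) *
      (2 * k * ∑ m ∈ Ioc (k * j) (k * j + k), ‖sqc M g m‖ ^ 2) ≤
      H * D ^ 2 * (2 * (k : ℝ) ^ 3 * N ^ 2) + D ^ 2 * (8 * (k : ℝ) ^ 4) * H := by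
    refine (sum_le_sum key).trans ?_
    rw [sum_add_distrib, ← mul_sum]
    refine add_le_add ?_ (mul_le_mul_of_nonneg_left hH (by positivity))
    rw [sum_ite_eq' (range k) 0, if_pos (mem_range.2 hk)]
  calc _ ≤ H * (H * D ^ 2 * (2 * (k : ℝ) ^ 3 * N ^ 2) + D ^ 2 * (8 * (k : ℝ) ^ 4) * H) :=
        mul_le_mul hH key2 (sum_nonneg fun j _ => by positivity) hH0
    _ = _ := by ring

/-- geometric sums over an initial segment -/
lemma geo_le (r : ℕ) [NeZero r] (N h : ℕ) (h2 : 2 * h ≤ r) :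
    ‖∑ n ∈ Icc 1 N, ZMod.stdAddChar ((n : ZMod r) * (h : ZMod r))‖ * h ≤ r := by
  have hr0 : 0 < r := Nat.pos_of_ne_zero (NeZero.ne r)
  have hr : (0 : ℝ) < r := by exact_mod_cast hr0
  have e1 : ∀ n ∈ Icc 1 N, ZMod.stdAddChar ((n : ZMod r) * (h : ZMod r)) = e ((h : ℝ) / r) ^ n := by
    intro n _
    rw [← gaussLS_e, add_e_pow]
  rw [sum_congr rfl e1]
  have hz : ‖e ((h : ℝ) / r)‖ = 1 := add_norm_e _
  have hb : |(h : ℝ) / r| ≤ 1 / 2 := by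
    rw [abs_of_nonneg (by positivity), div_le_iff₀ hr]
    have : (2 : ℝ) * h ≤ r := by exact_mod_cast h2
    linarith
  have h4 := add_norm_e_sub_one ((h : ℝ) / r) hb
  rw [abs_of_nonneg (by positivity)] at h4
  set z := e ((h : ℝ) / r) with hzdef
  have h5 : ∀ N : ℕ, (∑ n ∈ Icc 1 N, z ^ n) * (z - 1) = z ^ (N + 1) - z := by
    intro N
    induction N with
    | zero => simp
    | succ N ih =>
      rw [Finset.sum_Icc_succ_top (by omega), add_mul, ih]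
      ring
  have h6 : ‖∑ n ∈ Icc 1 N, z ^ n‖ * ‖z - 1‖ ≤ 2 := by
    rw [← norm_mul, h5]
    refine (norm_sub_le _ _).trans ?_
    rw [norm_pow, hz]
    norm_num
  have h7 : ‖∑ n ∈ Icc 1 N, z ^ n‖ * (4 * (h / r)) ≤ 2 :=
    (mul_le_mul_of_nonneg_left h4 (norm_nonneg _)).trans h6
  have h8 : ‖∑ n ∈ Icc 1 N, z ^ n‖ * (4 * (h / r)) = ‖∑ n ∈ Icc 1 N, z ^ n‖ * h * 4 / r := by
    ring
  rw [h8, div_le_iff₀ hr] at h7
  linarith

lemma geo_norm (r : ℕ) [NeZero r] (N : ℕ) (b : ZMod r) :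
    ‖∑ n ∈ Icc 1 N, ZMod.stdAddChar ((n : ZMod r) * b)‖ ≤ N := by
  refine (norm_sum_le _ _).trans ?_
  have h1 : ∀ n ∈ Icc 1 N, ‖ZMod.stdAddChar ((n : ZMod r) * b)‖ ≤ 1 := fun n _ =>
    (AddChar.norm_apply _ _).le
  refine (sum_le_sum h1).trans ?_
  simp

lemma geo_neg (r : ℕ) [NeZero r] (N : ℕ) (b : ZMod r) :
    ‖∑ n ∈ Icc 1 N, ZMod.stdAddChar ((n : ZMod r) * (-b))‖ =
      ‖∑ n ∈ Icc 1 N, ZMod.stdAddChar ((n : ZMod r) * b)‖ := by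
  have h1 : ∑ n ∈ Icc 1 N, ZMod.stdAddChar ((n : ZMod r) * (-b)) =
      (starRingEnd ℂ) (∑ n ∈ Icc 1 N, ZMod.stdAddChar ((n : ZMod r) * b)) := by
    rw [map_sum]
    refine sum_congr rfl fun n _ => ?_
    rw [gaussLS_conj, mul_neg]
  rw [h1, Complex.norm_conj]

lemma zmod_sum (r : ℕ) [NeZero r] (F : ZMod r → ℂ) :
    ∑ b, F b = ∑ h ∈ range r, F (h : ZMod r) := by
  refine Finset.sum_bij (fun b _ => b.val) ?_ ?_ ?_ ?_
  · intro b _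
    exact mem_range.2 (ZMod.val_lt b)
  · intro a _ b _ h
    exact ZMod.val_injective r h
  · intro b hb
    exact ⟨(b : ZMod r), mem_univ _, ZMod.val_cast_of_lt (mem_range.1 hb)⟩
  · intro b _
    rw [ZMod.natCast_zmod_val]

lemma zmod_split (r : ℕ) [NeZero r] (F : ZMod r → ℂ) (h0 : F 0 = 0) :
    ∑ b, F b = ∑ h ∈ Icc 1 (r / 2), F (h : ZMod r) +
      ∑ h ∈ Icc 1 ((r - 1) / 2), F (-(h : ZMod r)) := by
  have hr0 : 0 < r := Nat.pos_of_ne_zero (NeZero.ne r)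
  rw [zmod_sum]
  have e1 : range r = insert 0 (Icc 1 (r / 2) ∪ Ioc (r / 2) (r - 1)) := by
    ext n
    simp only [mem_range, mem_insert, mem_union, mem_Icc, mem_Ioc]
    omega
  rw [e1, sum_insert (by simp), Nat.cast_zero, h0, zero_add, sum_union]
  · congr 1
    refine Finset.sum_bij' (fun n _ => r - n) (fun n _ => r - n) ?_ ?_ ?_ ?_ ?_
    · intro n hn
      rw [mem_Ioc] at hn
      rw [mem_Icc]
      omega
    · intro n hn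
      rw [mem_Icc] at hn
      rw [mem_Ioc]
      omega
    · intro n hn
      rw [mem_Ioc] at hn
      omega
    · intro n hn
      rw [mem_Icc] at hn
      omega
    · intro n hn
      rw [mem_Ioc] at hn
      rw [Nat.cast_sub (by omega), ZMod.natCast_self, zero_sub, neg_neg]
  · rw [disjoint_left]
    intro n h1 h2
    rw [mem_Icc] at h1
    rw [mem_Ioc] at h2
    omega

lemma four_add (a b : ℂ) : ‖a + b‖ ^ 4 ≤ 8 * (‖a‖ ^ 4 + ‖b‖ ^ 4) := by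
  have h1 : ‖a + b‖ ≤ ‖a‖ + ‖b‖ := norm_add_le _ _
  have h2 : ‖a + b‖ ^ 4 ≤ (‖a‖ + ‖b‖) ^ 4 := pow_le_pow_left₀ (norm_nonneg _) h1 4
  have h3 : (‖a‖ + ‖b‖) ^ 2 ≤ 2 * (‖a‖ ^ 2 + ‖b‖ ^ 2) := by nlinarith [sq_nonneg (‖a‖ - ‖b‖)]
  have h4 : (‖a‖ ^ 2 + ‖b‖ ^ 2) ^ 2 ≤ 2 * (‖a‖ ^ 4 + ‖b‖ ^ 4) := by
    nlinarith [sq_nonneg (‖a‖ ^ 2 - ‖b‖ ^ 2)]
  have h5 : ((‖a‖ + ‖b‖) ^ 2) ^ 2 ≤ (2 * (‖a‖ ^ 2 + ‖b‖ ^ 2)) ^ 2 :=
    pow_le_pow_left₀ (by positivity) h3 2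
  calc ‖a + b‖ ^ 4 ≤ (‖a‖ + ‖b‖) ^ 4 := h2
    _ = ((‖a‖ + ‖b‖) ^ 2) ^ 2 := by ring
    _ ≤ _ := h5
    _ = 4 * (‖a‖ ^ 2 + ‖b‖ ^ 2) ^ 2 := by ring
    _ ≤ 4 * (2 * (‖a‖ ^ 4 + ‖b‖ ^ 4)) := by linarith
    _ = _ := by ring

/-- the dual form of a primitive character sum -/
lemma prim_dual (r : ℕ) [NeZero r] (hr : 1 < r) (χ : DirichletCharacter ℂ r) (hχ : χ.IsPrimitive)
    (N : ℕ) : ‖∑ n ∈ Icc 1 N, χ (n : ZMod r)‖ ^ 4 * (r : ℝ) ^ 2 ≤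
      8 * (‖∑ h ∈ Icc 1 (r / 2), (∑ n ∈ Icc 1 N, ZMod.stdAddChar ((n : ZMod r) * (h : ZMod r))) *
        χ⁻¹ (h : ZMod r)‖ ^ 4 +
        ‖∑ h ∈ Icc 1 ((r - 1) / 2),
          (∑ n ∈ Icc 1 N, ZMod.stdAddChar ((n : ZMod r) * (-(h : ZMod r)))) *
        χ⁻¹ (h : ZMod r)‖ ^ 4) := by
  have hp' : (χ⁻¹).IsPrimitive := by
    rw [DirichletCharacter.isPrimitive_def, DirichletCharacter.conductor_inv]
    exact hχ
  have e1 : ∀ n : ZMod r, ∑ b, χ⁻¹ b * ZMod.stdAddChar (n * b) =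
      χ n * gaussSum χ⁻¹ (ZMod.stdAddChar (N := r)) := by
    intro n
    have h := gaussSum_mulShift_of_isPrimitive (ZMod.stdAddChar (N := r)) hp' n
    rw [inv_inv] at h
    rw [← h]
    simp [gaussSum, AddChar.mulShift_apply]
  have e2 : (∑ n ∈ Icc 1 N, χ (n : ZMod r)) * gaussSum χ⁻¹ (ZMod.stdAddChar (N := r)) =
      ∑ b : ZMod r, (∑ n ∈ Icc 1 N, ZMod.stdAddChar ((n : ZMod r) * b)) * χ⁻¹ b := by
    rw [sum_mul, sum_congr rfl fun (n : ℕ) _ => (e1 n).symm, sum_comm]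
    refine sum_congr rfl fun b _ => ?_
    rw [sum_mul]
    exact sum_congr rfl fun n _ => mul_comm _ _
  have h0 : (∑ n ∈ Icc 1 N, ZMod.stdAddChar ((n : ZMod r) * 0)) * χ⁻¹ (0 : ZMod r) = 0 := by
    have : ¬ IsUnit (0 : ZMod r) := by
      have : Fact (1 < r) := ⟨hr⟩
      exact not_isUnit_zero
    rw [MulChar.map_nonunit _ this, mul_zero]
  rw [zmod_split r _ h0] at e2
  have e3 : ∑ h ∈ Icc 1 ((r - 1) / 2),
      (∑ n ∈ Icc 1 N, ZMod.stdAddChar ((n : ZMod r) * (-(h : ZMod r)))) * χ⁻¹ (-(h : ZMod r)) =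
      χ⁻¹ (-1) * ∑ h ∈ Icc 1 ((r - 1) / 2),
      (∑ n ∈ Icc 1 N, ZMod.stdAddChar ((n : ZMod r) * (-(h : ZMod r)))) * χ⁻¹ (h : ZMod r) := by
    rw [mul_sum]
    refine sum_congr rfl fun h _ => ?_
    rw [neg_eq_neg_one_mul (h : ZMod r), map_mul]
    ring
  have h1 : ‖(∑ n ∈ Icc 1 N, χ (n : ZMod r)) * gaussSum χ⁻¹ (ZMod.stdAddChar (N := r))‖ ^ 4 =
      ‖∑ n ∈ Icc 1 N, χ (n : ZMod r)‖ ^ 4 * (r : ℝ) ^ 2 := by
    rw [norm_mul, mul_pow, ← norm_gaussSum_sq _ hp']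
    ring
  rw [← h1, e2]
  refine (four_add _ _).trans ?_
  rw [e3, norm_mul, mul_pow]
  have h2 : ‖χ⁻¹ (-1 : ZMod r)‖ ^ 4 ≤ 1 :=
    pow_le_one₀ (norm_nonneg _) (DirichletCharacter.norm_le_one _ _)
  have h3 : ∀ t : ℝ, 0 ≤ t → ‖χ⁻¹ (-1 : ZMod r)‖ ^ 4 * t ≤ t := fun t ht => by
    have := mul_le_mul_of_nonneg_right h2 ht
    rwa [one_mul] at this
  gcongr
  exact h3 _ (by positivity)

lemma prim_fourth (r : ℕ) [NeZero r] (hr : 1 < r) (N : ℕ) (D H : ℝ)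
    (hD : ∀ m : ℕ, 1 ≤ m → m ≤ r * r → (m.divisors.card : ℝ) ≤ D)
    (hH : ∑ j ∈ range r, ((j : ℝ) + 1)⁻¹ ≤ H) :
    (∑ χ ∈ prim r, ‖∑ n ∈ Icc 1 N, χ (n : ZMod r)‖ ^ 4) * (r : ℝ) ^ 2 ≤
      16 * (H ^ 2 * D ^ 2 * (2 * (r : ℝ) ^ 3 * (N : ℝ) ^ 2 + 8 * (r : ℝ) ^ 4)) := by
  rw [sum_mul]
  set A : DirichletCharacter ℂ r → ℝ := fun χ =>
    ‖∑ h ∈ Icc 1 (r / 2), (∑ n ∈ Icc 1 N, ZMod.stdAddChar ((n : ZMod r) * (h : ZMod r))) *
        χ (h : ZMod r)‖ ^ 4 with hA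
  set B : DirichletCharacter ℂ r → ℝ := fun χ =>
    ‖∑ h ∈ Icc 1 ((r - 1) / 2), (∑ n ∈ Icc 1 N, ZMod.stdAddChar ((n : ZMod r) * (-(h : ZMod r)))) *
        χ (h : ZMod r)‖ ^ 4 with hB
  have hsum : ∀ F : DirichletCharacter ℂ r → ℝ, (∀ χ, 0 ≤ F χ) →
      ∑ χ ∈ prim r, F χ⁻¹ ≤ ∑ χ, F χ := by
    intro F hF
    refine (sum_le_sum_of_subset_of_nonneg (subset_univ (prim r)) (fun χ _ _ => hF _)).trans
      (le_of_eq ?_)
    exact Equiv.sum_comp (Equiv.inv (DirichletCharacter ℂ r)) F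
  have hA1 : ∑ χ, A χ ≤ H ^ 2 * D ^ 2 * (2 * (r : ℝ) ^ 3 * (N : ℝ) ^ 2 + 8 * (r : ℝ) ^ 4) := by
    refine fourth_dual r (r / 2) (Nat.div_le_self _ _) _ N D H (by positivity) ?_ ?_ hD hH
    · intro h _
      exact geo_norm r N _
    · intro h hh
      rw [mem_Icc] at hh
      exact geo_le r N h (by omega)
  have hB1 : ∑ χ, B χ ≤ H ^ 2 * D ^ 2 * (2 * (r : ℝ) ^ 3 * (N : ℝ) ^ 2 + 8 * (r : ℝ) ^ 4) := by
    refine fourth_dual r ((r - 1) / 2) (by omega) _ N D H (by positivity) ?_ ?_ hD hH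
    · intro h _
      rw [geo_neg]
      exact geo_norm r N _
    · intro h hh
      rw [mem_Icc] at hh
      rw [geo_neg]
      exact geo_le r N h (by omega)
  have h1 : ∀ χ ∈ prim r, ‖∑ n ∈ Icc 1 N, χ (n : ZMod r)‖ ^ 4 * (r : ℝ) ^ 2 ≤
      8 * (A χ⁻¹ + B χ⁻¹) := by
    intro χ hχ
    have hp : χ.IsPrimitive := by simpa [prim] using hχ
    exact prim_dual r hr χ hp N
  have h2 := hsum A (fun χ => by rw [hA]; positivity)
  have h3 := hsum B (fun χ => by rw [hB]; positivity)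
  refine (sum_le_sum h1).trans ?_
  rw [← mul_sum, sum_add_distrib]
  linarith

lemma direct_fourth (k : ℕ) [NeZero k] (N : ℕ) (hN : N * N ≤ k) (D : ℝ)
    (hD : ∀ m : ℕ, 1 ≤ m → m ≤ k * k → (m.divisors.card : ℝ) ≤ D) :
    ∑ χ : DirichletCharacter ℂ k, ‖∑ n ∈ Icc 1 N, χ (n : ZMod k)‖ ^ 4 ≤
      2 * k * D ^ 2 * (N : ℝ) ^ 2 := by
  have hk : 0 < k := Nat.pos_of_ne_zero (NeZero.ne k)
  have e1 : ∀ χ : DirichletCharacter ℂ k, ‖∑ n ∈ Icc 1 N, χ (n : ZMod k)‖ ^ 4 =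
      ‖∑ m ∈ Ioc 0 (0 + N * N), sqc N (fun _ => 1) m * χ (m : ZMod k)‖ ^ 2 := by
    intro χ
    rw [zero_add, ← sq_char χ N (fun _ => 1) (N * N) le_rfl, norm_pow]
    simp only [one_mul]
    ring
  rw [sum_congr rfl fun χ _ => e1 χ]
  refine (mean_value k 0 (N * N) _).trans ?_
  have h1 : ∀ m ∈ Ioc 0 (0 + N * N), ‖sqc N (fun _ => 1) m‖ ^ 2 ≤ D ^ 2 := by
    intro m hm
    rw [mem_Ioc] at hm
    have h2 := sqc_le N (fun _ => 1) m (by omega) 1 (by intros; simp) zero_le_one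
    have hkk : k ≤ k * k := Nat.le_mul_of_pos_left k hk
    have h3 := hD m (by omega) (by omega)
    refine pow_le_pow_left₀ (norm_nonneg _) (h2.trans ?_) 2
    rw [mul_one]
    exact h3
  have hNk : ((N * N : ℕ) : ℝ) ≤ k := by exact_mod_cast hN
  calc (((N * N : ℕ) : ℝ) + k) * ∑ m ∈ Ioc 0 (0 + N * N), ‖sqc N (fun _ => 1) m‖ ^ 2
      ≤ (k + k) * ∑ m ∈ Ioc 0 (0 + N * N), D ^ 2 := by
        refine mul_le_mul (by linarith) (sum_le_sum h1) (sum_nonneg fun _ _ => by positivity)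
          (by positivity)
    _ = _ := by
        rw [sum_const, Nat.card_Ioc, nsmul_eq_mul, show 0 + N * N - 0 = N * N by omega]
        push_cast
        ring

lemma prim_fourth' (r : ℕ) (hr : 1 < r) (N : ℕ) (D H : ℝ)
    (hD : ∀ m : ℕ, 1 ≤ m → m ≤ r * r → (m.divisors.card : ℝ) ≤ D)
    (hH : ∑ j ∈ range r, ((j : ℝ) + 1)⁻¹ ≤ H) (hH1 : 1 ≤ H) :
    ∑ χ ∈ prim r, ‖∑ n ∈ Icc 1 N, χ (n : ZMod r)‖ ^ 4 ≤
      160 * H ^ 2 * D ^ 2 * r * (N : ℝ) ^ 2 := by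
  have : NeZero r := ⟨by omega⟩
  have hrR : (0 : ℝ) < r := by exact_mod_cast (by omega : 0 < r)
  have hHH : 1 ≤ H ^ 2 := one_le_pow₀ hH1
  rcases le_or_gt (N * N) r with hN | hN
  · have h1 := direct_fourth r N hN D hD
    have h2 : ∑ χ ∈ prim r, ‖∑ n ∈ Icc 1 N, χ (n : ZMod r)‖ ^ 4 ≤
        ∑ χ : DirichletCharacter ℂ r, ‖∑ n ∈ Icc 1 N, χ (n : ZMod r)‖ ^ 4 :=
      sum_le_sum_of_subset_of_nonneg (subset_univ _) (fun _ _ _ => by positivity)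
    refine (h2.trans h1).trans ?_
    have h3 : 0 ≤ D ^ 2 * r * (N : ℝ) ^ 2 := by positivity
    nlinarith
  · have h1 := prim_fourth r hr N D H hD hH
    have h2 : (r : ℝ) ≤ (N : ℝ) ^ 2 := by
      rw [sq]
      exact_mod_cast hN.le
    have h3 : (r : ℝ) ^ 4 ≤ (r : ℝ) ^ 3 * (N : ℝ) ^ 2 := by
      calc (r : ℝ) ^ 4 = (r : ℝ) ^ 3 * r := by ring
        _ ≤ _ := mul_le_mul_of_nonneg_left h2 (by positivity)
    have h4 : (∑ χ ∈ prim r, ‖∑ n ∈ Icc 1 N, χ (n : ZMod r)‖ ^ 4) * (r : ℝ) ^ 2 ≤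
        (160 * H ^ 2 * D ^ 2 * r * (N : ℝ) ^ 2) * (r : ℝ) ^ 2 := by
      refine h1.trans ?_
      have h5 : H ^ 2 * D ^ 2 * (2 * (r : ℝ) ^ 3 * (N : ℝ) ^ 2 + 8 * (r : ℝ) ^ 4) ≤
          H ^ 2 * D ^ 2 * (10 * ((r : ℝ) ^ 3 * (N : ℝ) ^ 2)) :=
        mul_le_mul_of_nonneg_left (by linarith) (by positivity)
      nlinarith [h5]
    exact le_of_mul_le_mul_right h4 (by positivity)

lemma harm_le (r : ℕ) : ∑ j ∈ range r, ((j : ℝ) + 1)⁻¹ ≤ 1 + Real.log r := by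
  refine le_trans (le_of_eq ?_) (DivSum_H r)
  rw [range_eq_Ico]
  have := Finset.sum_Ico_add' (fun m : ℕ => ((m : ℝ))⁻¹) 0 r 1
  rw [zero_add] at this
  have e2 : Icc 1 r = Ico 1 (r + 1) := by
    ext n; simp only [mem_Icc, mem_Ico]; omega
  rw [e2, ← this]
  refine sum_congr rfl fun n _ => ?_
  push_cast
  rfl

end FourthPrim

open FourthPrim in
theorem fourth_prim (δ : ℝ) (hδ : 0 < δ) : ∃ C : ℝ, 0 < C ∧ ∀ (r : ℕ) [NeZero r], 1 < r → ∀ N : ℕ,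
    ∑ χ ∈ prim r, ‖∑ n ∈ Icc 1 N, χ (n : ZMod r)‖ ^ 4 ≤ C * (r : ℝ) ^ (1 + δ) * (N : ℝ) ^ 2 := by
  set η : ℝ := δ / 6 with hη
  have hη0 : 0 < η := by positivity
  obtain ⟨C₀, hC₀, hdiv⟩ := Work.MP_aac176_nt.divisor_bound η hη0
  have hC₀' : 0 < C₀ := by linarith
  refine ⟨160 * (1 + 1 / η) ^ 2 * C₀ ^ 2, by positivity, ?_⟩
  intro r _ hr N
  have hrR : (1 : ℝ) ≤ r := by exact_mod_cast hr.le
  have hr0 : (0 : ℝ) < r := by linarith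
  have hlog : 0 ≤ Real.log r := Real.log_nonneg hrR
  have hD : ∀ m : ℕ, 1 ≤ m → m ≤ r * r → (m.divisors.card : ℝ) ≤ C₀ * ((r : ℝ) ^ η) ^ 2 := by
    intro m hm hmr
    refine (hdiv m (by omega)).trans (mul_le_mul_of_nonneg_left ?_ hC₀'.le)
    have h1 : (m : ℝ) ≤ (r : ℝ) * r := by exact_mod_cast hmr
    calc (m : ℝ) ^ η ≤ ((r : ℝ) * r) ^ η := Real.rpow_le_rpow (by positivity) h1 hη0.le
      _ = _ := by rw [Real.mul_rpow hr0.le hr0.le, sq]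
  have hr1 : 1 ≤ (r : ℝ) ^ η := Real.one_le_rpow hrR hη0.le
  have hH : ∑ j ∈ range r, ((j : ℝ) + 1)⁻¹ ≤ (1 + 1 / η) * (r : ℝ) ^ η := by
    refine (harm_le r).trans ?_
    have h1 := Real.log_le_rpow_div hr0.le hη0
    have h2 : (1 + 1 / η) * (r : ℝ) ^ η = (r : ℝ) ^ η + (r : ℝ) ^ η / η := by ring
    rw [h2]
    linarith
  have hH1 : 1 ≤ (1 + 1 / η) * (r : ℝ) ^ η := by
    have : 1 ≤ 1 + 1 / η := by
      have : 0 ≤ 1 / η := by positivity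
      linarith
    calc (1 : ℝ) = 1 * 1 := (one_mul 1).symm
      _ ≤ _ := mul_le_mul this hr1 zero_le_one (by linarith)
  refine (prim_fourth' r hr N _ _ hD hH hH1).trans (le_of_eq ?_)
  have e1 : (r : ℝ) ^ (1 + δ) = r * ((r : ℝ) ^ η) ^ 6 := by
    rw [Real.rpow_add hr0, Real.rpow_one, ← Real.rpow_natCast ((r : ℝ) ^ η) 6, ← Real.rpow_mul hr0.le]
    congr 2
    rw [hη]
    push_cast
    ring
  rw [e1]
  ring

end Pool.Agent.HT
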