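import Pool.Agent.Work.MP_92f640_nt.HT.Defs

/-! # Module HB3: Heath-Brown's identity, `k = 3`

`m = cutA mob 0 w`, `e = 1 - one' * m` vanishes on `[1, w]` (`mob * one' = 1`), so `e ^ 3` vanishes on
`[1, (w+1)^3)` and so does `e ^ 3 * Λ`; with `one' * Λ = lg`:
`Λ = 3 m lg - 3 m² one' lg + m³ one'² lg` on `n < (w+1)^3`.
Split `m = m0 + m1`, `one' = Z + z1`, `lg = l̂ + l1`, with `m0 = cutA mob 0 U`, `m1 = cutA mob U w`,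
`z1 = cutA one' U w`, `l1 = cutA lg U w`, `Z = z0 + z2`, `l̂ = l0 + l2` (`0`: `≤ U`, `2`: `> w`). Then
`b₁ = 3 lg - 3 (m + m0) one' lg + (m² + m m0 + m0²) one'² lg`,
`b₂ = -3 m0² lg + (one' + Z) m0³ lg`, `b₃ = 3 m0 - 3 m0² Z + m0³ Z²`, and the rest is
`(3 m0 - 3 m0² Z + m0³ Z²) (l0 + l2)`, in which `z2 * z2 * l2` vanishes for `n < (w+1)^3`.
Bounds: `|(f₁ * ... * f_j) n| ≤ τ_j(n) (log n)` for `|f_i| ≤ 1`, one of them `≤ log`, `τ_j ≤ τ^(j-1)`; `j ≤ 6`. -/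

namespace Pool.Agent.HT

open Finset Pool.Agent.BV Pool.Agent.HL
open scoped ArithmeticFunction.vonMangoldt

theorem hb3 (w U : ℕ) (hU1 : 1 ≤ U) (hU : U ≤ w) : ∃ F S : ArithmeticFunction ℝ,
    IsII U w F ∧ IsSm w (U ^ 6) S ∧ ∀ n : ℕ, n < (w + 1) ^ 3 → Λ n = F n + S n := by
  sorry

end Pool.Agent.HT
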