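import Pool.Agent.Work.MP_92f640_nt.HT.Coef
import Pool.Agent.Work.MP_92f640_nt.HL.Mass

/-! # Module IIMass: mean square of the type II part over the characters mod `k` that are not bad

As `HL/Mass`. `η = L^(-B₈)`, cells `C_i = (gr i, gr (i+1)] ∩ (U, w]` for the short variable `c`, coefficient `a = mob`,
`one'` or `lg`; replace `k' ≤ y/c` by `k' ≤ y/gr (i+1)`: the block is `A_i(χ) B_i(χ)`,
`‖A_i‖ ≤ 2 gr(i+1)/L^B₉` (`lg`: Abel, `≤ 6 L gr(i+1)/L^B₉`), `∑_χ ‖B_i‖² ≤ (K + k) ∑_{k' ≤ K} |b|² ≤ (K + k) K L^c`,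
`K = y/gr(i+1)` (`mean_value`, `tau_sum 10`); `gr(i+1)² (K + k) K ≤ 4 (x² + w k x) ≤ 8 x²` as `w k ≤ x^(1-ε)`. Number of cells
`I ≤ C L^(B₈+1)`. Boundary: coefficients `≤ 12 τ(n)^6 (1+log n)²`, `n ∈ (y(1-3η), y]`: `mean_value` and `tau_short 12`:
`(3 η x + 1 + k) C √(3 η x + 1) √x L^c ≤ C x² L^(c - 3 B₈/2) + ...` (`k ≤ x^(2/3)`: negligible).
Choose `B₈`, then `B₉` (absolute constants `c` are large: `2^24`; fine). -/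

namespace Pool.Agent.HT

open Finset Pool.Agent.BV Pool.Agent.HL

theorem ii_mass (ε κ : ℝ) (hε : 0 < ε) (hκ : 0 < κ) (B₆ : ℕ) : ∃ B₉ x₀ : ℕ, ∀ x : ℕ, x₀ ≤ x →
    ∀ (k : ℕ) [NeZero k], (k : ℝ) ≤ (x : ℝ) ^ (2 / 3 - ε) → ∀ U : ℕ, (x : ℝ) ^ κ / 2 ≤ U → U ≤ wx x →
    ∀ F : ArithmeticFunction ℝ, IsII U (wx x) F → ∀ X : Finset (DirichletCharacter ℂ k),
    (∀ χ ∈ X, ∀ u : ℕ, U ≤ u → u ≤ wx x → ‖cs one' χ u‖ ≤ (u : ℝ) / (Real.log x) ^ B₉ ∧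
      ‖cs mob χ u‖ ≤ (u : ℝ) / (Real.log x) ^ B₉) → ∀ y : ℕ, y ≤ x →
    ∑ χ ∈ X, ‖cs F χ y‖ ^ 2 ≤ (x : ℝ) ^ 2 / (Real.log x) ^ B₆ := by
  sorry

end Pool.Agent.HT
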