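import Pool.Agent.Work.MP_92f640_nt.HT.Defs

/-! # Module Imprim: from the primitive character to the imprimitive one

`h_k` = indicator of the `g ≥ 1` all of whose primes divide `k`; `one'_k` = indicator of `(n,k) = 1`:
`h_k * one'_k = one'`, hence `mob · 1_{(n,k)=1} = mob * h_k` and `one' · 1_{(n,k)=1} = one' * (mob · 1_{g ∣ k})`.
So `cs f χ u = ∑_{g ≤ u} c(g) χ*(g) cs f χ* (u/g)` with `|c(g)| ≤ h_k(g)`. For `g ≤ D`, `u/g ≥ lo`: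
`≤ (u/g) ρ`; for `g > D`: `‖cs f χ* (u/g)‖ ≤ u/g` and
`∑_{D < g ≤ u} h_k(g)/g ≤ D^(-1/2) ∑_{g ≤ u} h_k(g) g^(-1/2) ≤ D^(-1/2) ∏_{p ∣ k} (1 - p^(-1/2))⁻¹
≤ D^(-1/2) 4^{ω(k)} ≤ D^(-1/2) τ(k)²`. -/

namespace Pool.Agent.HT

open Finset Pool.Agent.BV Pool.Agent.HL

theorem imprim {k : ℕ} [NeZero k] (χ : DirichletCharacter ℂ k) (f : ArithmeticFunction ℝ)
    (hf : f = one' ∨ f = mob) (lo hi D : ℕ) (ρ : ℝ) (hρ : 0 ≤ ρ) (hD : 1 ≤ D)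
    (h : ∀ u : ℕ, lo ≤ u → u ≤ hi → ‖cs f χ.primitiveCharacter u‖ ≤ u * ρ) (u : ℕ)
    (hu1 : D * lo ≤ u) (hu2 : u ≤ hi) :
    ‖cs f χ u‖ ≤ u * (ρ * (1 + Real.log D) + (k.divisors.card : ℝ) ^ 2 / Real.sqrt D) := by
  sorry

end Pool.Agent.HT
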