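import Pool.Agent.Work.MP_92f640_nt.HT.Coef
import Pool.Agent.Work.BV.L_TypeI

/-! # Module SmPrinc: the smooth part, principal character, with a small twist

Lemma: `1 ≤ k`, `H ≤ N |θ| ≤ Z`, `N' ≤ N`:
`‖∑_{a < m ≤ N', (m,k)=1} e(mθ)‖ ≤ 2 (N (1 + log k)/(2H) + 2 Z τ(k))`: Möbius over `d ∣ k`, `∑_{m ≤ N'/d} e(m d θ)` is
`≤ 1/(2 d |θ|)` if `d |θ| ≤ 1/2` and `≤ N'/d ≤ 2 Z` otherwise (`d > 1/(2|θ|) ≥ N/(2Z)`).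
With `log m`: Abel, another factor `2 (1 + log x)`.
In `S`: all variables coprime to `k`; fix all but the last smooth variable `m > w`, `m ≤ N = x/(t n₁)`, twist
`t n₁ θ`, `N t n₁ |θ| ≤ x |θ| ≤ Z`. CARE: `N = x/(t n₁)` as a REAL number, so that `N * (t n₁ |θ|) = x |θ| ≥ H`.
`∑_t |γ t|/t` by `tau_inv`, number of pairs `(t, n₁)`: `n₁ ≤ x/(t w)`, `Z τ(k) |γ|` by `bd_pow`. `β₀`: trivial. -/

namespace Pool.Agent.HT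

open Finset Pool.Agent.BV Pool.Agent.HL

theorem sm_princ (δ : ℝ) (hδ : 0 < δ) : ∃ C : ℝ, 0 < C ∧ ∀ (x w T k : ℕ)
    (S : ArithmeticFunction ℝ) (θ H Z : ℝ), IsSm w T S → 3 ≤ x → 1 ≤ w → w ≤ x → 1 ≤ k → k ≤ x →
    1 ≤ T → T ≤ x → 1 ≤ H → H ≤ x * |θ| → x * |θ| ≤ Z →
    ‖∑ n ∈ (Icc 1 x).filter (fun n => n.Coprime k), ((S n : ℝ) : ℂ) * e (n * θ)‖ ≤
      C * (x * (Real.log x) ^ 40 / H + (x : ℝ) ^ δ * Z * (T : ℝ) ^ 2 * x / w) := by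
  sorry

end Pool.Agent.HT
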