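import Pool.Agent.Work.MP_92f640_nt.HT.Defs
import Pool.Agent.Work.MP_92f640_nt.HL.Ram

/-! # Module Twist: expansion into the characters mod `k = q s`

`β = (q α - b/s)/q`, so `e(n α) = e(n b/k) e(n β)`. `Φ(n) = φ(n) e(n b/k)` is periodic mod `k`; on `(n,k) = 1`:
`Φ(n) = ∑_χ c(χ) χ(n)`, `c(χ) = φ(k)⁻¹ ∑_{r < k, (r,k)=1} Φ(r) conj χ(r)`; Parseval
`∑_χ |c(χ)|² = φ(k)⁻¹ ∑_r |Φ(r)|² ≤ s/φ(k)` (each class mod `q` has `s` lifts).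
`c(1)`: `|∑_{r < k, r ≡ a (q), (r,k)=1} e(r b/k)| ≤ 1` for `(a,q) = 1`: `r = a + q c`, `c < s`; Möbius over `d ∣ s`:
`d ∣ a + q c` is impossible if `(d,q) > 1`, otherwise `c` runs over a class mod `d` and `∑ e(c b/s)` vanishes unless
`d = s`. So `|c(1)| ≤ φ(k)⁻¹ ∑_a |φ a| ≤ √q/φ(k)`.
`‖u + v‖² ≤ 2‖u‖² + 2‖v‖²`, Cauchy-Schwarz for `χ ≠ 1`. `twist_abel`: Abel summation as in `major_abel_norm`
(HL/Major, copy it), Cauchy-Schwarz over `y < x`. -/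

namespace Pool.Agent.HT

open Finset Pool.Agent.BV Pool.Agent.HL

theorem twist (x q s : ℕ) [NeZero (q * s)] (φ G : ℕ → ℂ) (α : ℝ) (b : ℤ) (hq : 1 ≤ q) (hφ : Tw q φ)
    (hs : 1 ≤ s) (hbs : IsCoprime b (s : ℤ)) :
    ‖∑ n ∈ (Icc 1 x).filter (fun n => n.Coprime (q * s)), G n * φ n * e (n * α)‖ ^ 2 ≤
      2 * ((q : ℝ) / ((q * s).totient : ℝ) ^ 2) *
        ‖∑ n ∈ (Icc 1 x).filter (fun n => n.Coprime (q * s)),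
          G n * e (n * ((q * α - b / s) / q))‖ ^ 2 +
      2 * ((s : ℝ) / (q * s).totient) *
        ∑ χ ∈ (univ : Finset (DirichletCharacter ℂ (q * s))).erase 1,
          ‖∑ n ∈ Icc 1 x, G n * χ (n : ZMod (q * s)) * e (n * ((q * α - b / s) / q))‖ ^ 2 := by
  sorry

theorem twist_abel (x k : ℕ) [NeZero k] (X : Finset (DirichletCharacter ℂ k)) (G : ℕ → ℂ) (β K : ℝ)
    (h : ∀ y ≤ x, ∑ χ ∈ X, ‖∑ n ∈ Icc 1 y, G n * χ (n : ZMod k)‖ ^ 2 ≤ K) :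
    ∑ χ ∈ X, ‖∑ n ∈ Icc 1 x, G n * χ (n : ZMod k) * e (n * β)‖ ^ 2 ≤
      2 * (1 + (2 * Real.pi * |β| * x) ^ 2) * K := by
  sorry

end Pool.Agent.HT
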