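import Pool.Agent.Work.MP_92f640_nt.HT.SmMean
import Pool.Agent.Work.MP_92f640_nt.HT.SmPrinc
import Pool.Agent.Work.MP_92f640_nt.HT.Twist
import Pool.Agent.Work.MP_92f640_nt.HL.TL2
import Pool.Agent.Work.MP_92f640_nt.HL.Evt

/-! # Module MinorSm: the smooth part on the minor arcs

`κ = kap ε`, `ρ = 100 κ`, `M = x/q`. Dirichlet for `q α` with `⌊M x^(-ρ)⌋`: `b/s` reduced, `s ≤ M x^(-ρ)`,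
`|q α - b/s| ≤ 1/(s M x^(-ρ))`, `m = s`, `k = q s ≤ x^(1-ρ)`, `β = (q α - b/s)/q`, `x |β| ≤ x^ρ/s`. `φ` vanishes off the
integers coprime to `q`, so `(n, s) = 1` may be replaced by `(n, k) = 1`: `twist`.
Principal term: if `s > L^B₁`: `sm_bd`, `tau_sum`: `(q/φ(k)²) (x L^c)² ≤ (x²/q) L^(2c+2) / s²` (`ratio_le k`). If `s ≤ L^B₁`:
`NotMajor` gives `x |β| > L^B₂`: `sm_princ` with `H = L^B₂`, `Z = x^ρ`.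
Other characters: `twist_abel` and `sm_mean (δ = κ)`, `T = U^6`, `T^4 ≤ x^(24κ)`: if `s ≥ x^ρ` then `x|β| ≤ 1`,
`P = ⌊x^(ρ/4)⌋`: `(x²/q) x^(25κ - ρ/2) L²`; if `s < x^ρ`: `P = ⌊x^(2ρ)⌋`, `k ≤ x^(2/3+ρ)`, factor `x^(2ρ)`:
`(x²/q) L² x^(25κ+2ρ) (x^(5ρ-1/3) + x^(-4ρ))`. -/

namespace Pool.Agent.HT

open Finset Pool.Agent.BV Pool.Agent.HL

theorem minor_sm (ε : ℝ) (hε : 0 < ε) (B : ℕ) : ∃ B₀ : ℕ, ∀ B₁ : ℕ, B₀ ≤ B₁ → ∀ B₂ : ℕ, B₁ ≤ B₂ →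
    ∃ x₀ : ℕ, ∀ x : ℕ, x₀ ≤ x → ∀ q : ℕ, 1 ≤ q → (q : ℝ) ≤ (x : ℝ) ^ (2 / 3 - ε) →
    ∀ α : ℝ, NotMajor x q B₁ B₂ α → ∃ m : ℕ, 1 ≤ m ∧ m ≤ x ∧
    ∀ S : ArithmeticFunction ℝ, IsSm (wx x) (Ux (kap ε) x ^ 6) S → ∀ φ : ℕ → ℂ, Tw q φ →
    ‖∑ n ∈ (Icc 1 x).filter (fun n => n.Coprime m), ((S n : ℝ) : ℂ) * φ n * e (n * α)‖ ^ 2 ≤
      (x : ℝ) ^ 2 / (q * (Real.log x) ^ B) := by
  sorry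

end Pool.Agent.HT
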