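import Pool.Agent.Work.MP_92f640_nt.HT.HB3
import Pool.Agent.Work.MP_92f640_nt.HT.MinorSm
import Pool.Agent.Work.MP_92f640_nt.HT.IIMinor
import Pool.Agent.Work.MP_92f640_nt.HL.Dual
import Pool.Agent.Work.MP_92f640_nt.HL.TL2
import Pool.Agent.Work.BV.DivSum

/-! # Module Minor2: the von Mangoldt function on the minor arcs

`VV_le` (HL/Dual). `hb3 (wx x) (Ux κ x)`, `(wx x + 1)^3 > x`; `m` from `minor_sm`; `Λ(n) φ(n) = FL q n φ(n)`; the `n`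
with `(n, m) > 1`: `coprime_defect m x` (BV/DivSum) and `‖φ n‖ ≤ 1`: `≤ 2 L²` or so. On `(n, m) = 1`:
`Λ = F + S`; `minor_sm` for `S`; `ii_minor` for `F` with Dirichlet for `q α`, denominators `≤ x/(q L^B₂)`:
`|q α - b/s| ≤ 1/(s x/(q L^B₂))`, so `s > L^B₁` by `NotMajor`, `q s/x ≤ L^(-B₂)`, `q w/x ≤ x^(-ε)`, `1/U ≤ 2 x^(-κ)`. -/

namespace Pool.Agent.HT

open Finset Pool.Agent.BV Pool.Agent.HL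

theorem minor2 (ε : ℝ) (hε : 0 < ε) (B : ℕ) : ∃ B₀ : ℕ, ∀ B₁ : ℕ, B₀ ≤ B₁ → ∀ B₂ : ℕ, B₁ ≤ B₂ →
    ∃ x₀ : ℕ, ∀ x : ℕ, x₀ ≤ x → ∀ q : ℕ, 1 ≤ q → (q : ℝ) ≤ (x : ℝ) ^ (2 / 3 - ε) →
    ∀ α : ℝ, NotMajor x q B₁ B₂ α → VV q x (FL q) α ≤ (x : ℝ) ^ 2 / (q * (Real.log x) ^ B) := by
  sorry

end Pool.Agent.HT
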