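import Pool.Agent.Work.MP_92f640_nt.HT.D2

/-! # Module SmMean: mean square of the smooth part over the non-principal characters

`cs (γ * g) χ y = ∑_{t ≤ T} γ(t) χ(t) cs g χ (y/t)`; Cauchy over `t ≤ T` (`|γ t| ≤ C x^δ`, `bd_pow`) and
`d2_mean` for `g = cutI one' w * cutI f w`, `short_sum`/`short_sum_log` (HL/MeanV: `∑_{χ ≠ 1} ‖∑_{n ≤ Y} χ(n)‖² ≤ 2 k²`)
for `g = cutI f w` (difference of the sums up to `Y` and `w`), and `mean_value` for `β₀`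
(`(T + k) T x^δ`). -/

namespace Pool.Agent.HT

open Finset Pool.Agent.BV Pool.Agent.HL

theorem sm_mean (δ : ℝ) (hδ : 0 < δ) : ∃ C : ℝ, 0 < C ∧ ∀ (x w T k P y : ℕ) [NeZero k]
    (S : ArithmeticFunction ℝ), IsSm w T S → 3 ≤ x → y ≤ x → k ≤ x → 1 ≤ T → T ≤ x → 1 ≤ P → P ≤ w →
    w ≤ x →
    ∑ χ ∈ (univ : Finset (DirichletCharacter ℂ k)).erase 1, ‖cs S χ y‖ ^ 2 ≤
      C * (x : ℝ) ^ δ * (T : ℝ) ^ 4 * ((P : ℝ) ^ 2 * k * x + (x : ℝ) ^ 2 / (P : ℝ) ^ 2) := by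
  sorry

end Pool.Agent.HT
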