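import Pool.Agent.Work.MP_92f640_nt.HT.HB3
import Pool.Agent.Work.MP_92f640_nt.HT.SmMean
import Pool.Agent.Work.MP_92f640_nt.HT.Imprim
import Pool.Agent.Work.MP_92f640_nt.HT.IIMass
import Pool.Agent.Work.MP_92f640_nt.HL.VarA
import Pool.Agent.Work.MP_92f640_nt.HL.VarB
import Pool.Agent.Work.MP_92f640_nt.HL.VarC

/-! # Module Var2: variance of primes in the classes mod `q s` for good `q ≤ x^(2/3-ε)`

As `HL/Var` (Parseval `psiA_parseval_real`, `psi_pnt`, trivial range of small `y`; conductors `≤ L^A₁`: `var_small`, all in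
HL/VarA, VarB, VarC). Conductor `> L^A₁`: `k = q s ≤ x^(2/3-ε/2)`, `κ = kap ε`. `psiC χ y = cs F χ y + cs S χ y` (`hb3 (wx x) (Ux κ x)`).
`S`: `sm_mean (δ = κ)` with `P = ⌊x^(1/12)⌋`: `x^(25κ) (x^(1/6+2/3+1) + x^(2-1/6))`.
`F`: `ii_mass (ε/2) κ`; not bad: `GoodT` for `χ.primitiveCharacter`, `imprim` with `lo = ⌈x^(κ/2)⌉`, `D = ⌊x^(κ/4)⌋`,
`ρ = 1/L^B₉`, `divisor_bound` for `τ(k)²`, so `‖cs f χ u‖ ≤ u/L^(B₉-2)` for `u ≥ Ux κ x`. -/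

namespace Pool.Agent.HT

open Finset Pool.Agent.BV Pool.Agent.HL

theorem var2 (ε : ℝ) (hε : 0 < ε) (B₁ B₆ : ℕ) : ∃ B₉ : ℕ, ∀ A₁ : ℕ, ∃ x₀ : ℕ, ∀ x : ℕ, x₀ ≤ x →
    ∀ q : ℕ, 1 ≤ q → (q : ℝ) ≤ (x : ℝ) ^ (2 / 3 - ε) →
    GoodT x ((x : ℝ) ^ (kap ε / 2)) ((x : ℝ) ^ (1 / 3 : ℝ)) ((Real.log x) ^ A₁) ((Real.log x) ^ B₁)
      B₉ q →
    ∀ s : ℕ, 1 ≤ s → (s : ℝ) ≤ (Real.log x) ^ B₁ → ∀ y : ℕ, y ≤ x →
    ∑ c ∈ (range (q * s)).filter (fun c => c.Coprime (q * s)),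
        |psiA (q * s) c y - (y : ℝ) / (q * s).totient| ^ 2 ≤
      (x : ℝ) ^ 2 / (((q * s : ℕ) : ℝ) * (Real.log x) ^ B₆) := by
  sorry

end Pool.Agent.HT
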