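import Pool.Agent.Work.MP_92f640_nt.HT.Minor2
import Pool.Agent.Work.MP_92f640_nt.HT.Var2
import Pool.Agent.Work.MP_92f640_nt.HL.Dual
import Pool.Agent.Work.MP_92f640_nt.HL.TMinor
import Pool.Agent.Work.MP_92f640_nt.HL.TL2
import Pool.Agent.Work.MP_92f640_nt.HL.Major
import Pool.Agent.Work.MP_92f640_nt.HL.EEVar
import Pool.Agent.Work.MP_92f640_nt.HL.Evt
import Pool.Agent.Work.MP_92f640_nt.HL.SupArith

/-! # Module SupVV2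

As `HL/SupVV`; the case distinction is now: either there are `s ≤ L^B₁`, `b` with `|q α - b/s| ≤ q L^B₂/x` (major), or
`NotMajor`, and then `minor2` for `FL`, and Dirichlet + `T_minor` for `TM`. -/

namespace Pool.Agent.HT

open Finset Pool.Agent.BV Pool.Agent.HL

theorem sup_VV2 (ε : ℝ) (hε : 0 < ε) (B'' : ℕ) : ∃ B₁ B₉ : ℕ, B'' ≤ B₁ ∧
    ∀ A₁ : ℕ, ∃ x₀ : ℕ, ∀ x : ℕ, x₀ ≤ x →
    ∀ q : ℕ, 1 ≤ q → (q : ℝ) ≤ (x : ℝ) ^ (2 / 3 - ε) →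
    GoodT x ((x : ℝ) ^ (kap ε / 2)) ((x : ℝ) ^ (1 / 3 : ℝ)) ((Real.log x) ^ A₁) ((Real.log x) ^ B₁)
      B₉ q → ∀ α : ℝ,
    VV q x (fun n => FL q n - TM q ⌈(Real.log x) ^ B₁⌉₊ n) α ≤
      (x : ℝ) ^ 2 / (q * (Real.log x) ^ B'') := by
  sorry

end Pool.Agent.HT
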